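import Mathlib
import Pool.Agent.K4H49.AC.A5

/-! Counting the small elements of a subgroup of the residue classes: `k`-fold products. -/

set_option autoImplicit false

namespace Pool.Agent.K4H2.EC
open Finset Pool.Agent.R311.RES Pool.Agent.K4H49.AC Filter Topology
open scoped Classical

variable {q : ℕ} [Fact q.Prime]

/-- the elements of `G` with least positive residue at most `P` -/
noncomputable def SG (G : Subgroup (ZMod q)ˣ) (P : ℕ) : Finset (ZMod q)ˣ :=
  univ.filter (fun u : (ZMod q)ˣ => u ∈ G ∧ (u : ZMod q).val ≤ P)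

lemma mem_SG {G : Subgroup (ZMod q)ˣ} {P : ℕ} {u : (ZMod q)ˣ} : u ∈ SG G P ↔ u ∈ G ∧ (u : ZMod q).val ≤ P := by
  unfold SG
  rw [mem_filter]
  exact ⟨fun h => h.2, fun h => ⟨mem_univ _, h⟩⟩

/-- the integers up to `N` whose class is in `G` -/
lemma cnt_class (G : Subgroup (ZMod q)ˣ) (N : ℕ) :
    ((Icc 1 N).filter (fun n => n.Coprime q ∧ un q n ∈ G)).card ≤ (Fintype.card G) * (N / q + 1) := by
  have hq : q.Prime := Fact.out
  have : NeZero q := ⟨hq.pos.ne'⟩
  have h1 : ((Icc 1 N).filter (fun n => n.Coprime q ∧ un q n ∈ G)).card ≤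
      ((univ.filter (fun g : (ZMod q)ˣ => g ∈ G)) ×ˢ (range (N / q + 1))).card := by
    apply Finset.card_le_card_of_injOn (fun n => (un q n, n / q))
    · intro n hn
      rw [mem_coe, mem_filter, mem_Icc] at hn
      rw [mem_coe, mem_product, mem_filter, mem_range, Nat.lt_succ_iff]
      exact ⟨⟨mem_univ _, hn.2.2⟩, Nat.div_le_div_right hn.1.2⟩
    · intro n hn m hm h
      rw [mem_coe, mem_filter, mem_Icc] at hn hm
      rw [Prod.mk.injEq] at h
      have h2 : (n : ZMod q) = (m : ZMod q) := by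
        rw [← un_val hn.2.1, ← un_val hm.2.1, h.1]
      rw [ZMod.natCast_eq_natCast_iff] at h2
      have h3 : n % q = m % q := h2
      rw [← Nat.div_add_mod n q, ← Nat.div_add_mod m q, h.2, h3]
  rw [card_product, card_range] at h1
  have h2 : (univ.filter (fun g : (ZMod q)ˣ => g ∈ G)).card = Fintype.card G := by
    rw [Fintype.card_subtype]
  rw [h2] at h1
  exact h1

/-- **The number of small elements: `k`-fold products.** -/
theorem cnt_pow (G : Subgroup (ZMod q)ˣ) (P k D : ℕ)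
    (hD : ∀ m : ℕ, 0 < m → m ≤ P ^ k → m.divisors.card ≤ D) :
    (SG G P).card ^ k ≤ (Fintype.card G) * (P ^ k / q + 1) * D ^ k := by
  have hq : q.Prime := Fact.out
  have : NeZero q := ⟨hq.pos.ne'⟩
  set T := SG G P with hT
  set Q := Fintype.piFinset (fun _ : Fin k => T) with hQ
  set 𝒩 := (Icc 1 (P ^ k)).filter (fun n => n.Coprime q ∧ un q n ∈ G) with h𝒩
  have hcop : ∀ u : (ZMod q)ˣ, ((u : ZMod q).val).Coprime q := fun u => cop_of_lt (val_pos u) (ZMod.val_lt _)
  have hun : ∀ u : (ZMod q)ˣ, un q (u : ZMod q).val = u := by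
    intro u
    apply Units.ext
    rw [un_val (hcop u), ZMod.natCast_zmod_val]
  have e1 : Q.card = T.card ^ k := by
    rw [hQ, Fintype.card_piFinset, Finset.prod_const, card_univ, Fintype.card_fin]
  have hmaps : ∀ t ∈ Q, ∏ i : Fin k, ((t i : (ZMod q)ˣ) : ZMod q).val ∈ 𝒩 := by
    intro t ht
    have ht' : ∀ i, t i ∈ G ∧ ((t i : (ZMod q)ˣ) : ZMod q).val ≤ P :=
      fun i => mem_SG.1 (Fintype.mem_piFinset.1 ht i)
    rw [h𝒩, mem_filter, mem_Icc]
    refine ⟨⟨?_, ?_⟩, Nat.Coprime.prod_left fun i _ => hcop _, ?_⟩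
    · exact Finset.prod_pos fun i _ => val_pos _
    · have : P ^ k = ∏ _i : Fin k, P := by rw [Finset.prod_const, card_univ, Fintype.card_fin]
      rw [this]
      exact Finset.prod_le_prod' fun i _ => (ht' i).2
    · rw [un_prod _ _ (fun i _ => hcop _)]
      apply Subgroup.prod_mem
      intro i _
      rw [hun]
      exact (ht' i).1
  rw [← e1, Finset.card_eq_sum_card_fiberwise hmaps]
  have h2 : ∀ n ∈ 𝒩, (Q.filter (fun t => ∏ i : Fin k, ((t i : (ZMod q)ˣ) : ZMod q).val = n)).card ≤ D ^ k := by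
    intro n hn
    rw [h𝒩, mem_filter, mem_Icc] at hn
    have h3 : Q.filter (fun t => ∏ i : Fin k, ((t i : (ZMod q)ˣ) : ZMod q).val = n) ⊆
        Fintype.piFinset (fun _ : Fin k => univ.filter (fun u : (ZMod q)ˣ => (u : ZMod q).val ∣ n)) := by
      intro t ht
      rw [mem_filter] at ht
      rw [Fintype.mem_piFinset]
      intro i
      rw [mem_filter]
      refine ⟨mem_univ _, ?_⟩
      rw [← ht.2]
      exact Finset.dvd_prod_of_mem _ (mem_univ i)
    refine (card_le_card h3).trans ?_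
    rw [Fintype.card_piFinset, Finset.prod_const, card_univ, Fintype.card_fin]
    apply Nat.pow_le_pow_left
    refine le_trans ?_ (hD n (by omega) hn.1.2)
    apply Finset.card_le_card_of_injOn (fun u : (ZMod q)ˣ => (u : ZMod q).val)
    · intro u hu
      rw [mem_coe, mem_filter] at hu
      rw [mem_coe, Nat.mem_divisors]
      exact ⟨hu.2, by omega⟩
    · intro u _ v _ huv
      apply Units.ext
      exact ZMod.val_injective q huv
  refine (Finset.sum_le_sum h2).trans ?_
  rw [Finset.sum_const, smul_eq_mul]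
  exact Nat.mul_le_mul_right _ (cnt_class G (P ^ k))

/-- the least exponent `k` with `q ^ 2 ≤ B ^ (3 k)` -/
lemma choose_k {q B : ℕ} (hq : 2 ≤ q) (hB : 2 ≤ B) : ∃ k : ℕ, 1 ≤ k ∧ q ^ 2 ≤ B ^ (3 * k) ∧
    (k = 1 ∨ B ^ (3 * (k - 1)) < q ^ 2) := by
  have hex : ∃ k : ℕ, q ^ 2 ≤ B ^ (3 * k) := by
    refine ⟨q ^ 2, ?_⟩
    have h1 : q ^ 2 < B ^ (q ^ 2) := Nat.lt_pow_self (by omega)
    exact h1.le.trans (Nat.pow_le_pow_right (by omega) (by omega))
  have hs := Nat.find_spec hex
  have hm : ∀ m, m < Nat.find hex → ¬ q ^ 2 ≤ B ^ (3 * m) := fun m hm => Nat.find_min hex hm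
  have h1 : 1 ≤ Nat.find hex := by
    rw [Nat.one_le_iff_ne_zero]
    intro h
    rw [h, Nat.mul_zero, pow_zero] at hs
    have : 1 < q ^ 2 := Nat.one_lt_pow (by norm_num) (by omega)
    omega
  exact ⟨Nat.find hex, h1, hs, Or.inr (not_le.1 (hm _ (by omega)))⟩

end Pool.Agent.K4H2.EC
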