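import Mathlib
import Pool.Agent.K4H2.EC.B
import Pool.Agent.R311.RES.B4

/-! The mollified first moment over a coset of characters, and the number of characters with a central value that is
not small. -/

set_option autoImplicit false

namespace Pool.Agent.K4H2.EC
open Finset Pool.Agent.R311.RES Pool.Agent.K4H49.AC Filter Topology
open scoped Classical

variable {q : ℕ} [Fact q.Prime]

lemma L_Wf (χ : DirichletCharacter ℂ q) : DirichletCharacter.LFunction χ (1 / 2) = Wf (hzv q) χ := by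
  rw [L_half]
  unfold Wf
  apply Finset.sum_congr rfl
  intro u _
  ring

lemma LM_Wf (Y : ℕ) (χ : DirichletCharacter ℂ q) :
    DirichletCharacter.LFunction χ (1 / 2) * MM q ∅ Y χ = Wf (CC q ∅ Y) χ := by
  rw [L_Wf, mul_comm]
  unfold MM
  rw [conv_mul (AA ∅ Y) (fun a => ((((ArithmeticFunction.moebius a : ℤ) : ℝ) * rs a : ℝ) : ℂ)) (un q)]
  rfl

lemma sum_rs (Y : ℕ) : ∑ a ∈ Icc 1 Y, rs a ≤ 2 * Real.sqrt Y := by
  refine le_trans (le_of_eq ?_) (sum_rsqrt Y)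
  apply Finset.sum_congr rfl
  intro n _
  rw [Real.rpow_neg (Nat.cast_nonneg n), ← Real.sqrt_eq_rpow]
  rfl

lemma MM_norm (Y : ℕ) (χ : DirichletCharacter ℂ q) : ‖MM q ∅ Y χ‖ ≤ 2 * Real.sqrt Y := by
  refine le_trans ?_ (sum_rs Y)
  unfold MM
  refine (norm_sum_le _ _).trans ?_
  have h1 : AA ∅ Y ⊆ Icc 1 Y := filter_subset _ _
  refine le_trans (Finset.sum_le_sum (g := fun a => rs a) ?_)
    (Finset.sum_le_sum_of_subset_of_nonneg h1 (fun _ _ _ => rs_nonneg _))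
  intro a _
  rw [norm_mul, Complex.norm_real, Real.norm_eq_abs, abs_mul, abs_of_nonneg (rs_nonneg a)]
  have h2 : |((ArithmeticFunction.moebius a : ℤ) : ℝ)| ≤ 1 := by
    have := ArithmeticFunction.abs_moebius_le_one (n := a)
    exact_mod_cast this
  have h3 := DirichletCharacter.norm_le_one χ (un q a : ZMod q)
  calc |((ArithmeticFunction.moebius a : ℤ) : ℝ)| * rs a * ‖χ (un q a : ZMod q)‖ ≤ 1 * rs a * 1 := by
        apply mul_le_mul _ h3 (norm_nonneg _) (by have := rs_nonneg a; positivity)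
        exact mul_le_mul_of_nonneg_right h2 (rs_nonneg a)
    _ = rs a := by ring

lemma CS_empty (Y : ℕ) (hY : 1 ≤ Y) (g : (ZMod q)ˣ) : CS q ∅ Y g = if g = 1 then 1 else 0 := by
  have hq : q.Prime := Fact.out
  have : Fact (1 < q) := ⟨hq.one_lt⟩
  unfold CS
  by_cases hg : g = 1
  · subst hg
    have hv : (((1 : (ZMod q)ˣ) : ZMod q)).val = 1 := by rw [Units.val_one, ZMod.val_one]
    rw [hv, if_pos rfl, if_pos ⟨hY, by simp⟩]
    simp [rs]
  · rw [if_neg hg, if_neg]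
    rintro ⟨-, h⟩
    apply hg
    have h1 : (g : ZMod q).val.primeFactors = ∅ := subset_empty.1 h
    rw [Nat.primeFactors_eq_empty] at h1
    have h2 := val_pos g
    have h3 : (g : ZMod q).val = 1 := by omega
    apply Units.ext
    apply ZMod.val_injective q
    rw [h3, Units.val_one, ZMod.val_one]

/-- a sum over a coset in terms of the annihilator -/
lemma coset_G (H : Subgroup (DirichletCharacter ℂ q)) (w : (ZMod q)ˣ → ℂ) (χ₀ : DirichletCharacter ℂ q) :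
    ∑ ψ : H, Wf w (χ₀ * ψ) = (Fintype.card H : ℂ) *
      ∑ g ∈ univ.filter (fun g : (ZMod q)ˣ => g ∈ ann H), w g * χ₀ (g : ZMod q) := by
  rw [coset_sum]
  unfold Wf
  rw [Finset.mul_sum, Finset.sum_filter]
  apply Finset.sum_congr rfl
  intro g _
  by_cases hg : g ∈ ann H
  · rw [if_pos hg]
    show (Fintype.card H : ℂ) * (if g ∈ ann H then w g else 0) * χ₀ (g : ZMod q) = _
    rw [if_pos hg]; ring
  · rw [if_neg hg]
    show (Fintype.card H : ℂ) * (if g ∈ ann H then w g else 0) * χ₀ (g : ZMod q) = _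
    rw [if_neg hg]; ring

/-- the error -/
noncomputable def Er (H : Subgroup (DirichletCharacter ℂ q)) (Y : ℕ) : ℝ :=
  ∑ u ∈ univ.filter (fun u : (ZMod q)ˣ => u ∈ ann H ∧ Y < (u : ZMod q).val),
        ((u : ZMod q).val.divisors.card : ℝ) * rs (u : ZMod q).val + 4 * Y * rs q * Fintype.card (ann H)

lemma card_filter_G (G : Subgroup (ZMod q)ˣ) :
    (univ.filter (fun g : (ZMod q)ˣ => g ∈ G)).card = Fintype.card G := by
  rw [Fintype.card_subtype]

/-- **The mollified first moment over a coset.** -/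
theorem moment_err (H : Subgroup (DirichletCharacter ℂ q)) (χ₀ : DirichletCharacter ℂ q) (Y : ℕ) (hY : 1 ≤ Y)
    (hYq : Y < q) :
    ‖∑ ψ : H, DirichletCharacter.LFunction (χ₀ * (ψ : DirichletCharacter ℂ q)) (1 / 2) * MM q ∅ Y (χ₀ * ψ) - (Fintype.card H : ℂ)‖ ≤
      (Fintype.card H : ℝ) * Er H Y := by
  have h1 : ∑ ψ : H, DirichletCharacter.LFunction (χ₀ * (ψ : DirichletCharacter ℂ q)) (1 / 2) * MM q ∅ Y (χ₀ * ψ) =
      (Fintype.card H : ℂ) * ∑ g ∈ univ.filter (fun g : (ZMod q)ˣ => g ∈ ann H), CC q ∅ Y g * χ₀ (g : ZMod q) := by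
    rw [← coset_G]
    apply Finset.sum_congr rfl
    intro ψ _
    exact LM_Wf Y _
  have h2 : (Fintype.card H : ℂ) = (Fintype.card H : ℂ) *
      ∑ g ∈ univ.filter (fun g : (ZMod q)ˣ => g ∈ ann H), ((CS q ∅ Y g : ℝ) : ℂ) * χ₀ (g : ZMod q) := by
    rw [Finset.sum_eq_single (1 : (ZMod q)ˣ)]
    · rw [CS_empty Y hY, if_pos rfl, Units.val_one, map_one]
      push_cast
      ring
    · intro b _ hb
      rw [CS_empty Y hY, if_neg hb]
      push_cast
      ring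
    · intro h
      exact absurd (mem_filter.2 ⟨mem_univ _, (ann H).one_mem⟩) h
  rw [h1]
  nth_rewrite 2 [h2]
  rw [← mul_sub, ← Finset.sum_sub_distrib, norm_mul, Complex.norm_natCast]
  apply mul_le_mul_of_nonneg_left _ (Nat.cast_nonneg _)
  refine (norm_sum_le _ _).trans ?_
  have h3 : ∀ g ∈ univ.filter (fun g : (ZMod q)ˣ => g ∈ ann H),
      ‖CC q ∅ Y g * χ₀ (g : ZMod q) - ((CS q ∅ Y g : ℝ) : ℂ) * χ₀ (g : ZMod q)‖ ≤
      (if Y < (g : ZMod q).val then ((g : ZMod q).val.divisors.card : ℝ) * rs (g : ZMod q).val else 0) +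
        4 * Y * rs q := by
    intro g _
    rw [← sub_mul, norm_mul]
    refine le_trans ?_ (CC_approx ∅ (fun p hp => absurd hp (notMem_empty p)) Y hYq g)
    calc _ ≤ ‖CC q ∅ Y g - ((CS q ∅ Y g : ℝ) : ℂ)‖ * 1 :=
          mul_le_mul_of_nonneg_left (DirichletCharacter.norm_le_one χ₀ _) (norm_nonneg _)
      _ = _ := mul_one _
  refine (Finset.sum_le_sum h3).trans (le_of_eq ?_)
  rw [Finset.sum_add_distrib, ← Finset.sum_filter, Finset.filter_filter, Finset.sum_const, nsmul_eq_mul,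
    card_filter_G]
  unfold Er
  ring

/-- the second moment over all characters -/
lemma L_second : ∑ χ : DirichletCharacter ℂ q, ‖DirichletCharacter.LFunction χ (1 / 2)‖ ^ 2 ≤
    4 * q * (1 + Real.log q) := by
  have hq : q.Prime := Fact.out
  have : NeZero q := ⟨hq.pos.ne'⟩
  have hq1 : (1 : ℝ) ≤ q := by exact_mod_cast hq.one_lt.le
  have h1 : ∑ χ : DirichletCharacter ℂ q, ‖DirichletCharacter.LFunction χ (1 / 2)‖ ^ 2 =
      ((q : ℝ) - 1) * ∑ g, ‖hzv q g‖ ^ 2 := by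
    rw [← parseval]
    apply Finset.sum_congr rfl
    intro χ _
    rw [L_Wf]
  rw [h1]
  have h2 : ∑ g : (ZMod q)ˣ, ‖hzv q g‖ ^ 2 ≤ 4 * (1 + Real.log q) := by
    have h3 : ∀ g : (ZMod q)ˣ, ‖hzv q g‖ ^ 2 ≤ 4 * (1 / ((g : ZMod q).val : ℝ)) := by
      intro g
      have h4 := hzv_norm g
      have h5 := pow_le_pow_left₀ (norm_nonneg _) h4 2
      refine h5.trans (le_of_eq ?_)
      have hv : (0 : ℝ) ≤ ((g : ZMod q).val : ℝ) := Nat.cast_nonneg _
      rw [mul_pow, ← Real.rpow_natCast (((g : ZMod q).val : ℝ) ^ (-(1 / 2 : ℝ))) 2, ← Real.rpow_mul hv]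
      norm_num
      rw [Real.rpow_neg_one]
    refine (Finset.sum_le_sum (fun g _ => h3 g)).trans ?_
    rw [← Finset.mul_sum]
    apply mul_le_mul_of_nonneg_left _ (by norm_num)
    refine le_trans ?_ (harm_le q hq1 le_rfl)
    have h6 : ∑ g : (ZMod q)ˣ, 1 / ((g : ZMod q).val : ℝ) =
        ∑ n ∈ univ.image (fun g : (ZMod q)ˣ => (g : ZMod q).val), 1 / (n : ℝ) := by
      rw [Finset.sum_image]
      intro u _ v _ huv
      apply Units.ext
      exact ZMod.val_injective q huv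
    rw [h6]
    apply Finset.sum_le_sum_of_subset_of_nonneg
    · intro n hn
      obtain ⟨g, _, rfl⟩ := mem_image.1 hn
      rw [mem_Icc]
      exact ⟨val_pos g, (ZMod.val_lt _).le⟩
    · intro _ _ _; positivity
  have h7 : 0 ≤ ∑ g : (ZMod q)ˣ, ‖hzv q g‖ ^ 2 := Finset.sum_nonneg fun _ _ => by positivity
  calc ((q : ℝ) - 1) * ∑ g : (ZMod q)ˣ, ‖hzv q g‖ ^ 2 ≤ q * (4 * (1 + Real.log q)) :=
        mul_le_mul (by linarith) h2 h7 (by linarith)
    _ = _ := by ring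

/-- the characters of the coset with a value that is not small -/
noncomputable def SS (H : Subgroup (DirichletCharacter ℂ q)) (χ₀ : DirichletCharacter ℂ q) (t : ℝ) : Finset H :=
  univ.filter (fun ψ : H => t ≤ ‖DirichletCharacter.LFunction (χ₀ * (ψ : DirichletCharacter ℂ q)) (1 / 2)‖)

/-- **Many values in the coset are not small.** -/
theorem count_SS (H : Subgroup (DirichletCharacter ℂ q)) (χ₀ : DirichletCharacter ℂ q) (Y : ℕ) (hY : 1 ≤ Y)
    (hYq : Y < q) (t : ℝ) (ht0 : 0 ≤ t) (ht : t * (2 * Real.sqrt Y) ≤ 1 / 4) (hE : Er H Y ≤ 1 / 4) :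
    (Fintype.card H : ℝ) ^ 2 ≤ 64 * Y * (q * (1 + Real.log q)) * (SS H χ₀ t).card := by
  have hq : q.Prime := Fact.out
  have hq1 : (1 : ℝ) ≤ q := by exact_mod_cast hq.one_lt.le
  have hlq : 0 ≤ Real.log q := Real.log_nonneg hq1
  have hH0 : (0 : ℝ) < Fintype.card H := by
    have : 0 < Fintype.card H := Fintype.card_pos
    exact_mod_cast this
  have hY0 : (0 : ℝ) ≤ Y := Nat.cast_nonneg _
  set L : H → ℂ := fun ψ => DirichletCharacter.LFunction (χ₀ * (ψ : DirichletCharacter ℂ q)) (1 / 2) with hL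
  set M : H → ℂ := fun ψ => MM q ∅ Y (χ₀ * ψ) with hM
  have hMn : ∀ ψ, ‖M ψ‖ ≤ 2 * Real.sqrt Y := fun ψ => MM_norm Y _
  have h1 : (3 / 4 : ℝ) * Fintype.card H ≤ ∑ ψ : H, ‖L ψ‖ * ‖M ψ‖ := by
    have h2 := moment_err H χ₀ Y hY hYq
    have h3 : (Fintype.card H : ℝ) - ‖∑ ψ : H, L ψ * M ψ‖ ≤ (Fintype.card H : ℝ) * (1 / 4) := by
      have h4 : (Fintype.card H : ℝ) - ‖∑ ψ : H, L ψ * M ψ‖ ≤ ‖∑ ψ : H, L ψ * M ψ - (Fintype.card H : ℂ)‖ := by
        have := norm_sub_norm_le (Fintype.card H : ℂ) (∑ ψ : H, L ψ * M ψ)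
        rw [Complex.norm_natCast, norm_sub_rev (Fintype.card H : ℂ)] at this
        exact this
      refine h4.trans (h2.trans ?_)
      exact mul_le_mul_of_nonneg_left hE hH0.le
    have h5 : ‖∑ ψ : H, L ψ * M ψ‖ ≤ ∑ ψ : H, ‖L ψ‖ * ‖M ψ‖ := by
      refine (norm_sum_le _ _).trans (le_of_eq ?_)
      apply Finset.sum_congr rfl
      intro ψ _
      rw [norm_mul]
    linarith
  have h2 : ∑ ψ ∈ univ.filter (fun ψ : H => ¬ t ≤ ‖L ψ‖), ‖L ψ‖ * ‖M ψ‖ ≤ (1 / 4 : ℝ) * Fintype.card H := by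
    have h3 : ∀ ψ ∈ univ.filter (fun ψ : H => ¬ t ≤ ‖L ψ‖), ‖L ψ‖ * ‖M ψ‖ ≤ 1 / 4 := by
      intro ψ hψ
      rw [mem_filter, not_le] at hψ
      exact (mul_le_mul hψ.2.le (hMn ψ) (norm_nonneg _) ht0).trans ht
    refine (Finset.sum_le_sum h3).trans ?_
    rw [Finset.sum_const, nsmul_eq_mul, mul_comm]
    apply mul_le_mul_of_nonneg_left _ (by norm_num)
    have := card_le_card (filter_subset (fun ψ : H => ¬ t ≤ ‖L ψ‖) univ)
    rw [card_univ] at this
    exact_mod_cast this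
  have h3 : (1 / 2 : ℝ) * Fintype.card H ≤ ∑ ψ ∈ SS H χ₀ t, ‖L ψ‖ * ‖M ψ‖ := by
    have h4 := Finset.sum_filter_add_sum_filter_not univ (fun ψ : H => t ≤ ‖L ψ‖) (fun ψ => ‖L ψ‖ * ‖M ψ‖)
    have h5 : SS H χ₀ t = univ.filter (fun ψ : H => t ≤ ‖L ψ‖) := rfl
    rw [h5]
    linarith
  have h4 : ∑ ψ ∈ SS H χ₀ t, ‖L ψ‖ * ‖M ψ‖ ≤ 2 * Real.sqrt Y * ∑ ψ ∈ SS H χ₀ t, ‖L ψ‖ := by
    rw [Finset.mul_sum]
    apply Finset.sum_le_sum
    intro ψ _
    rw [mul_comm]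
    exact mul_le_mul_of_nonneg_right (hMn ψ) (norm_nonneg _)
  have h5 : (∑ ψ ∈ SS H χ₀ t, ‖L ψ‖) ^ 2 ≤ (SS H χ₀ t).card * (4 * q * (1 + Real.log q)) := by
    refine sq_sum_le_card_mul_sum_sq.trans ?_
    apply mul_le_mul_of_nonneg_left _ (Nat.cast_nonneg _)
    refine le_trans ?_ L_second
    have h6 : ∑ ψ ∈ SS H χ₀ t, ‖L ψ‖ ^ 2 = ∑ χ ∈ (SS H χ₀ t).image (fun ψ : H => χ₀ * (ψ : DirichletCharacter ℂ q)),
        ‖DirichletCharacter.LFunction χ (1 / 2)‖ ^ 2 := by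
      rw [Finset.sum_image (fun u _ v _ huv => Subtype.ext (mul_left_cancel huv))]
    rw [h6]
    exact Finset.sum_le_sum_of_subset_of_nonneg (subset_univ _) (fun _ _ _ => by positivity)
  set A : ℝ := ∑ ψ ∈ SS H χ₀ t, ‖L ψ‖ with hA
  have hA0 : 0 ≤ A := Finset.sum_nonneg fun _ _ => norm_nonneg _
  have h7 : (1 / 2 : ℝ) * Fintype.card H ≤ 2 * Real.sqrt Y * A := h3.trans h4
  have h8 : ((1 / 2 : ℝ) * Fintype.card H) ^ 2 ≤ (2 * Real.sqrt Y * A) ^ 2 :=
    pow_le_pow_left₀ (by positivity) h7 2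
  have h9 : (2 * Real.sqrt Y * A) ^ 2 = 4 * Y * A ^ 2 := by
    rw [mul_pow, mul_pow, Real.sq_sqrt hY0]; ring
  rw [h9] at h8
  have h10 : 4 * Y * A ^ 2 ≤ 4 * Y * ((SS H χ₀ t).card * (4 * q * (1 + Real.log q))) :=
    mul_le_mul_of_nonneg_left h5 (by positivity)
  calc (Fintype.card H : ℝ) ^ 2 = 4 * ((1 / 2 : ℝ) * Fintype.card H) ^ 2 := by ring
    _ ≤ 4 * (4 * Y * ((SS H χ₀ t).card * (4 * q * (1 + Real.log q)))) := by linarith
    _ = _ := by ring

end Pool.Agent.K4H2.EC
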