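import Mathlib
import Pool.Agent.K4H2.EC.C

/-! Choice of the parameters; the first moment over a coset. -/

set_option autoImplicit false

namespace Pool.Agent.K4H2.EC
open Finset Pool.Agent.R311.RES Pool.Agent.K4H49.AC Filter Topology
open scoped Classical

lemma rs_rpow (q : ℕ) : rs q = (q : ℝ) ^ (-(1 / 2 : ℝ)) := by
  rw [Real.rpow_neg (Nat.cast_nonneg q), ← Real.sqrt_eq_rpow]
  rfl

/-- the order of the annihilator -/
lemma ann_le {q : ℕ} [Fact q.Prime] (H : Subgroup (DirichletCharacter ℂ q)) {β c μ : ℝ} (hc : 0 < c)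
    (hμ : μ = (β - 2 / 3) / 2) (hH : c * (q : ℝ) ^ β ≤ (Nat.card H : ℝ)) (hq : 1 / c ≤ (q : ℝ) ^ μ) :
    (Fintype.card (ann H) : ℝ) ≤ (q : ℝ) ^ (1 / 3 - μ) := by
  have hq0 : (0 : ℝ) < q := by exact_mod_cast (Nat.Prime.pos Fact.out : 0 < q)
  rw [Nat.card_eq_fintype_card] at hH
  have h1 := card_mul H
  have h2 : c * (q : ℝ) ^ β * (Fintype.card (ann H) : ℝ) ≤ q := by
    have := mul_le_mul_of_nonneg_right hH (Nat.cast_nonneg (α := ℝ) (Fintype.card (ann H)))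
    linarith
  have hp : 0 < (q : ℝ) ^ β := Real.rpow_pos_of_pos hq0 _
  have hm : 0 < (q : ℝ) ^ μ := Real.rpow_pos_of_pos hq0 _
  have h3 : (q : ℝ) = (q : ℝ) ^ β * ((q : ℝ) ^ (1 / 3 - μ) * ((q : ℝ) ^ μ)⁻¹) := by
    rw [← Real.rpow_neg hq0.le, ← Real.rpow_add hq0, ← Real.rpow_add hq0]
    rw [show β + (1 / 3 - μ + -μ) = (1 : ℝ) by rw [hμ]; ring, Real.rpow_one]
  have h4 : ((q : ℝ) ^ μ)⁻¹ ≤ c := by
    rw [inv_le_comm₀ hm hc, ← one_div]
    exact hq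
  have h5 : c * (q : ℝ) ^ β * (Fintype.card (ann H) : ℝ) ≤ c * (q : ℝ) ^ β * (q : ℝ) ^ (1 / 3 - μ) := by
    refine h2.trans ?_
    calc (q : ℝ) = (q : ℝ) ^ β * ((q : ℝ) ^ (1 / 3 - μ) * ((q : ℝ) ^ μ)⁻¹) := h3
      _ ≤ (q : ℝ) ^ β * ((q : ℝ) ^ (1 / 3 - μ) * c) := by
          apply mul_le_mul_of_nonneg_left _ hp.le
          exact mul_le_mul_of_nonneg_left h4 (by positivity)
      _ = _ := by ring
  exact le_of_mul_le_mul_left h5 (by positivity)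

/-- **Nonvanishing in every coset.** -/
theorem nonvanishing (β c ε : ℝ) (hβ : 2 / 3 < β) (hc : 0 < c) (hε : 0 < ε) : ∃ q₀ : ℕ,
    ∀ (q : ℕ) [Fact q.Prime], q₀ ≤ q → ∀ (H : Subgroup (DirichletCharacter ℂ q)) (χ₀ : DirichletCharacter ℂ q),
      c * (q : ℝ) ^ β ≤ (Nat.card H : ℝ) →
      (q : ℝ) ^ (2 * β - 1 - ε) ≤ (SS H χ₀ ((q : ℝ) ^ (-ε))).card := by
  set μ : ℝ := (β - 2 / 3) / 2 with hμ
  have hμ0 : 0 < μ := by rw [hμ]; linarith
  set η : ℝ := min (ε / 2) (1 / 12) with hη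
  have hη0 : 0 < η := lt_min (by positivity) (by norm_num)
  have hηε : η ≤ ε / 2 := min_le_left _ _
  have hη12 : η ≤ 1 / 12 := min_le_right _ _
  obtain ⟨ε₁, hε₁, -, q₁, hfew⟩ := few_G μ η hμ0 hη0
  have t1 : ∀ a : ℝ, 0 < a → ∀ b : ℝ, ∀ᶠ q : ℕ in atTop, b ≤ (q : ℝ) ^ a := fun a ha b =>
    ((tendsto_rpow_atTop ha).comp tendsto_natCast_atTop_atTop).eventually_ge_atTop b
  set C : ℝ := max (64 / c ^ 2) 1 with hC
  have hC0 : 0 < C := lt_max_of_lt_right one_pos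
  have t2 : ∀ᶠ q : ℕ in atTop, C * (1 + C * Real.log (q : ℝ)) ≤ (q : ℝ) ^ (ε / 2) :=
    tendsto_natCast_atTop_atTop.eventually (ev_log_small C (ε / 2) (by positivity))
  obtain ⟨q₂, hq₂⟩ := eventually_atTop.1 ((t1 μ hμ0 (1 / c)).and ((t1 ε₁ hε₁ 8).and ((t1 (1 / 12) (by norm_num) 32).and
    ((t1 (ε / 2) (by positivity) 8).and ((t1 η hη0 2).and t2)))))
  refine ⟨max 3 (max q₁ q₂), fun q _ hqq H χ₀ hH => ?_⟩
  have hq : q.Prime := Fact.out
  have hq3 : 3 ≤ q := (le_max_left _ _).trans hqq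
  obtain ⟨a1, a2, a3, a4, a5, a6⟩ := hq₂ q ((le_max_right _ _).trans ((le_max_right _ _).trans hqq))
  have hq0 : (0 : ℝ) < q := by exact_mod_cast hq.pos
  have hq1 : (1 : ℝ) < q := by exact_mod_cast hq.one_lt
  have hlq : 0 ≤ Real.log q := Real.log_nonneg hq1.le
  have hG := ann_le H hc hμ hH a1
  have hqη : 0 < (q : ℝ) ^ η := Real.rpow_pos_of_pos hq0 _
  set Y : ℕ := ⌊(q : ℝ) ^ η⌋₊ with hY
  have hYle : (Y : ℝ) ≤ (q : ℝ) ^ η := Nat.floor_le hqη.le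
  have hYge : (q : ℝ) ^ η / 2 ≤ Y := by
    have := Nat.lt_floor_add_one ((q : ℝ) ^ η)
    rw [← hY] at this
    linarith
  have hY1 : 1 ≤ Y := Nat.le_floor (by push_cast; linarith)
  have hYq : Y < q := by
    have : (Y : ℝ) < q := by
      refine lt_of_le_of_lt hYle ?_
      calc (q : ℝ) ^ η < (q : ℝ) ^ (1 : ℝ) := Real.rpow_lt_rpow_of_exponent_lt hq1 (by linarith)
        _ = q := Real.rpow_one _
    exact_mod_cast this
  have hinv : ∀ {a b : ℝ}, 0 < b → b ≤ (q : ℝ) ^ a → (q : ℝ) ^ (-a) ≤ 1 / b := by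
    intro a b hb h
    rw [Real.rpow_neg hq0.le, one_div]
    exact inv_anti₀ hb h
  have hE : Er H Y ≤ 1 / 4 := by
    unfold Er
    have h1 := hfew q ((le_max_left _ _).trans ((le_max_right _ _).trans hqq)) (ann H) hG Y hYge
    have h2 : (q : ℝ) ^ (-ε₁) ≤ 1 / 8 := hinv (by norm_num) a2
    have h3 : 4 * (Y : ℝ) * rs q * Fintype.card (ann H) ≤ 1 / 8 := by
      rw [rs_rpow]
      calc 4 * (Y : ℝ) * (q : ℝ) ^ (-(1 / 2 : ℝ)) * Fintype.card (ann H) ≤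
            4 * (q : ℝ) ^ η * (q : ℝ) ^ (-(1 / 2 : ℝ)) * (q : ℝ) ^ (1 / 3 - μ) := by
            apply mul_le_mul _ hG (Nat.cast_nonneg _) (by positivity)
            apply mul_le_mul_of_nonneg_right _ (by positivity)
            linarith
        _ = 4 * (q : ℝ) ^ (η - 1 / 6 - μ) := by
            rw [mul_assoc, mul_assoc, ← Real.rpow_add hq0, ← Real.rpow_add hq0]
            congr 2; ring
        _ ≤ 4 * (q : ℝ) ^ (-(1 / 12 : ℝ)) := by
            apply mul_le_mul_of_nonneg_left _ (by norm_num)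
            exact Real.rpow_le_rpow_of_exponent_le hq1.le (by linarith)
        _ ≤ 4 * (1 / 32) := by
            apply mul_le_mul_of_nonneg_left _ (by norm_num)
            exact hinv (by norm_num) a3
        _ = 1 / 8 := by norm_num
    linarith
  have ht0 : 0 ≤ (q : ℝ) ^ (-ε) := by positivity
  have ht : (q : ℝ) ^ (-ε) * (2 * Real.sqrt Y) ≤ 1 / 4 := by
    have h1 : Real.sqrt Y ≤ (q : ℝ) ^ (ε / 2) := by
      rw [Real.sqrt_le_left (by positivity)]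
      refine hYle.trans ?_
      rw [← Real.rpow_natCast ((q : ℝ) ^ (ε / 2)) 2, ← Real.rpow_mul hq0.le]
      apply Real.rpow_le_rpow_of_exponent_le hq1.le
      push_cast
      linarith
    have h2 : (q : ℝ) ^ (-ε) * (2 * Real.sqrt Y) ≤ (q : ℝ) ^ (-ε) * (2 * (q : ℝ) ^ (ε / 2)) :=
      mul_le_mul_of_nonneg_left (by linarith) ht0
    refine h2.trans ?_
    have h3 : (q : ℝ) ^ (-ε) * (2 * (q : ℝ) ^ (ε / 2)) = 2 * (q : ℝ) ^ (-(ε / 2)) := by
      rw [mul_left_comm, ← Real.rpow_add hq0]; congr 2; ring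
    rw [h3]
    have h4 : (q : ℝ) ^ (-(ε / 2)) ≤ 1 / 8 := hinv (by norm_num) a4
    linarith
  have hmain := count_SS H χ₀ Y hY1 hYq _ ht0 ht hE
  rw [Nat.card_eq_fintype_card] at hH
  have hqβ : 0 < (q : ℝ) ^ β := Real.rpow_pos_of_pos hq0 _
  have h1 : (c * (q : ℝ) ^ β) ^ 2 ≤ (Fintype.card H : ℝ) ^ 2 := pow_le_pow_left₀ (by positivity) hH 2
  have h2 : 64 * (Y : ℝ) * (q * (1 + Real.log q)) ≤ c ^ 2 * (q : ℝ) ^ (1 + ε) := by
    have h3 : 64 * (1 + Real.log q) ≤ c ^ 2 * (q : ℝ) ^ (ε / 2) := by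
      have h4 : 64 / c ^ 2 * (1 + 1 * Real.log q) ≤ C * (1 + C * Real.log q) := by
        apply mul_le_mul (le_max_left _ _) _ (by positivity) hC0.le
        have := mul_le_mul_of_nonneg_right (show (1 : ℝ) ≤ C from le_max_right _ _) hlq
        linarith
      have h5 := h4.trans a6
      rw [one_mul, div_mul_eq_mul_div, div_le_iff₀ (by positivity)] at h5
      linarith
    have h6 : (q : ℝ) ^ (1 + ε) = (q : ℝ) ^ (ε / 2) * q * (q : ℝ) ^ (ε / 2) := by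
      rw [show 1 + ε = ε / 2 + 1 + ε / 2 by ring, Real.rpow_add hq0, Real.rpow_add hq0, Real.rpow_one]
    have h7 : (Y : ℝ) ≤ (q : ℝ) ^ (ε / 2) := hYle.trans (Real.rpow_le_rpow_of_exponent_le hq1.le hηε)
    calc 64 * (Y : ℝ) * (q * (1 + Real.log q)) = (64 * (1 + Real.log q)) * q * Y := by ring
      _ ≤ (c ^ 2 * (q : ℝ) ^ (ε / 2)) * q * (q : ℝ) ^ (ε / 2) := by
          apply mul_le_mul _ h7 (Nat.cast_nonneg _) (by positivity)
          exact mul_le_mul_of_nonneg_right h3 hq0.le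
      _ = _ := by rw [h6]; ring
  set S : ℝ := ((SS H χ₀ ((q : ℝ) ^ (-ε))).card : ℝ) with hS
  have hS0 : 0 ≤ S := Nat.cast_nonneg _
  have h3 : (c * (q : ℝ) ^ β) ^ 2 ≤ c ^ 2 * (q : ℝ) ^ (1 + ε) * S :=
    h1.trans (hmain.trans (mul_le_mul_of_nonneg_right h2 hS0))
  have h4 : (c * (q : ℝ) ^ β) ^ 2 = c ^ 2 * (q : ℝ) ^ (1 + ε) * (q : ℝ) ^ (2 * β - 1 - ε) := by
    rw [mul_pow, ← Real.rpow_natCast ((q : ℝ) ^ β) 2, ← Real.rpow_mul hq0.le, mul_assoc, ← Real.rpow_add hq0]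
    congr 2
    push_cast
    ring
  rw [h4] at h3
  exact le_of_mul_le_mul_left h3 (by positivity)

variable {q : ℕ} [Fact q.Prime]

/-- **The first moment over a coset**, for a given length. -/
theorem first_err (H : Subgroup (DirichletCharacter ℂ q)) (χ₀ : DirichletCharacter ℂ q) (N : ℕ) (hN : N < q) :
    ‖(Fintype.card H : ℂ)⁻¹ * ∑ ψ : H, DirichletCharacter.LFunction (χ₀ * (ψ : DirichletCharacter ℂ q)) (1 / 2) -
      ∑ n ∈ (Icc 1 N).filter (fun n : ℕ => ∀ ψ ∈ H, ψ (n : ZMod q) = 1), χ₀ (n : ZMod q) / (Real.sqrt n : ℂ)‖ ≤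
      ∑ u ∈ univ.filter (fun u : (ZMod q)ˣ => u ∈ ann H ∧ N < (u : ZMod q).val),
        ((u : ZMod q).val.divisors.card : ℝ) * rs (u : ZMod q).val + 3 * rs q * Fintype.card (ann H) := by
  have hq : q.Prime := Fact.out
  have : NeZero q := ⟨hq.pos.ne'⟩
  have hH0 : (Fintype.card H : ℂ) ≠ 0 := by
    have : 0 < Fintype.card H := Fintype.card_pos
    exact_mod_cast this.ne'
  have h1 : (Fintype.card H : ℂ)⁻¹ * ∑ ψ : H, DirichletCharacter.LFunction (χ₀ * (ψ : DirichletCharacter ℂ q)) (1 / 2) =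
      ∑ g ∈ univ.filter (fun g : (ZMod q)ˣ => g ∈ ann H), hzv q g * χ₀ (g : ZMod q) := by
    rw [Finset.sum_congr rfl (fun (ψ : H) _ => L_Wf (χ₀ * (ψ : DirichletCharacter ℂ q))), coset_G, ← mul_assoc,
      inv_mul_cancel₀ hH0, one_mul]
  have hcop : ∀ u : (ZMod q)ˣ, ((u : ZMod q).val).Coprime q := fun u => cop_of_lt (val_pos u) (ZMod.val_lt _)
  have h2 : ∑ n ∈ (Icc 1 N).filter (fun n : ℕ => ∀ ψ ∈ H, ψ (n : ZMod q) = 1), χ₀ (n : ZMod q) / (Real.sqrt n : ℂ) =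
      ∑ g ∈ univ.filter (fun g : (ZMod q)ˣ => g ∈ ann H), (if (g : ZMod q).val ≤ N then
        ((rs (g : ZMod q).val : ℝ) : ℂ) * χ₀ (g : ZMod q) else 0) := by
    rw [← Finset.sum_filter]
    symm
    refine Finset.sum_bij' (fun g _ => (g : ZMod q).val) (fun n _ => un q n) ?_ ?_ ?_ ?_ ?_
    · intro g hg
      rw [mem_filter, mem_filter] at hg
      rw [mem_filter, mem_Icc]
      refine ⟨⟨val_pos g, hg.2⟩, fun ψ hψ => ?_⟩
      rw [ZMod.natCast_zmod_val]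
      exact hg.1.2 ψ hψ
    · intro n hn
      rw [mem_filter, mem_Icc] at hn
      have hc : n.Coprime q := cop_of_lt (by omega) (lt_of_le_of_lt hn.1.2 hN)
      rw [mem_filter, mem_filter]
      refine ⟨⟨mem_univ _, fun ψ hψ => ?_⟩, ?_⟩
      · rw [un_val hc]
        exact hn.2 ψ hψ
      · rw [un_val hc, ZMod.val_natCast, Nat.mod_eq_of_lt (lt_of_le_of_lt hn.1.2 hN)]
        exact hn.1.2
    · intro g _
      apply Units.ext
      rw [un_val (hcop g), ZMod.natCast_zmod_val]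
    · intro n hn
      rw [mem_filter, mem_Icc] at hn
      have hc : n.Coprime q := cop_of_lt (by omega) (lt_of_le_of_lt hn.1.2 hN)
      rw [un_val hc, ZMod.val_natCast, Nat.mod_eq_of_lt (lt_of_le_of_lt hn.1.2 hN)]
    · intro g _
      rw [ZMod.natCast_zmod_val]
      unfold rs
      push_cast
      ring
  rw [h1, h2, ← Finset.sum_sub_distrib]
  refine (norm_sum_le _ _).trans ?_
  have h3 : ∀ g ∈ univ.filter (fun g : (ZMod q)ˣ => g ∈ ann H),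
      ‖hzv q g * χ₀ (g : ZMod q) - (if (g : ZMod q).val ≤ N then
        ((rs (g : ZMod q).val : ℝ) : ℂ) * χ₀ (g : ZMod q) else 0)‖ ≤
      (if N < (g : ZMod q).val then ((g : ZMod q).val.divisors.card : ℝ) * rs (g : ZMod q).val else 0) +
        3 * rs q := by
    intro g _
    have hr := hzv_rs g
    have hχ := DirichletCharacter.norm_le_one χ₀ (g : ZMod q)
    by_cases hg : (g : ZMod q).val ≤ N
    · rw [if_pos hg, if_neg (not_lt.2 hg), zero_add, ← sub_mul, norm_mul]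
      calc _ ≤ ‖hzv q g - ((rs (g : ZMod q).val : ℝ) : ℂ)‖ * 1 := mul_le_mul_of_nonneg_left hχ (norm_nonneg _)
        _ ≤ _ := by rw [mul_one]; exact hr
    · rw [if_neg hg, if_pos (not_le.1 hg), sub_zero, norm_mul]
      have h4 : ‖hzv q g‖ ≤ rs (g : ZMod q).val + 3 * rs q := by
        have h5 := norm_le_norm_sub_add (hzv q g) ((rs (g : ZMod q).val : ℝ) : ℂ)
        rw [Complex.norm_real, Real.norm_eq_abs, abs_of_nonneg (rs_nonneg _)] at h5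
        linarith
      have h6 : (1 : ℝ) ≤ ((g : ZMod q).val.divisors.card : ℝ) := by
        have : 1 ≤ (g : ZMod q).val.divisors.card :=
          Finset.card_pos.2 ⟨1, Nat.one_mem_divisors.2 (val_pos g).ne'⟩
        exact_mod_cast this
      have h7 := mul_le_mul_of_nonneg_right h6 (rs_nonneg (g : ZMod q).val)
      rw [one_mul] at h7
      calc ‖hzv q g‖ * ‖χ₀ (g : ZMod q)‖ ≤ ‖hzv q g‖ * 1 := mul_le_mul_of_nonneg_left hχ (norm_nonneg _)
        _ ≤ _ := by rw [mul_one]; linarith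
  refine (Finset.sum_le_sum h3).trans (le_of_eq ?_)
  rw [Finset.sum_add_distrib, ← Finset.sum_filter, Finset.filter_filter, Finset.sum_const, nsmul_eq_mul,
    card_filter_G]
  ring

/-- **The first moment over every coset.** -/
theorem first_moment (β c η : ℝ) (hβ : 2 / 3 < β) (hc : 0 < c) (hη : 0 < η) (hη1 : η < 1) :
    ∃ ε₁ : ℝ, 0 < ε₁ ∧ ∃ q₀ : ℕ, ∀ (q : ℕ) [Fact q.Prime], q₀ ≤ q →
      ∀ (H : Subgroup (DirichletCharacter ℂ q)) (χ₀ : DirichletCharacter ℂ q), c * (q : ℝ) ^ β ≤ (Nat.card H : ℝ) →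
      ‖(Fintype.card H : ℂ)⁻¹ * ∑ ψ : H, DirichletCharacter.LFunction (χ₀ * (ψ : DirichletCharacter ℂ q)) (1 / 2) -
        ∑ n ∈ (Icc 1 ⌊(q : ℝ) ^ η⌋₊).filter (fun n : ℕ => ∀ ψ ∈ H, ψ (n : ZMod q) = 1),
          χ₀ (n : ZMod q) / (Real.sqrt n : ℂ)‖ ≤ (q : ℝ) ^ (-ε₁) := by
  set μ : ℝ := (β - 2 / 3) / 2 with hμ
  have hμ0 : 0 < μ := by rw [hμ]; linarith
  obtain ⟨ε₁, hε₁, hε₂, q₁, hfew⟩ := few_G μ η hμ0 hη
  have t1 : ∀ a : ℝ, 0 < a → ∀ b : ℝ, ∀ᶠ q : ℕ in atTop, b ≤ (q : ℝ) ^ a := fun a ha b =>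
    ((tendsto_rpow_atTop ha).comp tendsto_natCast_atTop_atTop).eventually_ge_atTop b
  obtain ⟨q₂, hq₂⟩ := eventually_atTop.1 ((t1 μ hμ0 (1 / c)).and ((t1 (ε₁ / 2) (by positivity) 4).and (t1 η hη 2)))
  refine ⟨ε₁ / 2, by positivity, max 3 (max q₁ q₂), fun q _ hqq H χ₀ hH => ?_⟩
  have hq : q.Prime := Fact.out
  obtain ⟨a1, a2, a5⟩ := hq₂ q ((le_max_right _ _).trans ((le_max_right _ _).trans hqq))
  have hq0 : (0 : ℝ) < q := by exact_mod_cast hq.pos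
  have hq1 : (1 : ℝ) < q := by exact_mod_cast hq.one_lt
  have hG := ann_le H hc hμ hH a1
  have hqη : 0 < (q : ℝ) ^ η := Real.rpow_pos_of_pos hq0 _
  set N : ℕ := ⌊(q : ℝ) ^ η⌋₊ with hN
  have hNle : (N : ℝ) ≤ (q : ℝ) ^ η := Nat.floor_le hqη.le
  have hNge : (q : ℝ) ^ η / 2 ≤ N := by
    have := Nat.lt_floor_add_one ((q : ℝ) ^ η)
    rw [← hN] at this
    linarith
  have hNq : N < q := by
    have : (N : ℝ) < q := by
      refine lt_of_le_of_lt hNle ?_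
      calc (q : ℝ) ^ η < (q : ℝ) ^ (1 : ℝ) := Real.rpow_lt_rpow_of_exponent_lt hq1 (by linarith)
        _ = q := Real.rpow_one _
    exact_mod_cast this
  refine (first_err H χ₀ N hNq).trans ?_
  have h1 := hfew q ((le_max_left _ _).trans ((le_max_right _ _).trans hqq)) (ann H) hG N hNge
  have h3 : 3 * rs q * Fintype.card (ann H) ≤ 3 * (q : ℝ) ^ (-ε₁) := by
    rw [rs_rpow]
    calc 3 * (q : ℝ) ^ (-(1 / 2 : ℝ)) * Fintype.card (ann H) ≤
          3 * (q : ℝ) ^ (-(1 / 2 : ℝ)) * (q : ℝ) ^ (1 / 3 - μ) :=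
          mul_le_mul_of_nonneg_left hG (by positivity)
      _ = 3 * (q : ℝ) ^ (- 1 / 6 - μ) := by
          rw [mul_assoc, ← Real.rpow_add hq0]
          congr 2; ring
      _ ≤ 3 * (q : ℝ) ^ (-ε₁) := by
          apply mul_le_mul_of_nonneg_left _ (by norm_num)
          exact Real.rpow_le_rpow_of_exponent_le hq1.le (by linarith)
  have h4 : (q : ℝ) ^ (-(ε₁ / 2)) = (q : ℝ) ^ (ε₁ / 2) * (q : ℝ) ^ (-ε₁) := by
    rw [← Real.rpow_add hq0]; congr 1; ring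
  have h5 : 0 < (q : ℝ) ^ (-ε₁) := Real.rpow_pos_of_pos hq0 _
  rw [h4]
  calc _ ≤ (q : ℝ) ^ (-ε₁) + 3 * (q : ℝ) ^ (-ε₁) := add_le_add h1 h3
    _ = 4 * (q : ℝ) ^ (-ε₁) := by ring
    _ ≤ _ := mul_le_mul_of_nonneg_right a2 h5.le

end Pool.Agent.K4H2.EC
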