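import Mathlib
import Pool.Agent.K4H20.TC.T1

/-! Weighted sums over the relations in a coset of a subgroup of the residue classes, with separate bounds for
numerators and denominators (after `Pool.Agent.K4H20.TC.rel_sum`). -/

set_option autoImplicit false

namespace Pool.Agent.K4H2.EC
open Finset Pool.Agent.R311.RES Pool.Agent.K4H49.AC Pool.Agent.K4H20.TC
open scoped Classical

variable {q : ℕ} [Fact q.Prime]

/-- **Weighted sums over the relations in a coset.** -/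
theorem rel_sum2 (G : Subgroup (ZMod q)ˣ) (c : (ZMod q)ˣ) (R : Finset (ℕ × ℕ)) (w : ℕ × ℕ → ℝ) (hw : ∀ z ∈ R, 0 ≤ w z)
    (hpos : ∀ z ∈ R, 0 < z.1 ∧ 0 < z.2) (hcop : ∀ z ∈ R, Nat.Coprime z.1 z.2)
    (hG : ∀ z ∈ R, c⁻¹ * (un q z.1 * (un q z.2)⁻¹) ∈ G)
    (X₁ X₂ l : ℕ) (hl : 1 ≤ l) (hX : ∀ z ∈ R, z.1 ≤ X₁ ∧ z.2 ≤ X₂) (hXq : X₁ ^ l * X₂ ^ l < q)
    (M : ℝ) (hM0 : 0 ≤ M) (hM : ∀ z ∈ R, w z * (2 * l : ℝ) ^ (ArithmeticFunction.cardFactors z.1 +
      ArithmeticFunction.cardFactors z.2) ≤ M) :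
    (∑ z ∈ R, w z) ^ l ≤ (Fintype.card G : ℝ) * M ^ l := by
  obtain ⟨C, hC⟩ := coloring R w hcop
  set S := R.filter (fun z => z.1.primeFactors ⊆ C ∧ Disjoint z.2.primeFactors C) with hS
  set w' : ℕ × ℕ → ℝ := fun z => (2 : ℝ) ^ (z.1.primeFactors.card + z.2.primeFactors.card) * w z with hw'
  have hSR : ∀ z ∈ S, z ∈ R := fun z hz => (mem_filter.1 hz).1
  have hw'0 : ∀ z ∈ S, 0 ≤ w' z := fun z hz => mul_nonneg (by positivity) (hw z (hSR z hz))
  have hlr : (0 : ℝ) < l := by exact_mod_cast hl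
  -- the weights
  have hw'M : ∀ z ∈ S, w' z * (l : ℝ) ^ (ArithmeticFunction.cardFactors z.1 +
      ArithmeticFunction.cardFactors z.2) ≤ M := by
    intro z hz
    refine le_trans ?_ (hM z (hSR z hz))
    rw [mul_pow, hw']
    have h1 : (2 : ℝ) ^ (z.1.primeFactors.card + z.2.primeFactors.card) ≤
        2 ^ (ArithmeticFunction.cardFactors z.1 + ArithmeticFunction.cardFactors z.2) := by
      apply pow_le_pow_right₀ (by norm_num)
      apply add_le_add
      · rw [ArithmeticFunction.cardFactors_apply]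
        exact List.toFinset_card_le _
      · rw [ArithmeticFunction.cardFactors_apply]
        exact List.toFinset_card_le _
    have h2 := hw z (hSR z hz)
    calc (2 : ℝ) ^ (z.1.primeFactors.card + z.2.primeFactors.card) * w z *
        (l : ℝ) ^ (ArithmeticFunction.cardFactors z.1 + ArithmeticFunction.cardFactors z.2) ≤
        2 ^ (ArithmeticFunction.cardFactors z.1 + ArithmeticFunction.cardFactors z.2) * w z *
        (l : ℝ) ^ (ArithmeticFunction.cardFactors z.1 + ArithmeticFunction.cardFactors z.2) := by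
          apply mul_le_mul_of_nonneg_right _ (by positivity)
          exact mul_le_mul_of_nonneg_right h1 h2
      _ = _ := by ring
  have hsum0 : 0 ≤ ∑ z ∈ R, w z := Finset.sum_nonneg hw
  refine (pow_le_pow_left₀ hsum0 hC l).trans ?_
  set P := Fintype.piFinset (fun _ : Fin l => S) with hP
  have e1 : (∑ z ∈ S, w' z) ^ l = ∑ t ∈ P, ∏ i : Fin l, w' (t i) := by
    rw [hP, ← Finset.prod_univ_sum (fun _ : Fin l => S) (fun _ z => w' z), Finset.prod_const,
      card_univ, Fintype.card_fin]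
  rw [e1]
  set Φ : (Fin l → ℕ × ℕ) → (ZMod q)ˣ := fun t => ∏ i, (c⁻¹ * (un q (t i).1 * (un q (t i).2)⁻¹)) with hΦ
  have hmaps : ∀ t ∈ P, Φ t ∈ (univ.filter (fun g : (ZMod q)ˣ => g ∈ G)) := by
    intro t ht
    rw [mem_filter]
    refine ⟨mem_univ _, Subgroup.prod_mem _ fun i _ => hG _ (hSR _ (Fintype.mem_piFinset.1 ht i))⟩
  rw [← Finset.sum_fiberwise_of_maps_to hmaps]
  have hcardG : ((univ.filter (fun g : (ZMod q)ˣ => g ∈ G)).card : ℝ) = Fintype.card G := by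
    rw [Fintype.card_subtype]
  rw [← hcardG, ← nsmul_eq_mul, ← Finset.sum_const]
  apply Finset.sum_le_sum
  intro g _
  set F := P.filter (fun t => Φ t = g) with hF
  rcases F.eq_empty_or_nonempty with h0 | ⟨t₀, ht₀⟩
  · rw [h0, Finset.sum_empty]
    exact pow_nonneg hM0 _
  -- sizes
  have hXpos : 0 < X₁ ∧ 0 < X₂ := by
    have h1 := hSR _ (Fintype.mem_piFinset.1 (mem_filter.1 ht₀).1 ⟨0, by omega⟩)
    exact ⟨lt_of_lt_of_le (hpos _ h1).1 (hX _ h1).1, lt_of_lt_of_le (hpos _ h1).2 (hX _ h1).2⟩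
  have hlt : X₁ ^ l < q := lt_of_le_of_lt (Nat.le_mul_of_pos_right _ (Nat.pow_pos hXpos.2)) hXq
  have hlt2 : X₂ ^ l < q := lt_of_le_of_lt (Nat.le_mul_of_pos_left _ (Nat.pow_pos hXpos.1)) hXq
  have hbd : ∀ t ∈ P, ∀ i, (0 < (t i).1 ∧ (t i).1 ≤ X₁ ∧ (t i).1.Coprime q) ∧
      (0 < (t i).2 ∧ (t i).2 ≤ X₂ ∧ (t i).2.Coprime q) := by
    intro t ht i
    have h1 := hSR _ (Fintype.mem_piFinset.1 ht i)
    have hXX : X₁ < q := by
      calc X₁ = X₁ ^ 1 := (pow_one X₁).symm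
        _ ≤ X₁ ^ l := Nat.pow_le_pow_right hXpos.1 hl
        _ < q := hlt
    have hXX2 : X₂ < q := by
      calc X₂ = X₂ ^ 1 := (pow_one X₂).symm
        _ ≤ X₂ ^ l := Nat.pow_le_pow_right hXpos.2 hl
        _ < q := hlt2
    exact ⟨⟨(hpos _ h1).1, (hX _ h1).1, cop_of_lt (hpos _ h1).1 (lt_of_le_of_lt (hX _ h1).1 hXX)⟩,
      ⟨(hpos _ h1).2, (hX _ h1).2, cop_of_lt (hpos _ h1).2 (lt_of_le_of_lt (hX _ h1).2 hXX2)⟩⟩
  have hXl : ∀ X : ℕ, ∏ _i : Fin l, X = X ^ l := by intro X; rw [Finset.prod_const, card_univ, Fintype.card_fin]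
  have hpr : ∀ t ∈ P, (0 < ∏ i, (t i).1 ∧ ∏ i, (t i).1 ≤ X₁ ^ l) ∧ (0 < ∏ i, (t i).2 ∧ ∏ i, (t i).2 ≤ X₂ ^ l) ∧
      Nat.Coprime (∏ i, (t i).1) (∏ i, (t i).2) ∧
      Φ t = (c⁻¹) ^ l * (un q (∏ i, (t i).1) * (un q (∏ i, (t i).2))⁻¹) := by
    intro t ht
    refine ⟨⟨Finset.prod_pos fun i _ => (hbd t ht i).1.1, ?_⟩, ⟨Finset.prod_pos fun i _ => (hbd t ht i).2.1, ?_⟩, ?_, ?_⟩
    · rw [← hXl]; exact Finset.prod_le_prod' fun i _ => (hbd t ht i).1.2.1
    · rw [← hXl]; exact Finset.prod_le_prod' fun i _ => (hbd t ht i).2.2.1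
    · apply Nat.Coprime.prod_left
      intro i _
      apply Nat.Coprime.prod_right
      intro i' _
      have hi := (mem_filter.1 (Fintype.mem_piFinset.1 ht i)).2
      have hi' := (mem_filter.1 (Fintype.mem_piFinset.1 ht i')).2
      rw [← Nat.disjoint_primeFactors (hbd t ht i).1.1.ne' (hbd t ht i').2.1.ne']
      rw [Finset.disjoint_left]
      intro p hp hp'
      exact (Finset.disjoint_left.1 hi'.2) hp' (hi.1 hp)
    · rw [hΦ]
      show ∏ i, (c⁻¹ * (un q (t i).1 * (un q (t i).2)⁻¹)) = _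
      rw [Finset.prod_mul_distrib, Finset.prod_const, card_univ, Fintype.card_fin,
        Finset.prod_mul_distrib, Finset.prod_inv_distrib,
        un_prod _ _ (fun i _ => (hbd t ht i).1.2.2), un_prod _ _ (fun i _ => (hbd t ht i).2.2.2)]
  have hsame : ∀ t ∈ F, ∏ i, (t i).1 = ∏ i, (t₀ i).1 ∧ ∏ i, (t i).2 = ∏ i, (t₀ i).2 := by
    intro t ht
    rw [hF, mem_filter] at ht ht₀
    obtain ⟨⟨a1, a2⟩, ⟨b1, b2⟩, c1, d1⟩ := hpr t ht.1
    obtain ⟨⟨a1', a2'⟩, ⟨b1', b2'⟩, c1', d1'⟩ := hpr t₀ ht₀.1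
    have hg : un q (∏ i, (t i).1) * (un q (∏ i, (t i).2))⁻¹ = un q (∏ i, (t₀ i).1) * (un q (∏ i, (t₀ i).2))⁻¹ := by
      apply mul_left_cancel (a := (c⁻¹) ^ l)
      rw [← d1, ← d1', ht.2, ht₀.2]
    rw [mul_inv_eq_iff_eq_mul, mul_right_comm, ← mul_inv_eq_iff_eq_mul, inv_inv] at hg
    have cA := cop_of_lt a1 (lt_of_le_of_lt a2 hlt)
    have cB := cop_of_lt b1 (lt_of_le_of_lt b2 hlt2)
    have cA' := cop_of_lt a1' (lt_of_le_of_lt a2' hlt)
    have cB' := cop_of_lt b1' (lt_of_le_of_lt b2' hlt2)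
    rw [← un_mul cA cB', ← un_mul cA' cB] at hg
    have h5 := un_inj (Nat.mul_pos a1 b1') (Nat.mul_pos a1' b1)
      (lt_of_le_of_lt (Nat.mul_le_mul a2 b2') hXq) (lt_of_le_of_lt (Nat.mul_le_mul a2' b2) hXq) hg
    -- A B' = A' B
    have h6 : ∏ i, (t i).1 ∣ ∏ i, (t₀ i).1 := by
      apply c1.dvd_of_dvd_mul_right
      exact ⟨_, h5.symm⟩
    have h7 : ∏ i, (t₀ i).1 ∣ ∏ i, (t i).1 := by
      apply c1'.dvd_of_dvd_mul_right
      exact ⟨_, h5⟩
    have h8 := Nat.dvd_antisymm h6 h7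
    refine ⟨h8, ?_⟩
    rw [h8] at h5
    exact (Nat.eq_of_mul_eq_mul_left a1' h5).symm
  have ht₀P := (mem_filter.1 ht₀).1
  set A := ∏ i, (t₀ i).1 with hA
  set B := ∏ i, (t₀ i).2 with hB
  have hcardF : F.card ≤ l ^ (ArithmeticFunction.cardFactors A) * l ^ (ArithmeticFunction.cardFactors B) := by
    have h1 : F.card ≤ (Nat.finMulAntidiag l A ×ˢ Nat.finMulAntidiag l B).card := by
      apply Finset.card_le_card_of_injOn (fun t => ((fun i => (t i).1), (fun i => (t i).2)))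
      · intro t ht
        rw [Finset.mem_coe] at ht ⊢
        rw [mem_product, Nat.mem_finMulAntidiag, Nat.mem_finMulAntidiag]
        exact ⟨⟨(hsame t ht).1, (hpr t₀ ht₀P).1.1.ne'⟩, ⟨(hsame t ht).2, (hpr t₀ ht₀P).2.1.1.ne'⟩⟩
      · intro t _ t' _ htt
        rw [Prod.mk.injEq] at htt
        funext i
        exact Prod.ext (congrFun htt.1 i) (congrFun htt.2 i)
    refine h1.trans ?_
    rw [card_product]
    exact Nat.mul_le_mul (card_antidiag l A (hpr t₀ ht₀P).1.1) (card_antidiag l B (hpr t₀ ht₀P).2.1.1)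
  have hterm : ∀ t ∈ F, ∏ i, w' (t i) ≤ M ^ l / (l : ℝ) ^ (ArithmeticFunction.cardFactors A +
      ArithmeticFunction.cardFactors B) := by
    intro t ht
    have htP := (mem_filter.1 ht).1
    rw [le_div_iff₀ (by positivity)]
    have h1 : (l : ℝ) ^ (ArithmeticFunction.cardFactors A + ArithmeticFunction.cardFactors B) =
        ∏ i : Fin l, (l : ℝ) ^ (ArithmeticFunction.cardFactors (t i).1 + ArithmeticFunction.cardFactors (t i).2) := by
      have h2 : ∀ f : Fin l → ℕ, (∀ i, f i ≠ 0) → ArithmeticFunction.cardFactors (∏ i, f i) =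
          ∑ i, ArithmeticFunction.cardFactors (f i) := by
        intro f hf
        induction (univ : Finset (Fin l)) using Finset.induction_on with
        | empty => simp
        | insert a s ha ih =>
          rw [Finset.prod_insert ha, Finset.sum_insert ha,
            ArithmeticFunction.cardFactors_mul (hf a) (Finset.prod_ne_zero_iff.2 fun i _ => hf i), ih]
      rw [← (hsame t ht).1, ← (hsame t ht).2, h2 _ (fun i => (hbd t htP i).1.1.ne'),
        h2 _ (fun i => (hbd t htP i).2.1.ne'), ← Finset.sum_add_distrib, Finset.prod_pow_eq_pow_sum]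
    rw [h1, ← Finset.prod_mul_distrib]
    calc ∏ i, (w' (t i) * (l : ℝ) ^ (ArithmeticFunction.cardFactors (t i).1 + ArithmeticFunction.cardFactors (t i).2)) ≤
        ∏ _i : Fin l, M := by
          apply Finset.prod_le_prod
          · intro i _
            exact mul_nonneg (hw'0 _ (Fintype.mem_piFinset.1 htP i)) (by positivity)
          · intro i _
            exact hw'M _ (Fintype.mem_piFinset.1 htP i)
      _ = M ^ l := by rw [Finset.prod_const, card_univ, Fintype.card_fin]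
  calc ∑ t ∈ F, ∏ i, w' (t i) ≤ ∑ _t ∈ F, M ^ l / (l : ℝ) ^ (ArithmeticFunction.cardFactors A +
      ArithmeticFunction.cardFactors B) := Finset.sum_le_sum hterm
    _ = (F.card : ℝ) * (M ^ l / (l : ℝ) ^ (ArithmeticFunction.cardFactors A +
      ArithmeticFunction.cardFactors B)) := by rw [Finset.sum_const, nsmul_eq_mul]
    _ ≤ (l : ℝ) ^ (ArithmeticFunction.cardFactors A + ArithmeticFunction.cardFactors B) *
        (M ^ l / (l : ℝ) ^ (ArithmeticFunction.cardFactors A + ArithmeticFunction.cardFactors B)) := by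
        apply mul_le_mul_of_nonneg_right _ (by positivity)
        rw [pow_add]
        exact_mod_cast hcardF
    _ = M ^ l := by field_simp

end Pool.Agent.K4H2.EC
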