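import Mathlib
import Pool.Agent.K4H2.EC.E1

/-! The relations between integers without small prime factors in a coset of a subgroup. -/

set_option autoImplicit false

namespace Pool.Agent.K4H2.EC
open Finset Pool.Agent.R311.RES Pool.Agent.K4H49.AC Filter Topology
open scoped Classical

/-- the number of prime factors of an integer without small prime factors -/
lemma pow_Omega_le {Z n : ℕ} (hn : 0 < n) (h : ∀ p : ℕ, p.Prime → p ∣ n → Z < p) :
    Z ^ (ArithmeticFunction.cardFactors n) ≤ n := by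
  induction n using induction_on_primes with
  | zero => exact absurd hn (lt_irrefl _)
  | one => simp
  | prime_mul p m hp ih =>
    have hm : 0 < m := by
      rcases Nat.eq_zero_or_pos m with h0 | h0
      · subst h0; simp at hn
      · exact h0
    have h1 := ih hm (fun r hr hd => h r hr (hd.mul_left p))
    rw [ArithmeticFunction.cardFactors_mul hp.ne_zero hm.ne', ArithmeticFunction.cardFactors_apply_prime hp,
      pow_add, pow_one]
    exact Nat.mul_le_mul (h p hp (dvd_mul_right _ _)).le h1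

variable {q : ℕ} [Fact q.Prime]

/-- the coprime pairs without prime factors up to `Z` and with quotient in a coset of `G` -/
noncomputable def RP (G : Subgroup (ZMod q)ˣ) (c : (ZMod q)ˣ) (Z Y : ℕ) : Finset (ℕ × ℕ) :=
  ((Icc 1 Y) ×ˢ (Icc 1 Y)).filter (fun w => Nat.Coprime w.1 w.2 ∧ (∀ p : ℕ, p.Prime → p ∣ w.1 * w.2 → Z < p) ∧
    c⁻¹ * (un q w.1 * (un q w.2)⁻¹) ∈ G)

lemma mem_RP {G : Subgroup (ZMod q)ˣ} {c : (ZMod q)ˣ} {Z Y : ℕ} {w : ℕ × ℕ} : w ∈ RP G c Z Y ↔
    ((1 ≤ w.1 ∧ w.1 ≤ Y) ∧ (1 ≤ w.2 ∧ w.2 ≤ Y)) ∧ Nat.Coprime w.1 w.2 ∧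
      (∀ p : ℕ, p.Prime → p ∣ w.1 * w.2 → Z < p) ∧ c⁻¹ * (un q w.1 * (un q w.2)⁻¹) ∈ G := by
  unfold RP
  rw [mem_filter, mem_product, mem_Icc, mem_Icc]

/-- one cell -/
theorem cell2 (G : Subgroup (ZMod q)ˣ) (c : (ZMod q)ˣ) (α τ κ : ℝ) (hα0 : 0 ≤ α) (hα : α ≤ 1 / 3) (hτ : 1 / 2 < τ)
    (hκ0 : 0 < κ) (hκ : α + 1 / (2 * τ) + κ ≤ 1) (hG : (Fintype.card G : ℝ) ≤ (q : ℝ) ^ α)
    (L₀ : ℕ) (hL3 : 3 ≤ L₀) (hLκ : 2 / κ ≤ L₀) (Λ : ℝ) (hΛ : Λ = Real.log (Real.log q)) (hΛ1 : 1 ≤ Λ)
    (hΛκ : Real.log 2 / Λ ≤ κ / 2)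
    (Z Y : ℕ) (hZ : Real.log q ^ (2 * τ) ≤ Z) (i j : ℕ) (hij : 1 ≤ i + j)
    (hXL : (2 ^ (i + j + 2)) ^ L₀ ≤ q - 1) :
    ∑ w ∈ (RP G c Z Y).filter (fun w => Nat.log 2 w.1 = i ∧ Nat.log 2 w.2 = j), rs w.1 * rs w.2 ≤
      2 * Real.exp (2 * Real.log q ^ τ) := by
  have hq : q.Prime := Fact.out
  have hq0 : (0 : ℝ) < q := by exact_mod_cast hq.pos
  have hq2 := hq.two_le
  set Lq : ℝ := Real.log q with hLq
  have hLq1 : 1 ≤ Lq := by
    by_contra hcon
    push Not at hcon
    have h1 : 0 < Lq := Real.log_pos (by exact_mod_cast hq.one_lt)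
    have h2 : Λ < 0 := by rw [hΛ]; exact Real.log_neg h1 hcon
    linarith
  have hLq0 : 0 < Lq := by linarith
  have hτ0 : 0 < τ := by linarith
  have hΛ0 : 0 < Λ := by linarith
  have hLqΛ : Lq = Real.exp Λ := by rw [hΛ, Real.exp_log hLq0]
  have hrp : ∀ r : ℝ, Lq ^ r = Real.exp (r * Λ) := by
    intro r
    rw [Real.rpow_def_of_pos hLq0, ← hΛ, mul_comm]
  have hlogZ : 2 * τ * Λ ≤ Real.log Z := by
    have h1 := Real.log_le_log (Real.rpow_pos_of_pos hLq0 _) hZ
    rwa [hrp, Real.log_exp] at h1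
  have hlogZ0 : 0 < Real.log Z := lt_of_lt_of_le (by positivity) hlogZ
  set X : ℕ := 2 ^ (i + j + 2) with hX
  have hX8 : 8 ≤ X := by
    have : 2 ^ 3 ≤ 2 ^ (i + j + 2) := Nat.pow_le_pow_right (by norm_num) (by omega)
    simpa using this
  set l : ℕ := Nat.log X (q - 1) with hl
  have hlL : L₀ ≤ l := Nat.le_log_of_pow_le (by omega) hXL
  have hl1 : 1 ≤ l := by omega
  have hlr : (0 : ℝ) < l := by exact_mod_cast hl1
  have hXl : X ^ l < q := by
    have := Nat.pow_log_le_self X (show q - 1 ≠ 0 by omega)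
    rw [← hl] at this
    omega
  have hXl1 : q ≤ X ^ (l + 1) := by
    have h9 := Nat.lt_pow_succ_log_self (show 1 < X by omega) (q - 1)
    rw [← hl] at h9
    have h10 : q - 1 < X ^ (l + 1) := h9
    omega
  set LX : ℝ := Real.log X with hLX
  have hLXe : LX = (i + j + 2 : ℕ) * Real.log 2 := by
    rw [hLX, hX]; push_cast; rw [Real.log_pow]; push_cast; ring
  have hLX1 : 1 ≤ LX := by
    rw [hLXe]
    have h3 : (0.6 : ℝ) ≤ Real.log 2 := by linarith [Real.log_two_gt_d9]
    have h4 : (3 : ℝ) ≤ ((i + j + 2 : ℕ) : ℝ) := by exact_mod_cast (by omega : 3 ≤ i + j + 2)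
    nlinarith
  have hLX0 : 0 < LX := by linarith
  have f1 : l * LX ≤ Lq := by
    have h1 : ((X ^ l : ℕ) : ℝ) ≤ q := by exact_mod_cast hXl.le
    push_cast at h1
    have h2 := Real.log_le_log (by positivity) h1
    rwa [Real.log_pow] at h2
  have f2 : Lq ≤ (l + 1) * LX := by
    have h1 : (q : ℝ) ≤ ((X ^ (l + 1) : ℕ) : ℝ) := by exact_mod_cast hXl1
    push_cast at h1
    have h2 := Real.log_le_log hq0 h1
    rw [Real.log_pow] at h2
    push_cast at h2
    exact h2
  have h2l : 1 ≤ 2 * (l : ℝ) := by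
    have : (1 : ℝ) ≤ l := by exact_mod_cast hl1
    linarith
  have hlog2l : 0 ≤ Real.log (2 * l) := Real.log_nonneg h2l
  set M : ℝ := Real.exp (Real.log 2 - LX / 2 + LX * Real.log (2 * l) / Real.log Z) with hM
  have hmain := rel_sum2 G c ((RP G c Z Y).filter (fun w => Nat.log 2 w.1 = i ∧ Nat.log 2 w.2 = j))
    (fun w => rs w.1 * rs w.2) (fun w _ => mul_nonneg (rs_nonneg _) (rs_nonneg _))
    (fun w hw => by
      rw [mem_filter, mem_RP] at hw
      exact ⟨hw.1.1.1.1, hw.1.1.2.1⟩)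
    (fun w hw => by
      rw [mem_filter, mem_RP] at hw
      exact hw.1.2.1)
    (fun w hw => by
      rw [mem_filter, mem_RP] at hw
      exact hw.1.2.2.2)
    (2 ^ (i + 1)) (2 ^ (j + 1)) l hl1
    (fun w hw => by
      rw [mem_filter] at hw
      constructor
      · rw [← hw.2.1]; exact (Nat.lt_pow_succ_log_self (by norm_num) _).le
      · rw [← hw.2.2]; exact (Nat.lt_pow_succ_log_self (by norm_num) _).le)
    (by
      rw [← mul_pow, ← pow_add]
      have : i + 1 + (j + 1) = i + j + 2 := by ring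
      rw [this]
      exact hXl) M (Real.exp_pos _).le
    (fun w hw => by
      rw [mem_filter, mem_RP] at hw
      obtain ⟨⟨⟨⟨w1, _⟩, ⟨w2, _⟩⟩, _, hrough, _⟩, hi, hj⟩ := hw
      have hi' : 2 ^ i ≤ w.1 := by rw [← hi]; exact Nat.pow_log_le_self 2 (by omega)
      have hj' : 2 ^ j ≤ w.2 := by rw [← hj]; exact Nat.pow_log_le_self 2 (by omega)
      have hi'' : w.1 < 2 ^ (i + 1) := by rw [← hi]; exact Nat.lt_pow_succ_log_self (by norm_num) _
      have hj'' : w.2 < 2 ^ (j + 1) := by rw [← hj]; exact Nat.lt_pow_succ_log_self (by norm_num) _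
      have e1 : rs w.1 * rs w.2 ≤ Real.exp (Real.log 2 - LX / 2) := by
        have e2 : rs w.1 * rs w.2 ≤ rs (2 ^ (i + j)) := by
          rw [← rs_mul]
          apply rs_anti (by positivity)
          rw [pow_add]
          exact Nat.mul_le_mul hi' hj'
        refine e2.trans (le_of_eq ?_)
        have e3 : Real.exp (Real.log 2 - LX / 2) = Real.exp (-((i + j : ℕ) * Real.log 2) / 2) := by
          congr 1
          rw [hLXe]; push_cast; ring
        have e4 : (((2 ^ (i + j) : ℕ)) : ℝ) = Real.exp ((i + j : ℕ) * Real.log 2) := by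
          rw [← Real.log_pow, Real.exp_log (by positivity)]
          push_cast; rfl
        rw [e3]
        unfold rs
        rw [e4, Real.sqrt_eq_rpow, ← Real.exp_mul, ← Real.exp_neg]
        congr 1
        ring
      have e5 : (2 * (l : ℝ)) ^ (ArithmeticFunction.cardFactors w.1 + ArithmeticFunction.cardFactors w.2) ≤
          Real.exp (LX * Real.log (2 * l) / Real.log Z) := by
        rw [← ArithmeticFunction.cardFactors_mul (by omega) (by omega)]
        set s := ArithmeticFunction.cardFactors (w.1 * w.2) with hs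
        have e6 := pow_Omega_le (Nat.mul_pos w1 w2) hrough
        rw [← hs] at e6
        have e7 : ((Z ^ s : ℕ) : ℝ) ≤ (X : ℝ) := by
          have : Z ^ s ≤ X := by
            refine e6.trans ?_
            calc w.1 * w.2 ≤ 2 ^ (i + 1) * 2 ^ (j + 1) := Nat.mul_le_mul hi''.le hj''.le
              _ = X := by rw [hX, ← pow_add]; congr 1; ring
          exact_mod_cast this
        push_cast at e7
        have hZ0 : (0 : ℝ) < Z := by
          by_contra hcon
          have : (Z : ℝ) = 0 := le_antisymm (not_lt.1 hcon) (Nat.cast_nonneg _)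
          rw [this, Real.log_zero] at hlogZ0
          exact lt_irrefl _ hlogZ0
        have e8 := Real.log_le_log (by positivity) e7
        rw [Real.log_pow] at e8
        have e9 : (2 * (l : ℝ)) ^ s = Real.exp (s * Real.log (2 * l)) := by
          rw [← Real.log_pow, Real.exp_log (by positivity)]
        rw [e9, Real.exp_le_exp, le_div_iff₀ hlogZ0]
        calc (s : ℝ) * Real.log (2 * l) * Real.log Z = (s * Real.log Z) * Real.log (2 * l) := by ring
          _ ≤ LX * Real.log (2 * l) := mul_le_mul_of_nonneg_right e8 hlog2l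
      rw [hM, Real.exp_add]
      exact mul_le_mul e1 e5 (by positivity) (Real.exp_pos _).le)
  set S := ∑ w ∈ (RP G c Z Y).filter (fun w => Nat.log 2 w.1 = i ∧ Nat.log 2 w.2 = j), rs w.1 * rs w.2 with hS
  have g1 : S ≤ Real.exp (α * Lq / l) * M := by
    have g2 : S ^ l ≤ (Real.exp (α * Lq / l) * M) ^ l := by
      refine hmain.trans ?_
      have e0 : Real.exp (α * Lq / l) ^ l = (q : ℝ) ^ α := by
        rw [← Real.exp_nat_mul, Real.rpow_def_of_pos hq0]
        congr 1
        rw [← hLq]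
        field_simp
      rw [mul_pow, e0]
      exact mul_le_mul_of_nonneg_right hG (pow_nonneg (Real.exp_pos _).le l)
    exact le_of_pow_le_pow_left₀ (by omega) (by positivity) g2
  refine g1.trans ?_
  rw [hM, ← Real.exp_add]
  have g3 : (2 : ℝ) = Real.exp (Real.log 2) := (Real.exp_log (by norm_num)).symm
  nth_rewrite 4 [g3]
  rw [← Real.exp_add, Real.exp_le_exp]
  -- the exponent
  have hLr : (0 : ℝ) < L₀ := by exact_mod_cast (by omega : 0 < L₀)
  have k1 : α * Lq / l ≤ α * (1 + 1 / L₀) * LX := by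
    rw [div_le_iff₀ hlr]
    have k2 : Lq ≤ (1 + 1 / L₀) * LX * l := by
      refine f2.trans ?_
      have k3 : 1 ≤ (1 / (L₀ : ℝ)) * l := by
        rw [one_div, inv_mul_eq_div, le_div_iff₀ hLr, one_mul]
        exact_mod_cast hlL
      have : ((l : ℝ) + 1) ≤ (1 + 1 / L₀) * l := by linarith
      calc ((l : ℝ) + 1) * LX ≤ ((1 + 1 / L₀) * l) * LX := mul_le_mul_of_nonneg_right this hLX0.le
        _ = _ := by ring
    calc α * Lq ≤ α * ((1 + 1 / L₀) * LX * l) := mul_le_mul_of_nonneg_left k2 hα0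
      _ = _ := by ring
  have k4 : α * (1 + 1 / L₀) ≤ α + κ / 2 := by
    have k5 : 1 / (L₀ : ℝ) ≤ κ / 2 := by
      rw [div_le_iff₀ hκ0] at hLκ
      rw [div_le_iff₀ hLr]
      linarith
    have : α * (1 / (L₀ : ℝ)) ≤ 1 * (κ / 2) := mul_le_mul (by linarith) k5 (by positivity) (by norm_num)
    linarith
  have k6 : α * (1 + 1 / L₀) ≤ 1 / 2 := by
    have k7 : 1 / (L₀ : ℝ) ≤ 1 / 3 := one_div_le_one_div_of_le (by norm_num) (by exact_mod_cast hL3)
    have : α * (1 / (L₀ : ℝ)) ≤ 1 / 3 * (1 / 3) := mul_le_mul hα k7 (by positivity) (by norm_num)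
    linarith
  have k8 : LX * Real.log (2 * l) / Real.log Z ≤ LX * (Real.log 2 + Λ - Real.log LX) / (2 * τ * Λ) := by
    have k9 : Real.log (2 * l) ≤ Real.log 2 + Λ - Real.log LX := by
      have k10 : (l : ℝ) ≤ Lq / LX := by rw [le_div_iff₀ hLX0]; exact f1
      have k11 := Real.log_le_log hlr k10
      rw [Real.log_div hLq0.ne' hLX0.ne', ← hΛ] at k11
      rw [Real.log_mul (by norm_num) hlr.ne']
      linarith
    calc LX * Real.log (2 * l) / Real.log Z ≤ LX * Real.log (2 * l) / (2 * τ * Λ) :=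
          div_le_div_of_nonneg_left (by positivity) (by positivity) hlogZ
      _ ≤ _ := by
          apply div_le_div_of_nonneg_right _ (by positivity)
          exact mul_le_mul_of_nonneg_left k9 hLX0.le
  have hpos : 0 < Lq ^ τ := Real.rpow_pos_of_pos hLq0 _
  rcases le_or_gt (Lq ^ τ) LX with hA | hB
  · have m1 : τ * Λ ≤ Real.log LX := by
      have := Real.log_le_log hpos hA
      rwa [hrp, Real.log_exp] at this
    have m2 : LX * (Real.log 2 + Λ - Real.log LX) / (2 * τ * Λ) ≤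
        LX * ((1 / (2 * τ) - 1 / 2) + κ / 2) := by
      rw [mul_div_assoc]
      apply mul_le_mul_of_nonneg_left _ hLX0.le
      rw [div_le_iff₀ (by positivity)]
      have m3 : Real.log 2 ≤ κ / 2 * Λ := by rwa [div_le_iff₀ hΛ0] at hΛκ
      have m4 : (1 / (2 * τ) - 1 / 2 + κ / 2) * (2 * τ * Λ) = (Λ - τ * Λ) + (κ / 2 * Λ) * (2 * τ) := by
        field_simp
      rw [m4]
      have m5 : κ / 2 * Λ ≤ (κ / 2 * Λ) * (2 * τ) := by
        have : 0 ≤ κ / 2 * Λ := by positivity
        nlinarith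
      linarith
    have m6 : α * (1 + 1 / L₀) * LX ≤ (α + κ / 2) * LX := mul_le_mul_of_nonneg_right k4 hLX0.le
    have m7 : (α + κ / 2) * LX - LX / 2 + LX * ((1 / (2 * τ) - 1 / 2) + κ / 2) =
        (α + 1 / (2 * τ) + κ - 1) * LX := by ring
    have m8 : (α + 1 / (2 * τ) + κ - 1) * LX ≤ 0 := mul_nonpos_of_nonpos_of_nonneg (by linarith) hLX0.le
    linarith
  · have m1 : 0 ≤ Real.log LX := Real.log_nonneg hLX1
    have m2 : LX * (Real.log 2 + Λ - Real.log LX) / (2 * τ * Λ) ≤ 2 * LX := by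
      rw [div_le_iff₀ (by positivity)]
      have m3 : Real.log 2 ≤ Λ := by
        have : Real.log 2 ≤ 1 := by linarith [Real.log_two_lt_d9]
        linarith
      have m4 : Real.log 2 + Λ - Real.log LX ≤ 2 * Λ := by linarith
      have m5 : 2 * Λ ≤ 2 * (2 * τ * Λ) := by nlinarith
      calc LX * (Real.log 2 + Λ - Real.log LX) ≤ LX * (2 * (2 * τ * Λ)) :=
            mul_le_mul_of_nonneg_left (m4.trans m5) hLX0.le
        _ = _ := by ring
    have m6 : α * (1 + 1 / L₀) * LX ≤ 1 / 2 * LX := mul_le_mul_of_nonneg_right k6 hLX0.le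
    linarith

end Pool.Agent.K4H2.EC
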