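import Mathlib
import Pool.Agent.K4H2.EC.E2

/-! The relations between integers without small prime factors: all the cells. -/

set_option autoImplicit false

namespace Pool.Agent.K4H2.EC
open Finset Pool.Agent.R311.RES Pool.Agent.K4H49.AC Filter Topology
open scoped Classical

lemma ev_poly_exp (τ : ℝ) (hτ : 0 < τ) (n : ℕ) : ∀ᶠ x : ℝ in atTop, x ^ n ≤ Real.exp (x ^ τ) := by
  have h1 : Tendsto (fun x : ℝ => Real.log x / x ^ τ) atTop (𝓝 0) :=
    (isLittleO_log_rpow_atTop hτ).tendsto_div_nhds_zero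
  filter_upwards [h1.eventually_le_const (show (0 : ℝ) < 1 / (n + 1) by positivity), eventually_gt_atTop (1 : ℝ)]
    with x a1 a2
  have hx : 0 < x := by linarith
  have hp : 0 < x ^ τ := Real.rpow_pos_of_pos hx _
  rw [div_le_iff₀ hp] at a1
  have h2 : x ^ n = Real.exp (n * Real.log x) := by
    rw [← Real.log_pow, Real.exp_log (by positivity)]
  rw [h2, Real.exp_le_exp]
  have hn : (0 : ℝ) ≤ n := Nat.cast_nonneg n
  calc (n : ℝ) * Real.log x ≤ n * (1 / (n + 1) * x ^ τ) := mul_le_mul_of_nonneg_left a1 hn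
    _ = (n / (n + 1)) * x ^ τ := by ring
    _ ≤ 1 * x ^ τ := by
        apply mul_le_mul_of_nonneg_right _ hp.le
        rw [div_le_one (by positivity)]
        linarith
    _ = _ := one_mul _

/-- **The relations without small prime factors.** -/
theorem R_bound (α τ κ : ℝ) (hα0 : 0 ≤ α) (hα : α ≤ 1 / 3) (hτ : 1 / 2 < τ) (hκ0 : 0 < κ)
    (hκ : α + 1 / (2 * τ) + κ ≤ 1) : ∃ η : ℝ, 0 < η ∧ η ≤ 1 / 12 ∧ ∃ q₀ : ℕ, ∀ (q : ℕ) [Fact q.Prime], q₀ ≤ q →
      ∀ (G : Subgroup (ZMod q)ˣ), (Fintype.card G : ℝ) ≤ (q : ℝ) ^ α → ∀ (c : (ZMod q)ˣ) (Z Y : ℕ),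
        (Y : ℝ) ≤ (q : ℝ) ^ η → Real.log q ^ (2 * τ) ≤ Z →
        ∑ w ∈ RP G c Z Y, rs w.1 * rs w.2 ≤ Real.exp (3 * Real.log q ^ τ) := by
  set L₀ : ℕ := max 3 ⌈2 / κ⌉₊ with hL₀
  have hL3 : 3 ≤ L₀ := le_max_left _ _
  have hLκ : 2 / κ ≤ L₀ := (Nat.le_ceil _).trans (by exact_mod_cast le_max_right _ _)
  have hLr : (3 : ℝ) ≤ L₀ := by exact_mod_cast hL3
  have tl : Tendsto (fun q : ℕ => Real.log (q : ℝ)) atTop atTop :=
    Real.tendsto_log_atTop.comp tendsto_natCast_atTop_atTop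
  have tll : Tendsto (fun q : ℕ => Real.log (Real.log (q : ℝ))) atTop atTop :=
    Real.tendsto_log_atTop.comp tl
  have t1 : ∀ᶠ q : ℕ in atTop, (4 : ℝ) ^ L₀ * 2 ≤ (q : ℝ) ^ (1 / 4 : ℝ) :=
    ((tendsto_rpow_atTop (by norm_num : (0 : ℝ) < 1 / 4)).comp tendsto_natCast_atTop_atTop).eventually_ge_atTop _
  obtain ⟨q₀, hq₀⟩ := eventually_atTop.1 (t1.and ((tll.eventually_ge_atTop (max 1 (2 * Real.log 2 / κ))).and
    ((tl.eventually (ev_poly_exp τ (by linarith) 3)).and (tl.eventually_ge_atTop 32))))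
  refine ⟨1 / (8 * L₀), by positivity, ?_, q₀, ?_⟩
  · apply one_div_le_one_div_of_le (by norm_num)
    linarith
  intro q _ hqq G hG c Z Y hY hZ
  have hq : q.Prime := Fact.out
  have hq0 : (0 : ℝ) < q := by exact_mod_cast hq.pos
  have hq1 : (1 : ℝ) ≤ q := by exact_mod_cast hq.one_lt.le
  obtain ⟨a1, a2, a3, a4⟩ := hq₀ q hqq
  have hΛ1 : 1 ≤ Real.log (Real.log q) := (le_max_left _ _).trans a2
  have hΛκ : Real.log 2 / Real.log (Real.log q) ≤ κ / 2 := by
    have h1 := (le_max_right _ _).trans a2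
    rw [div_le_iff₀ hκ0] at h1
    rw [div_le_iff₀ (by linarith)]
    linarith
  set E : ℝ := 2 * Real.exp (2 * Real.log q ^ τ) with hE
  have hτq : 0 ≤ Real.log q ^ τ := Real.rpow_nonneg (by linarith) _
  have hE1 : 1 ≤ E := by
    have : 1 ≤ Real.exp (2 * Real.log q ^ τ) := Real.one_le_exp (by positivity)
    rw [hE]; linarith
  have hmaps : ∀ w ∈ RP G c Z Y, (Nat.log 2 w.1, Nat.log 2 w.2) ∈
      (range (Nat.log 2 Y + 1)) ×ˢ (range (Nat.log 2 Y + 1)) := by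
    intro w hw
    rw [mem_RP] at hw
    rw [mem_product, mem_range, mem_range, Nat.lt_succ_iff, Nat.lt_succ_iff]
    constructor
    · show Nat.log 2 w.1 ≤ Nat.log 2 Y
      exact Nat.log_mono_right hw.1.1.2
    · show Nat.log 2 w.2 ≤ Nat.log 2 Y
      exact Nat.log_mono_right hw.1.2.2
  rw [← Finset.sum_fiberwise_of_maps_to hmaps]
  have hone : ∀ ij ∈ (range (Nat.log 2 Y + 1)) ×ˢ (range (Nat.log 2 Y + 1)),
      ∑ w ∈ (RP G c Z Y).filter (fun w => (Nat.log 2 w.1, Nat.log 2 w.2) = ij), rs w.1 * rs w.2 ≤ E := by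
    rintro ⟨i, j⟩ hij
    have hset : (RP G c Z Y).filter (fun w => (Nat.log 2 w.1, Nat.log 2 w.2) = (i, j)) =
        (RP G c Z Y).filter (fun w => Nat.log 2 w.1 = i ∧ Nat.log 2 w.2 = j) := by
      apply Finset.filter_congr
      intro w _
      rw [Prod.mk.injEq]
    rw [hset]
    rw [mem_product, mem_range, mem_range, Nat.lt_succ_iff, Nat.lt_succ_iff] at hij
    rcases Nat.eq_zero_or_pos (i + j) with h0 | h1
    · have hi0 : i = 0 := by omega
      have hj0 : j = 0 := by omega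
      subst hi0 hj0
      have hsub : (RP G c Z Y).filter (fun w => Nat.log 2 w.1 = 0 ∧ Nat.log 2 w.2 = 0) ⊆ {(1, 1)} := by
        intro w hw
        rw [mem_filter, mem_RP] at hw
        have e1 : w.1 < 2 ^ (0 + 1) := by rw [← hw.2.1]; exact Nat.lt_pow_succ_log_self (by norm_num) _
        have e2 : w.2 < 2 ^ (0 + 1) := by rw [← hw.2.2]; exact Nat.lt_pow_succ_log_self (by norm_num) _
        have e3 := hw.1.1.1.1
        have e4 := hw.1.1.2.1
        rw [mem_singleton]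
        exact Prod.ext (by simp only; omega) (by simp only; omega)
      refine (Finset.sum_le_sum_of_subset_of_nonneg hsub
        (fun w _ _ => mul_nonneg (rs_nonneg _) (rs_nonneg _))).trans ?_
      rw [Finset.sum_singleton]
      have := mul_le_mul (rs_le_one 1) (rs_le_one 1) (rs_nonneg _) zero_le_one
      linarith
    · rcases Nat.eq_zero_or_pos Y with hY0 | hY0
      · have : RP G c Z Y = ∅ := by
          rw [Finset.eq_empty_iff_forall_notMem]
          intro w hw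
          rw [mem_RP] at hw
          omega
        rw [this, Finset.filter_empty, Finset.sum_empty]
        linarith
      refine cell2 G c α τ κ hα0 hα hτ hκ0 hκ hG L₀ hL3 hLκ _ rfl hΛ1 hΛκ Z Y hZ i j h1 ?_
      have hi : 2 ^ i ≤ Y := (Nat.pow_le_pow_right (by norm_num) hij.1).trans (Nat.pow_log_le_self 2 hY0.ne')
      have hj : 2 ^ j ≤ Y := (Nat.pow_le_pow_right (by norm_num) hij.2).trans (Nat.pow_log_le_self 2 hY0.ne')
      have hX : 2 ^ (i + j + 2) ≤ 4 * (Y * Y) := by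
        rw [pow_add, pow_add]
        calc 2 ^ i * 2 ^ j * 2 ^ 2 ≤ Y * Y * 2 ^ 2 := Nat.mul_le_mul_right _ (Nat.mul_le_mul hi hj)
          _ = _ := by ring
      have hreal : (((2 ^ (i + j + 2)) ^ L₀ : ℕ) : ℝ) ≤ ((q : ℝ)) / 2 := by
        have h2 : ((2 ^ (i + j + 2) : ℕ) : ℝ) ≤ 4 * ((q : ℝ) ^ (1 / (8 * L₀) : ℝ)) ^ 2 := by
          have h3 : ((2 ^ (i + j + 2) : ℕ) : ℝ) ≤ 4 * ((Y : ℝ) * Y) := by exact_mod_cast hX
          have h4 : (Y : ℝ) * Y ≤ ((q : ℝ) ^ (1 / (8 * L₀) : ℝ)) ^ 2 := by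
            rw [sq]
            exact mul_le_mul hY hY (Nat.cast_nonneg _) (by positivity)
          linarith
        rw [Nat.cast_pow]
        refine (pow_le_pow_left₀ (Nat.cast_nonneg _) h2 L₀).trans ?_
        rw [mul_pow, ← pow_mul, ← Real.rpow_natCast ((q : ℝ) ^ (1 / (8 * L₀) : ℝ)) (2 * L₀), ← Real.rpow_mul hq0.le]
        have e1 : 1 / (8 * (L₀ : ℝ)) * ((2 * L₀ : ℕ) : ℝ) = 1 / 4 := by
          push_cast
          field_simp
          norm_num
        rw [e1]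
        have hq4 : 0 < (q : ℝ) ^ (1 / 4 : ℝ) := Real.rpow_pos_of_pos hq0 _
        have e2 : (q : ℝ) ^ (1 / 4 : ℝ) * (q : ℝ) ^ (1 / 4 : ℝ) ≤ q := by
          rw [← Real.rpow_add hq0]
          calc (q : ℝ) ^ (1 / 4 + 1 / 4 : ℝ) ≤ (q : ℝ) ^ (1 : ℝ) :=
                Real.rpow_le_rpow_of_exponent_le hq1 (by norm_num)
            _ = q := Real.rpow_one _
        have e3 : (4 : ℝ) ^ L₀ * 2 * (q : ℝ) ^ (1 / 4 : ℝ) ≤ (q : ℝ) ^ (1 / 4 : ℝ) * (q : ℝ) ^ (1 / 4 : ℝ) :=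
          mul_le_mul_of_nonneg_right a1 hq4.le
        linarith
      have h5 : 2 * ((2 ^ (i + j + 2)) ^ L₀) ≤ q := by
        have : (2 : ℝ) * (((2 ^ (i + j + 2)) ^ L₀ : ℕ) : ℝ) ≤ q := by linarith
        exact_mod_cast this
      have h6 : 1 ≤ (2 ^ (i + j + 2)) ^ L₀ := Nat.one_le_pow _ _ (by positivity)
      omega
  refine (Finset.sum_le_sum hone).trans ?_
  rw [Finset.sum_const, card_product, card_range, nsmul_eq_mul]
  have hlogY : ((Nat.log 2 Y + 1 : ℕ) : ℝ) ≤ 3 * Real.log q := by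
    rcases Nat.eq_zero_or_pos Y with hY0 | hY0
    · rw [hY0]; simp; linarith
    have h1 : (2 : ℝ) ^ (Nat.log 2 Y) ≤ q := by
      have h2 : ((2 ^ (Nat.log 2 Y) : ℕ) : ℝ) ≤ Y := by exact_mod_cast Nat.pow_log_le_self 2 hY0.ne'
      have h3 : (q : ℝ) ^ (1 / (8 * L₀) : ℝ) ≤ q := by
        calc (q : ℝ) ^ (1 / (8 * L₀) : ℝ) ≤ (q : ℝ) ^ (1 : ℝ) := by
              apply Real.rpow_le_rpow_of_exponent_le hq1
              rw [div_le_one (by positivity)]
              linarith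
          _ = q := Real.rpow_one _
      push_cast at h2
      linarith
    have h2 := Real.log_le_log (by positivity) h1
    rw [Real.log_pow] at h2
    have h3 : (0.5 : ℝ) ≤ Real.log 2 := by linarith [Real.log_two_gt_d9]
    have h4 : (0 : ℝ) ≤ Nat.log 2 Y := Nat.cast_nonneg _
    push_cast
    nlinarith
  push_cast at hlogY ⊢
  have e4 : (((Nat.log 2 Y : ℝ) + 1) * ((Nat.log 2 Y : ℝ) + 1)) * 2 ≤ Real.exp (Real.log q ^ τ) := by
    refine le_trans ?_ a3
    have h4 : (0 : ℝ) ≤ Nat.log 2 Y := Nat.cast_nonneg _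
    have h5 : ((Nat.log 2 Y : ℝ) + 1) * ((Nat.log 2 Y : ℝ) + 1) ≤ (3 * Real.log q) * (3 * Real.log q) :=
      mul_le_mul hlogY hlogY (by linarith) (by linarith)
    have h6 : (3 * Real.log q) * (3 * Real.log q) * 2 ≤ Real.log q ^ 3 := by
      have : 18 ≤ Real.log q := by linarith
      have h7 : 0 ≤ Real.log q ^ 2 := by positivity
      nlinarith
    linarith
  calc ((Nat.log 2 Y : ℝ) + 1) * ((Nat.log 2 Y : ℝ) + 1) * E =
        ((((Nat.log 2 Y : ℝ) + 1) * ((Nat.log 2 Y : ℝ) + 1)) * 2) * Real.exp (2 * Real.log q ^ τ) := by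
        rw [hE]; ring
    _ ≤ Real.exp (Real.log q ^ τ) * Real.exp (2 * Real.log q ^ τ) :=
        mul_le_mul_of_nonneg_right e4 (Real.exp_pos _).le
    _ = _ := by rw [← Real.exp_add]; congr 1; ring

end Pool.Agent.K4H2.EC
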