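import Mathlib
import Pool.Agent.K4H2.EC.E3
import Pool.Agent.K4H2.EC.C

/-! The second moment of the mollifier over a coset. -/

set_option autoImplicit false

namespace Pool.Agent.K4H2.EC
open Finset Pool.Agent.R311.RES Pool.Agent.K4H49.AC Filter Topology
open scoped Classical

variable {q : ℕ} [Fact q.Prime]

/-- the pairs of squarefree integers with quotient in `G` -/
noncomputable def PP (G : Subgroup (ZMod q)ˣ) (Y : ℕ) : Finset (ℕ × ℕ) :=
  ((Icc 1 Y) ×ˢ (Icc 1 Y)).filter (fun z => Squarefree z.1 ∧ Squarefree z.2 ∧ un q z.1 * (un q z.2)⁻¹ ∈ G)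

lemma mem_PP {G : Subgroup (ZMod q)ˣ} {Y : ℕ} {z : ℕ × ℕ} : z ∈ PP G Y ↔
    ((1 ≤ z.1 ∧ z.1 ≤ Y) ∧ (1 ≤ z.2 ∧ z.2 ≤ Y)) ∧ Squarefree z.1 ∧ Squarefree z.2 ∧
      un q z.1 * (un q z.2)⁻¹ ∈ G := by
  unfold PP
  rw [mem_filter, mem_product, mem_Icc, mem_Icc]

/-- **The second moment of the mollifier over a coset.** -/
theorem second_M (H : Subgroup (DirichletCharacter ℂ q)) (χ₀ : DirichletCharacter ℂ q) (Y : ℕ) :
    ∑ ψ : H, ‖MM q ∅ Y (χ₀ * (ψ : DirichletCharacter ℂ q))‖ ^ 2 ≤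
      (Fintype.card H : ℝ) * ∑ z ∈ PP (ann H) Y, rs z.1 * rs z.2 := by
  set c : ℕ → ℝ := fun a => ((ArithmeticFunction.moebius a : ℤ) : ℝ) * rs a with hc
  set S : Finset ℕ := AA ∅ Y with hS
  set g : ℕ × ℕ → (ZMod q)ˣ := fun z => un q z.1 * (un q z.2)⁻¹ with hg
  have h1 : ∀ χ : DirichletCharacter ℂ q, ((‖MM q ∅ Y χ‖ ^ 2 : ℝ) : ℂ) =
      ∑ z ∈ S ×ˢ S, ((c z.1 * c z.2 : ℝ) : ℂ) * χ ((g z : (ZMod q)ˣ) : ZMod q) := by
    intro χ
    rw [← Complex.normSq_eq_norm_sq, ← Complex.mul_conj, MM, map_sum, Finset.sum_mul_sum, Finset.sum_product]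
    apply Finset.sum_congr rfl
    intro a _
    apply Finset.sum_congr rfl
    intro b _
    show _ = ((c a * c b : ℝ) : ℂ) * χ ((un q a * (un q b)⁻¹ : (ZMod q)ˣ) : ZMod q)
    rw [map_mul, Complex.conj_ofReal, ← chi_inv, Units.val_mul, map_mul, hc]
    push_cast
    ring
  have h2 : ((∑ ψ : H, ‖MM q ∅ Y (χ₀ * (ψ : DirichletCharacter ℂ q))‖ ^ 2 : ℝ) : ℂ) =
      ∑ z ∈ S ×ˢ S, ((c z.1 * c z.2 : ℝ) : ℂ) * χ₀ ((g z : (ZMod q)ˣ) : ZMod q) *
        (if g z ∈ ann H then (Fintype.card H : ℂ) else 0) := by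
    rw [Complex.ofReal_sum, Finset.sum_congr rfl (fun (ψ : H) _ => h1 (χ₀ * (ψ : DirichletCharacter ℂ q))),
      Finset.sum_comm]
    apply Finset.sum_congr rfl
    intro z _
    rw [← orth, Finset.mul_sum]
    apply Finset.sum_congr rfl
    intro ψ _
    rw [MulChar.mul_apply]
    ring
  have h3 : ∑ ψ : H, ‖MM q ∅ Y (χ₀ * (ψ : DirichletCharacter ℂ q))‖ ^ 2 =
      ‖((∑ ψ : H, ‖MM q ∅ Y (χ₀ * (ψ : DirichletCharacter ℂ q))‖ ^ 2 : ℝ) : ℂ)‖ := by
    rw [Complex.norm_real, Real.norm_of_nonneg (Finset.sum_nonneg fun _ _ => by positivity)]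
  rw [h3, h2]
  refine (norm_sum_le _ _).trans ?_
  have h4 : ∀ z ∈ S ×ˢ S, ‖((c z.1 * c z.2 : ℝ) : ℂ) * χ₀ ((g z : (ZMod q)ˣ) : ZMod q) *
        (if g z ∈ ann H then (Fintype.card H : ℂ) else 0)‖ ≤
      (Fintype.card H : ℝ) * (if Squarefree z.1 ∧ Squarefree z.2 ∧ un q z.1 * (un q z.2)⁻¹ ∈ ann H then
        rs z.1 * rs z.2 else 0) := by
    intro z _
    rw [norm_mul, norm_mul, Complex.norm_real, Real.norm_eq_abs]
    have hχ := DirichletCharacter.norm_le_one χ₀ ((g z : (ZMod q)ˣ) : ZMod q)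
    have hcabs : ∀ a : ℕ, |c a| ≤ if Squarefree a then rs a else 0 := by
      intro a
      rw [hc]
      simp only
      split_ifs with ha
      · rw [abs_mul, abs_of_nonneg (rs_nonneg a)]
        have h5 : |((ArithmeticFunction.moebius a : ℤ) : ℝ)| ≤ 1 := by
          have := ArithmeticFunction.abs_moebius_le_one (n := a)
          exact_mod_cast this
        calc _ ≤ 1 * rs a := mul_le_mul_of_nonneg_right h5 (rs_nonneg a)
          _ = _ := one_mul _
      · rw [ArithmeticFunction.moebius_eq_zero_of_not_squarefree ha]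
        simp
    have hH : (0 : ℝ) ≤ Fintype.card H := Nat.cast_nonneg _
    by_cases hgz : g z ∈ ann H
    · rw [if_pos hgz, Complex.norm_natCast]
      have h6 : |c z.1 * c z.2| ≤ (if Squarefree z.1 ∧ Squarefree z.2 ∧ un q z.1 * (un q z.2)⁻¹ ∈ ann H then
          rs z.1 * rs z.2 else 0) := by
        have h7 := hcabs z.1
        have h8 := hcabs z.2
        rw [abs_mul]
        by_cases s1 : Squarefree z.1
        · by_cases s2 : Squarefree z.2
          · rw [if_pos ⟨s1, s2, hgz⟩]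
            rw [if_pos s1] at h7
            rw [if_pos s2] at h8
            exact mul_le_mul h7 h8 (abs_nonneg _) (rs_nonneg _)
          · rw [if_neg (fun h => s2 h.2.1)]
            rw [if_neg s2] at h8
            have : |c z.2| = 0 := le_antisymm h8 (abs_nonneg _)
            rw [this, mul_zero]
        · rw [if_neg (fun h => s1 h.1)]
          rw [if_neg s1] at h7
          have : |c z.1| = 0 := le_antisymm h7 (abs_nonneg _)
          rw [this, zero_mul]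
      calc |c z.1 * c z.2| * ‖χ₀ ((g z : (ZMod q)ˣ) : ZMod q)‖ * (Fintype.card H : ℝ) ≤
            |c z.1 * c z.2| * 1 * (Fintype.card H : ℝ) := by
            apply mul_le_mul_of_nonneg_right _ hH
            exact mul_le_mul_of_nonneg_left hχ (abs_nonneg _)
        _ = (Fintype.card H : ℝ) * |c z.1 * c z.2| := by ring
        _ ≤ _ := mul_le_mul_of_nonneg_left h6 hH
    · rw [if_neg hgz, norm_zero, mul_zero]
      apply mul_nonneg hH
      split_ifs
      · exact mul_nonneg (rs_nonneg _) (rs_nonneg _)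
      · exact le_rfl
  refine (Finset.sum_le_sum h4).trans ?_
  rw [← Finset.mul_sum]
  apply mul_le_mul_of_nonneg_left _ (Nat.cast_nonneg _)
  unfold PP
  rw [Finset.sum_filter]
  apply Finset.sum_le_sum_of_subset_of_nonneg
  · exact Finset.product_subset_product (filter_subset _ _) (filter_subset _ _)
  · intro z _ _
    split_ifs
    · exact mul_nonneg (rs_nonneg _) (rs_nonneg _)
    · exact le_rfl

/-- the primes up to `Z` -/
noncomputable def Pr (Z : ℕ) : Finset ℕ := (Icc 1 Z).filter Nat.Prime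

lemma rs_ms' (T : Finset ℕ) : rs (ms T) = ∏ p ∈ T, rs p := by
  induction T using Finset.induction_on with
  | empty => simp [ms, rs]
  | insert p T hp ih =>
    have h3 : ms (insert p T) = p * ms T := Finset.prod_insert hp
    rw [h3, rs_mul, ih, Finset.prod_insert hp]

lemma sum_rs_ms' (P : Finset ℕ) : ∑ T ∈ P.powerset, rs (ms T) = ∏ p ∈ P, (1 + rs p) := by
  rw [Finset.prod_one_add]
  apply Finset.sum_congr rfl
  intro T _
  exact rs_ms' T

/-- the smooth and the rough part -/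
lemma split_sq {d Z : ℕ} (hd : Squarefree d) :
    ms (d.primeFactors.filter (fun p => p ≤ Z)) * ms (d.primeFactors.filter (fun p => ¬ p ≤ Z)) = d := by
  unfold ms
  rw [Finset.prod_filter_mul_prod_filter_not]
  exact Nat.prod_primeFactors_of_squarefree hd

/-- **Reduction to the relations without small prime factors.** -/
theorem PP_bound (G : Subgroup (ZMod q)ˣ) (Z Y : ℕ) (hYq : Y < q) (R : ℝ)
    (hR : ∀ c : (ZMod q)ˣ, ∑ w ∈ RP G c Z Y, rs w.1 * rs w.2 ≤ R) :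
    ∑ z ∈ PP G Y, rs z.1 * rs z.2 ≤
      (∏ p ∈ Pr Z, (1 + rs p)) ^ 2 * ((∑ t ∈ Icc 1 Y, 1 / (t : ℝ)) * R) := by
  set sm : ℕ → Finset ℕ := fun d => d.primeFactors.filter (fun p => p ≤ Z) with hsm
  set ro : ℕ → ℕ := fun d => ms (d.primeFactors.filter (fun p => ¬ p ≤ Z)) with hro
  set tt : ℕ × ℕ → ℕ := fun z => Nat.gcd (ro z.1) (ro z.2) with htt
  set φ : ℕ × ℕ → (Finset ℕ × Finset ℕ) × (ℕ × (ℕ × ℕ)) :=
    fun z => ((sm z.1, sm z.2), (tt z, (ro z.1 / tt z, ro z.2 / tt z))) with hφ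
  set cc : Finset ℕ × Finset ℕ → (ZMod q)ˣ := fun a => un q (ms a.2) * (un q (ms a.1))⁻¹ with hcc
  set 𝒯 := (((Pr Z).powerset ×ˢ (Pr Z).powerset) ×ˢ ((Icc 1 Y) ×ˢ ((Icc 1 Y) ×ˢ (Icc 1 Y)))).filter
    (fun x => x.2.2 ∈ RP G (cc x.1) Z Y) with h𝒯
  set gg : (Finset ℕ × Finset ℕ) × (ℕ × (ℕ × ℕ)) → ℝ := fun x =>
    rs (ms x.1.1) * rs (ms x.1.2) * ((1 / (x.2.1 : ℝ)) * (rs x.2.2.1 * rs x.2.2.2)) with hgg
  have hprime : ∀ (d : ℕ) (S : Finset ℕ), S ⊆ d.primeFactors → ∀ p ∈ S, p.Prime := fun d S h p hp =>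
    Nat.prime_of_mem_primeFactors (h hp)
  have hro0 : ∀ d, 0 < ro d := fun d => ms_pos (hprime d _ (filter_subset _ _))
  have htt0 : ∀ z, 0 < tt z := fun z => Nat.gcd_pos_of_pos_left _ (hro0 _)
  have hsplit : ∀ d, Squarefree d → ms (sm d) * ro d = d := fun d hd => split_sq hd
  have hq1 : ∀ z : ℕ × ℕ, tt z * (ro z.1 / tt z) = ro z.1 := fun z => Nat.mul_div_cancel' (Nat.gcd_dvd_left _ _)
  have hq2 : ∀ z : ℕ × ℕ, tt z * (ro z.2 / tt z) = ro z.2 := fun z => Nat.mul_div_cancel' (Nat.gcd_dvd_right _ _)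
  have hmem : ∀ z ∈ PP G Y, φ z ∈ 𝒯 := by
    intro z hz
    rw [mem_PP] at hz
    obtain ⟨⟨⟨z1, z1Y⟩, ⟨z2, z2Y⟩⟩, sq1, sq2, hG⟩ := hz
    have s1 := hsplit z.1 sq1
    have s2 := hsplit z.2 sq2
    have hms1 : 0 < ms (sm z.1) := ms_pos (hprime _ _ (filter_subset _ _))
    have hms2 : 0 < ms (sm z.2) := ms_pos (hprime _ _ (filter_subset _ _))
    have r1Y : ro z.1 ≤ Y := by
      refine le_trans ?_ z1Y
      calc ro z.1 ≤ ms (sm z.1) * ro z.1 := Nat.le_mul_of_pos_left _ hms1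
        _ = z.1 := s1
    have r2Y : ro z.2 ≤ Y := by
      refine le_trans ?_ z2Y
      calc ro z.2 ≤ ms (sm z.2) * ro z.2 := Nat.le_mul_of_pos_left _ hms2
        _ = z.2 := s2
    have m1Y : ms (sm z.1) ≤ Y := by
      refine le_trans ?_ z1Y
      calc ms (sm z.1) ≤ ms (sm z.1) * ro z.1 := Nat.le_mul_of_pos_right _ (hro0 _)
        _ = z.1 := s1
    have m2Y : ms (sm z.2) ≤ Y := by
      refine le_trans ?_ z2Y
      calc ms (sm z.2) ≤ ms (sm z.2) * ro z.2 := Nat.le_mul_of_pos_right _ (hro0 _)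
        _ = z.2 := s2
    have hsub : ∀ d, sm d ⊆ Pr Z := by
      intro d p hp
      rw [hsm, mem_filter] at hp
      unfold Pr
      rw [mem_filter, mem_Icc]
      have := Nat.prime_of_mem_primeFactors hp.1
      exact ⟨⟨this.one_lt.le, hp.2⟩, this⟩
    have w1 : 1 ≤ ro z.1 / tt z := by
      rcases Nat.eq_zero_or_pos (ro z.1 / tt z) with h | h
      · have := hq1 z
        rw [h, Nat.mul_zero] at this
        have := hro0 z.1
        omega
      · exact h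
    have w2 : 1 ≤ ro z.2 / tt z := by
      rcases Nat.eq_zero_or_pos (ro z.2 / tt z) with h | h
      · have := hq2 z
        rw [h, Nat.mul_zero] at this
        have := hro0 z.2
        omega
      · exact h
    have w1Y : ro z.1 / tt z ≤ Y := (Nat.div_le_self _ _).trans r1Y
    have w2Y : ro z.2 / tt z ≤ Y := (Nat.div_le_self _ _).trans r2Y
    have tY : tt z ≤ Y := (Nat.le_of_dvd (hro0 _) (Nat.gcd_dvd_left _ _)).trans r1Y
    rw [h𝒯, mem_filter, mem_product, mem_product, mem_product, mem_product, mem_Icc, mem_Icc, mem_Icc]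
    refine ⟨⟨⟨mem_powerset.2 (hsub _), mem_powerset.2 (hsub _)⟩, ⟨htt0 z, tY⟩, ⟨w1, w1Y⟩, ⟨w2, w2Y⟩⟩, ?_⟩
    rw [mem_RP]
    refine ⟨⟨⟨w1, w1Y⟩, ⟨w2, w2Y⟩⟩, Nat.coprime_div_gcd_div_gcd (htt0 z), ?_, ?_⟩
    · intro p hp hdvd
      have hro_rough : ∀ d, p ∣ ro d → Z < p := by
        intro d hd
        have h1 : p ∈ (ro d).primeFactors := Nat.mem_primeFactors.2 ⟨hp, hd, (hro0 d).ne'⟩
        rw [hro, ms_pf (hprime d _ (filter_subset _ _)), mem_filter] at h1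
        omega
      rcases (Nat.Prime.dvd_mul hp).1 hdvd with h | h
      · exact hro_rough z.1 (h.trans ⟨tt z, by rw [mul_comm]; exact (hq1 z).symm⟩)
      · exact hro_rough z.2 (h.trans ⟨tt z, by rw [mul_comm]; exact (hq2 z).symm⟩)
    · have cp : ∀ n, 0 < n → n ≤ Y → n.Coprime q := fun n h0 hn => cop_of_lt h0 (lt_of_le_of_lt hn hYq)
      have u1 : un q z.1 = un q (ms (sm z.1)) * (un q (tt z) * un q (ro z.1 / tt z)) := by
        rw [← un_mul (cp _ (htt0 z) tY) (cp _ w1 w1Y), hq1, ← un_mul (cp _ hms1 m1Y) (cp _ (hro0 _) r1Y), s1]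
      have u2 : un q z.2 = un q (ms (sm z.2)) * (un q (tt z) * un q (ro z.2 / tt z)) := by
        rw [← un_mul (cp _ (htt0 z) tY) (cp _ w2 w2Y), hq2, ← un_mul (cp _ hms2 m2Y) (cp _ (hro0 _) r2Y), s2]
      have e : (cc (φ z).1)⁻¹ * (un q (φ z).2.2.1 * (un q (φ z).2.2.2)⁻¹) = un q z.1 * (un q z.2)⁻¹ := by
        rw [u1, u2]
        show (un q (ms (sm z.2)) * (un q (ms (sm z.1)))⁻¹)⁻¹ * (un q (ro z.1 / tt z) * (un q (ro z.2 / tt z))⁻¹) = _
        rw [mul_inv_rev, inv_inv, mul_inv_rev, mul_inv_rev]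
        have h9 : un q (ms (sm z.1)) * (un q (tt z) * un q (ro z.1 / tt z)) *
            ((un q (ro z.2 / tt z))⁻¹ * (un q (tt z))⁻¹ * (un q (ms (sm z.2)))⁻¹) =
            (un q (tt z) * (un q (tt z))⁻¹) * (un q (ms (sm z.1)) * (un q (ms (sm z.2)))⁻¹ *
              (un q (ro z.1 / tt z) * (un q (ro z.2 / tt z))⁻¹)) := by
          simp only [mul_comm, mul_left_comm, mul_assoc]
        rw [h9, mul_inv_cancel, one_mul]
      rw [e]
      exact hG
  have hinj : ∀ z ∈ PP G Y, ∀ z' ∈ PP G Y, φ z = φ z' → z = z' := by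
    intro z hz z' hz' h
    rw [mem_PP] at hz hz'
    rw [hφ] at h
    simp only [Prod.mk.injEq] at h
    obtain ⟨⟨h1, h2⟩, h3, h4, h5⟩ := h
    have e1 : ro z.1 = ro z'.1 := by rw [← hq1 z, ← hq1 z', h3]; rw [← h3, h4, h3]
    have e2 : ro z.2 = ro z'.2 := by rw [← hq2 z, ← hq2 z', h3]; rw [← h3, h5, h3]
    apply Prod.ext
    · rw [← hsplit z.1 hz.2.1, ← hsplit z'.1 hz'.2.1, h1, e1]
    · rw [← hsplit z.2 hz.2.2.1, ← hsplit z'.2 hz'.2.2.1, h2, e2]
  have hval : ∀ z ∈ PP G Y, rs z.1 * rs z.2 = gg (φ z) := by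
    intro z hz
    rw [mem_PP] at hz
    have s1 := hsplit z.1 hz.2.1
    have s2 := hsplit z.2 hz.2.2.1
    show _ = rs (ms (sm z.1)) * rs (ms (sm z.2)) * ((1 / ((tt z : ℕ) : ℝ)) * (rs (ro z.1 / tt z) * rs (ro z.2 / tt z)))
    have e1 : rs z.1 = rs (ms (sm z.1)) * (rs (tt z) * rs (ro z.1 / tt z)) := by
      rw [← rs_mul, hq1, ← rs_mul, s1]
    have e2 : rs z.2 = rs (ms (sm z.2)) * (rs (tt z) * rs (ro z.2 / tt z)) := by
      rw [← rs_mul, hq2, ← rs_mul, s2]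
    have e3 : (1 / ((tt z : ℕ) : ℝ)) = rs (tt z) ^ 2 := rs_sq.symm
    rw [e1, e2, e3]
    ring
  have hgg0 : ∀ x, 0 ≤ gg x := by
    intro x
    rw [hgg]
    have a1 := rs_nonneg (ms x.1.1)
    have a2 := rs_nonneg (ms x.1.2)
    have a3 := rs_nonneg x.2.2.1
    have a4 := rs_nonneg x.2.2.2
    positivity
  have step1 : ∑ z ∈ PP G Y, rs z.1 * rs z.2 ≤ ∑ x ∈ 𝒯, gg x := by
    rw [Finset.sum_congr rfl hval]
    have e : ∑ z ∈ PP G Y, gg (φ z) = ∑ x ∈ (PP G Y).image φ, gg x := by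
      rw [Finset.sum_image]
      intro z hz z' hz' h
      exact hinj z hz z' hz' h
    rw [e]
    apply Finset.sum_le_sum_of_subset_of_nonneg
    · intro x hx
      obtain ⟨z, hz, rfl⟩ := mem_image.1 hx
      exact hmem z hz
    · intro x _ _
      exact hgg0 x
  refine step1.trans ?_
  rw [h𝒯, Finset.sum_filter, Finset.sum_product]
  have hR0 : 0 ≤ R := by
    refine le_trans ?_ (hR 1)
    exact Finset.sum_nonneg fun w _ => mul_nonneg (rs_nonneg _) (rs_nonneg _)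
  have step2 : ∀ a ∈ (Pr Z).powerset ×ˢ (Pr Z).powerset,
      ∑ y ∈ (Icc 1 Y) ×ˢ ((Icc 1 Y) ×ˢ (Icc 1 Y)), (if (a, y).2.2 ∈ RP G (cc (a, y).1) Z Y then gg (a, y) else 0) ≤
        (rs (ms a.1) * rs (ms a.2)) * ((∑ t ∈ Icc 1 Y, 1 / (t : ℝ)) * R) := by
    intro a _
    rw [Finset.sum_product]
    have step3 : ∀ t ∈ Icc 1 Y, ∑ w ∈ (Icc 1 Y) ×ˢ (Icc 1 Y),
        (if (a, (t, w)).2.2 ∈ RP G (cc (a, (t, w)).1) Z Y then gg (a, (t, w)) else 0) ≤
        (rs (ms a.1) * rs (ms a.2)) * (1 / (t : ℝ) * R) := by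
      intro t _
      have e1 : ∑ w ∈ (Icc 1 Y) ×ˢ (Icc 1 Y),
        (if (a, (t, w)).2.2 ∈ RP G (cc (a, (t, w)).1) Z Y then gg (a, (t, w)) else 0) =
        (rs (ms a.1) * rs (ms a.2)) * (1 / (t : ℝ) * ∑ w ∈ RP G (cc a) Z Y, rs w.1 * rs w.2) := by
        rw [Finset.mul_sum, Finset.mul_sum]
        have e2 : RP G (cc a) Z Y = ((Icc 1 Y) ×ˢ (Icc 1 Y)).filter (fun w => w ∈ RP G (cc a) Z Y) := by
          ext w
          rw [mem_filter]
          constructor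
          · intro h
            refine ⟨?_, h⟩
            have h' := mem_RP.1 h
            rw [mem_product, mem_Icc, mem_Icc]
            exact h'.1
          · exact fun h => h.2
        rw [e2, Finset.sum_filter]
      rw [e1]
      apply mul_le_mul_of_nonneg_left _ (mul_nonneg (rs_nonneg _) (rs_nonneg _))
      exact mul_le_mul_of_nonneg_left (hR _) (by positivity)
    refine (Finset.sum_le_sum step3).trans (le_of_eq ?_)
    rw [← Finset.mul_sum, ← Finset.sum_mul]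
  refine (Finset.sum_le_sum step2).trans (le_of_eq ?_)
  rw [← Finset.sum_mul]
  congr 1
  rw [Finset.sum_product, sq, ← sum_rs_ms', Finset.sum_mul_sum]

end Pool.Agent.K4H2.EC
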