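import Mathlib
import Pool.Agent.K4H2.EC.D
import Pool.Agent.K4H2.EC.E4

/-! Nonvanishing in every coset with a good lower bound: the choice of the parameters. -/

set_option autoImplicit false

namespace Pool.Agent.K4H2.EC
open Finset Pool.Agent.R311.RES Pool.Agent.K4H49.AC Filter Topology
open scoped Classical

section
variable {q : ℕ} [Fact q.Prime]

/-- **Many values in the coset are not small**, in terms of the second moment of the mollifier. -/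
theorem count_SS2 (H : Subgroup (DirichletCharacter ℂ q)) (χ₀ : DirichletCharacter ℂ q) (Y : ℕ) (hY : 1 ≤ Y)
    (hYq : Y < q) (t V : ℝ) (ht0 : 0 ≤ t) (hV : 0 ≤ V) (ht : t * V ≤ 1 / 4)
    (hM2 : ∑ ψ : H, ‖MM q ∅ Y (χ₀ * (ψ : DirichletCharacter ℂ q))‖ ^ 2 ≤ (Fintype.card H : ℝ) * V ^ 2)
    (hE : Er H Y ≤ 1 / 4) :
    (Fintype.card H : ℝ) ^ 2 ≤ 64 * Y * (q * (1 + Real.log q)) * (SS H χ₀ t).card := by
  have hq : q.Prime := Fact.out
  have hq1 : (1 : ℝ) ≤ q := by exact_mod_cast hq.one_lt.le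
  have hlq : 0 ≤ Real.log q := Real.log_nonneg hq1
  have hH0 : (0 : ℝ) < Fintype.card H := by
    have : 0 < Fintype.card H := Fintype.card_pos
    exact_mod_cast this
  have hY0 : (0 : ℝ) ≤ Y := Nat.cast_nonneg _
  set L : H → ℂ := fun ψ => DirichletCharacter.LFunction (χ₀ * (ψ : DirichletCharacter ℂ q)) (1 / 2) with hL
  set M : H → ℂ := fun ψ => MM q ∅ Y (χ₀ * (ψ : DirichletCharacter ℂ q)) with hM
  have hMn : ∀ ψ, ‖M ψ‖ ≤ 2 * Real.sqrt Y := fun ψ => MM_norm Y _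
  have hMsum : ∑ ψ : H, ‖M ψ‖ ≤ (Fintype.card H : ℝ) * V := by
    have h1 : (∑ ψ : H, ‖M ψ‖) ^ 2 ≤ ((Fintype.card H : ℝ) * V) ^ 2 := by
      refine sq_sum_le_card_mul_sum_sq.trans ?_
      rw [card_univ, mul_pow, sq (Fintype.card H : ℝ), mul_assoc]
      exact mul_le_mul_of_nonneg_left hM2 hH0.le
    exact le_of_pow_le_pow_left₀ (by norm_num) (by positivity) h1
  have h1 : (3 / 4 : ℝ) * Fintype.card H ≤ ∑ ψ : H, ‖L ψ‖ * ‖M ψ‖ := by
    have h2 := moment_err H χ₀ Y hY hYq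
    have h3 : (Fintype.card H : ℝ) - ‖∑ ψ : H, L ψ * M ψ‖ ≤ (Fintype.card H : ℝ) * (1 / 4) := by
      have h4 : (Fintype.card H : ℝ) - ‖∑ ψ : H, L ψ * M ψ‖ ≤ ‖∑ ψ : H, L ψ * M ψ - (Fintype.card H : ℂ)‖ := by
        have := norm_sub_norm_le (Fintype.card H : ℂ) (∑ ψ : H, L ψ * M ψ)
        rw [Complex.norm_natCast, norm_sub_rev (Fintype.card H : ℂ)] at this
        exact this
      refine h4.trans (h2.trans ?_)
      exact mul_le_mul_of_nonneg_left hE hH0.le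
    have h5 : ‖∑ ψ : H, L ψ * M ψ‖ ≤ ∑ ψ : H, ‖L ψ‖ * ‖M ψ‖ := by
      refine (norm_sum_le _ _).trans (le_of_eq ?_)
      apply Finset.sum_congr rfl
      intro ψ _
      rw [norm_mul]
    linarith
  have h2 : ∑ ψ ∈ univ.filter (fun ψ : H => ¬ t ≤ ‖L ψ‖), ‖L ψ‖ * ‖M ψ‖ ≤ (1 / 4 : ℝ) * Fintype.card H := by
    have h3 : ∀ ψ ∈ univ.filter (fun ψ : H => ¬ t ≤ ‖L ψ‖), ‖L ψ‖ * ‖M ψ‖ ≤ t * ‖M ψ‖ := by
      intro ψ hψ
      rw [mem_filter, not_le] at hψ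
      exact mul_le_mul_of_nonneg_right hψ.2.le (norm_nonneg _)
    refine (Finset.sum_le_sum h3).trans ?_
    rw [← Finset.mul_sum]
    have h4 : ∑ ψ ∈ univ.filter (fun ψ : H => ¬ t ≤ ‖L ψ‖), ‖M ψ‖ ≤ ∑ ψ : H, ‖M ψ‖ :=
      Finset.sum_le_sum_of_subset_of_nonneg (filter_subset _ _) (fun _ _ _ => norm_nonneg _)
    calc t * ∑ ψ ∈ univ.filter (fun ψ : H => ¬ t ≤ ‖L ψ‖), ‖M ψ‖ ≤ t * ((Fintype.card H : ℝ) * V) :=
          mul_le_mul_of_nonneg_left (h4.trans hMsum) ht0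
      _ = (t * V) * Fintype.card H := by ring
      _ ≤ _ := mul_le_mul_of_nonneg_right ht hH0.le
  have h3 : (1 / 2 : ℝ) * Fintype.card H ≤ ∑ ψ ∈ SS H χ₀ t, ‖L ψ‖ * ‖M ψ‖ := by
    have h4 := Finset.sum_filter_add_sum_filter_not univ (fun ψ : H => t ≤ ‖L ψ‖) (fun ψ => ‖L ψ‖ * ‖M ψ‖)
    have h5 : SS H χ₀ t = univ.filter (fun ψ : H => t ≤ ‖L ψ‖) := rfl
    rw [h5]
    linarith
  have h4 : ∑ ψ ∈ SS H χ₀ t, ‖L ψ‖ * ‖M ψ‖ ≤ 2 * Real.sqrt Y * ∑ ψ ∈ SS H χ₀ t, ‖L ψ‖ := by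
    rw [Finset.mul_sum]
    apply Finset.sum_le_sum
    intro ψ _
    rw [mul_comm]
    exact mul_le_mul_of_nonneg_right (hMn ψ) (norm_nonneg _)
  have h5 : (∑ ψ ∈ SS H χ₀ t, ‖L ψ‖) ^ 2 ≤ (SS H χ₀ t).card * (4 * q * (1 + Real.log q)) := by
    refine sq_sum_le_card_mul_sum_sq.trans ?_
    apply mul_le_mul_of_nonneg_left _ (Nat.cast_nonneg _)
    refine le_trans ?_ L_second
    have h6 : ∑ ψ ∈ SS H χ₀ t, ‖L ψ‖ ^ 2 = ∑ χ ∈ (SS H χ₀ t).image (fun ψ : H => χ₀ * (ψ : DirichletCharacter ℂ q)),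
        ‖DirichletCharacter.LFunction χ (1 / 2)‖ ^ 2 := by
      rw [Finset.sum_image (fun u _ v _ huv => Subtype.ext (mul_left_cancel huv))]
    rw [h6]
    exact Finset.sum_le_sum_of_subset_of_nonneg (subset_univ _) (fun _ _ _ => by positivity)
  set A : ℝ := ∑ ψ ∈ SS H χ₀ t, ‖L ψ‖ with hA
  have hA0 : 0 ≤ A := Finset.sum_nonneg fun _ _ => norm_nonneg _
  have h7 : (1 / 2 : ℝ) * Fintype.card H ≤ 2 * Real.sqrt Y * A := h3.trans h4
  have h8 : ((1 / 2 : ℝ) * Fintype.card H) ^ 2 ≤ (2 * Real.sqrt Y * A) ^ 2 :=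
    pow_le_pow_left₀ (by positivity) h7 2
  have h9 : (2 * Real.sqrt Y * A) ^ 2 = 4 * Y * A ^ 2 := by
    rw [mul_pow, mul_pow, Real.sq_sqrt hY0]; ring
  rw [h9] at h8
  have h10 : 4 * Y * A ^ 2 ≤ 4 * Y * ((SS H χ₀ t).card * (4 * q * (1 + Real.log q))) :=
    mul_le_mul_of_nonneg_left h5 (by positivity)
  calc (Fintype.card H : ℝ) ^ 2 = 4 * ((1 / 2 : ℝ) * Fintype.card H) ^ 2 := by ring
    _ ≤ 4 * (4 * Y * ((SS H χ₀ t).card * (4 * q * (1 + Real.log q)))) := by linarith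
    _ = _ := by ring

/-- the order of the annihilator -/
lemma ann_le2 (H : Subgroup (DirichletCharacter ℂ q)) {β c ν : ℝ} (hc : 0 < c)
    (hH : c * (q : ℝ) ^ β ≤ (Nat.card H : ℝ)) (hq : 1 / c ≤ (q : ℝ) ^ ν) :
    (Fintype.card (ann H) : ℝ) ≤ (q : ℝ) ^ (1 - β + ν) := by
  have hq0 : (0 : ℝ) < q := by exact_mod_cast (Nat.Prime.pos Fact.out : 0 < q)
  rw [Nat.card_eq_fintype_card] at hH
  have h1 := card_mul H
  have h2 : c * (q : ℝ) ^ β * (Fintype.card (ann H) : ℝ) ≤ q := by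
    have := mul_le_mul_of_nonneg_right hH (Nat.cast_nonneg (α := ℝ) (Fintype.card (ann H)))
    linarith
  have hp : 0 < (q : ℝ) ^ β := Real.rpow_pos_of_pos hq0 _
  have hm : 0 < (q : ℝ) ^ ν := Real.rpow_pos_of_pos hq0 _
  have h3 : (q : ℝ) = (q : ℝ) ^ β * ((q : ℝ) ^ (1 - β + ν) * ((q : ℝ) ^ ν)⁻¹) := by
    rw [← Real.rpow_neg hq0.le, ← Real.rpow_add hq0, ← Real.rpow_add hq0]
    rw [show β + (1 - β + ν + -ν) = (1 : ℝ) by ring, Real.rpow_one]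
  have h4 : ((q : ℝ) ^ ν)⁻¹ ≤ c := by
    rw [inv_le_comm₀ hm hc, ← one_div]
    exact hq
  have h5 : c * (q : ℝ) ^ β * (Fintype.card (ann H) : ℝ) ≤ c * (q : ℝ) ^ β * (q : ℝ) ^ (1 - β + ν) := by
    refine h2.trans ?_
    calc (q : ℝ) = (q : ℝ) ^ β * ((q : ℝ) ^ (1 - β + ν) * ((q : ℝ) ^ ν)⁻¹) := h3
      _ ≤ (q : ℝ) ^ β * ((q : ℝ) ^ (1 - β + ν) * c) := by
          apply mul_le_mul_of_nonneg_left _ hp.le
          exact mul_le_mul_of_nonneg_left h4 (by positivity)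
      _ = _ := by ring
  exact le_of_mul_le_mul_left h5 (by positivity)

end

lemma prod_Pr_le (Z : ℕ) : ∏ p ∈ Pr Z, (1 + rs p) ≤ Real.exp (2 * Real.sqrt Z) := by
  calc ∏ p ∈ Pr Z, (1 + rs p) ≤ ∏ p ∈ Pr Z, Real.exp (rs p) := by
        apply Finset.prod_le_prod
        · intro p _
          have := rs_nonneg p
          linarith
        · intro p _
          have := Real.add_one_le_exp (rs p)
          linarith
    _ = Real.exp (∑ p ∈ Pr Z, rs p) := (Real.exp_sum _ _).symm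
    _ ≤ Real.exp (2 * Real.sqrt Z) := by
        rw [Real.exp_le_exp]
        refine le_trans ?_ (sum_rs Z)
        exact Finset.sum_le_sum_of_subset_of_nonneg (filter_subset _ _) (fun p _ _ => rs_nonneg p)

/-- **Nonvanishing in every coset, with the natural lower bound.** -/
theorem nonvanishing2 (β c ε τ : ℝ) (hβ : 2 / 3 < β) (hβ1 : β ≤ 1) (hc : 0 < c) (hε : 0 < ε)
    (hτ : 1 / (2 * β) < τ) : ∃ q₀ : ℕ,
    ∀ (q : ℕ) [Fact q.Prime], q₀ ≤ q → ∀ (H : Subgroup (DirichletCharacter ℂ q)) (χ₀ : DirichletCharacter ℂ q),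
      c * (q : ℝ) ^ β ≤ (Nat.card H : ℝ) →
      (q : ℝ) ^ (2 * β - 1 - ε) ≤ (SS H χ₀ (Real.exp (-(Real.log q ^ τ)))).card := by
  have hβ0 : 0 < β := by linarith
  have hb : 1 / 2 ≤ 1 / (2 * β) := one_div_le_one_div_of_le (by positivity) (by linarith)
  set τ₁ : ℝ := (τ + 1 / (2 * β)) / 2 with hτ₁
  have t1 : 1 / (2 * β) < τ₁ := by rw [hτ₁]; linarith
  have t2 : τ₁ < τ := by rw [hτ₁]; linarith
  have t3 : 1 / 2 < τ₁ := by linarith
  have t4 : 1 / (2 * τ₁) < β := by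
    rw [div_lt_iff₀ (by positivity)] at t1 ⊢
    linarith
  set κ₀ : ℝ := β - 1 / (2 * τ₁) with hκ₀
  have hκ₀0 : 0 < κ₀ := by rw [hκ₀]; linarith
  set μ : ℝ := (β - 2 / 3) / 2 with hμ
  have hμ0 : 0 < μ := by rw [hμ]; linarith
  set ν : ℝ := min (κ₀ / 2) μ with hν
  have hν0 : 0 < ν := lt_min (by positivity) hμ0
  have hνκ : ν ≤ κ₀ / 2 := min_le_left _ _
  have hνμ : ν ≤ μ := min_le_right _ _
  set α : ℝ := 1 - β + ν with hα
  have hα0 : 0 ≤ α := by rw [hα]; linarith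
  have hαμ : α ≤ 1 / 3 - μ := by rw [hα]; linarith
  obtain ⟨η₁, hη₁, hη₂, q₁, hR⟩ := R_bound α τ₁ (κ₀ / 2) hα0 (by linarith) t3 (by positivity)
    (by rw [hα]; linarith)
  set η : ℝ := min η₁ (ε / 2) with hη
  have hη0 : 0 < η := lt_min hη₁ (by positivity)
  have hηε : η ≤ ε / 2 := min_le_right _ _
  have hηη : η ≤ η₁ := min_le_left _ _
  have hη12 : η ≤ 1 / 12 := hηη.trans hη₂
  obtain ⟨ε₁, hε₁, -, q₂, hfew⟩ := few_G μ η hμ0 hη0
  have e1 : ∀ a : ℝ, 0 < a → ∀ b : ℝ, ∀ᶠ q : ℕ in atTop, b ≤ (q : ℝ) ^ a := fun a ha b =>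
    ((tendsto_rpow_atTop ha).comp tendsto_natCast_atTop_atTop).eventually_ge_atTop b
  have tl : Tendsto (fun q : ℕ => Real.log (q : ℝ)) atTop atTop :=
    Real.tendsto_log_atTop.comp tendsto_natCast_atTop_atTop
  have e2 : ∀ a : ℝ, 0 < a → ∀ b : ℝ, ∀ᶠ q : ℕ in atTop, b ≤ Real.log (q : ℝ) ^ a := fun a ha b =>
    ((tendsto_rpow_atTop ha).comp tl).eventually_ge_atTop b
  set C : ℝ := max (64 / c ^ 2) 1 with hC
  have hC0 : 0 < C := lt_max_of_lt_right one_pos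
  have e3 : ∀ᶠ q : ℕ in atTop, C * (1 + C * Real.log (q : ℝ)) ≤ (q : ℝ) ^ (ε / 2) :=
    tendsto_natCast_atTop_atTop.eventually (ev_log_small C (ε / 2) (by positivity))
  obtain ⟨q₃, hq₃⟩ := eventually_atTop.1 ((e1 ν hν0 (1 / c)).and ((e1 ε₁ hε₁ 8).and ((e1 (1 / 12) (by norm_num) 32).and
    ((e2 (τ - τ₁) (by linarith) 6).and ((e1 η hη0 2).and (e3.and ((tl.eventually (ev_poly_exp τ₁ (by linarith) 3)).and
      (tl.eventually_ge_atTop 10))))))))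
  refine ⟨max (max 3 q₁) (max q₂ q₃), fun q _ hqq H χ₀ hH => ?_⟩
  have hq : q.Prime := Fact.out
  have hqq1 : q₁ ≤ q := (le_max_right _ _).trans ((le_max_left _ _).trans hqq)
  have hqq2 : q₂ ≤ q := (le_max_left _ _).trans ((le_max_right _ _).trans hqq)
  have hq3 : 3 ≤ q := (le_max_left _ _).trans ((le_max_left _ _).trans hqq)
  obtain ⟨a1, a2, a3, a4, a5, a6, a7, a8⟩ := hq₃ q ((le_max_right _ _).trans ((le_max_right _ _).trans hqq))
  have hq0 : (0 : ℝ) < q := by exact_mod_cast hq.pos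
  have hq1 : (1 : ℝ) < q := by exact_mod_cast hq.one_lt
  set Lq : ℝ := Real.log q with hLq
  have hlq : 0 ≤ Lq := Real.log_nonneg hq1.le
  have hGα := ann_le2 H hc hH a1
  rw [← hα] at hGα
  have hG : (Fintype.card (ann H) : ℝ) ≤ (q : ℝ) ^ (1 / 3 - μ) :=
    hGα.trans (Real.rpow_le_rpow_of_exponent_le hq1.le hαμ)
  have hqη : 0 < (q : ℝ) ^ η := Real.rpow_pos_of_pos hq0 _
  set Y : ℕ := ⌊(q : ℝ) ^ η⌋₊ with hY
  have hYle : (Y : ℝ) ≤ (q : ℝ) ^ η := Nat.floor_le hqη.le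
  have hYge : (q : ℝ) ^ η / 2 ≤ Y := by
    have := Nat.lt_floor_add_one ((q : ℝ) ^ η)
    rw [← hY] at this
    linarith
  have hY1 : 1 ≤ Y := Nat.le_floor (by push_cast; linarith)
  have hYq : Y < q := by
    have : (Y : ℝ) < q := by
      refine lt_of_le_of_lt hYle ?_
      calc (q : ℝ) ^ η < (q : ℝ) ^ (1 : ℝ) := Real.rpow_lt_rpow_of_exponent_lt hq1 (by linarith)
        _ = q := Real.rpow_one _
    exact_mod_cast this
  have hinv : ∀ {a b : ℝ}, 0 < b → b ≤ (q : ℝ) ^ a → (q : ℝ) ^ (-a) ≤ 1 / b := by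
    intro a b hb h
    rw [Real.rpow_neg hq0.le, one_div]
    exact inv_anti₀ hb h
  have hE : Er H Y ≤ 1 / 4 := by
    unfold Er
    have h1 := hfew q hqq2 (ann H) hG Y hYge
    have h2 : (q : ℝ) ^ (-ε₁) ≤ 1 / 8 := hinv (by norm_num) a2
    have h3 : 4 * (Y : ℝ) * rs q * Fintype.card (ann H) ≤ 1 / 8 := by
      rw [rs_rpow]
      calc 4 * (Y : ℝ) * (q : ℝ) ^ (-(1 / 2 : ℝ)) * Fintype.card (ann H) ≤
            4 * (q : ℝ) ^ η * (q : ℝ) ^ (-(1 / 2 : ℝ)) * (q : ℝ) ^ (1 / 3 - μ) := by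
            apply mul_le_mul _ hG (Nat.cast_nonneg _) (by positivity)
            apply mul_le_mul_of_nonneg_right _ (by positivity)
            linarith
        _ = 4 * (q : ℝ) ^ (η - 1 / 6 - μ) := by
            rw [mul_assoc, mul_assoc, ← Real.rpow_add hq0, ← Real.rpow_add hq0]
            congr 2; ring
        _ ≤ 4 * (q : ℝ) ^ (-(1 / 12 : ℝ)) := by
            apply mul_le_mul_of_nonneg_left _ (by norm_num)
            exact Real.rpow_le_rpow_of_exponent_le hq1.le (by linarith)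
        _ ≤ 4 * (1 / 32) := by
            apply mul_le_mul_of_nonneg_left _ (by norm_num)
            exact hinv (by norm_num) a3
        _ = 1 / 8 := by norm_num
    linarith
  -- the second moment of the mollifier
  set E : ℝ := Lq ^ τ₁ with hEdef
  have hE1 : 1 ≤ E := Real.one_le_rpow (by linarith) (by linarith)
  set Z : ℕ := ⌈Lq ^ (2 * τ₁)⌉₊ with hZ
  have hZge : Lq ^ (2 * τ₁) ≤ Z := Nat.le_ceil _
  have hZsq : Real.sqrt Z ≤ E + 1 := by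
    rw [Real.sqrt_le_left (by linarith)]
    have h1 : (Z : ℝ) < Lq ^ (2 * τ₁) + 1 := Nat.ceil_lt_add_one (Real.rpow_nonneg hlq _)
    have h2 : Lq ^ (2 * τ₁) = E ^ 2 := by
      rw [hEdef, ← Real.rpow_natCast (Lq ^ τ₁) 2, ← Real.rpow_mul hlq]
      congr 1; push_cast; ring
    rw [h2] at h1
    nlinarith
  have hYη₁ : (Y : ℝ) ≤ (q : ℝ) ^ η₁ := hYle.trans (Real.rpow_le_rpow_of_exponent_le hq1.le hηη)
  have hM2 : ∑ ψ : H, ‖MM q ∅ Y (χ₀ * (ψ : DirichletCharacter ℂ q))‖ ^ 2 ≤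
      (Fintype.card H : ℝ) * (Real.exp (4 * E)) ^ 2 := by
    refine (second_M H χ₀ Y).trans ?_
    apply mul_le_mul_of_nonneg_left _ (Nat.cast_nonneg _)
    refine (PP_bound (ann H) Z Y hYq (Real.exp (3 * E)) (fun c' => hR q hqq1 (ann H) hGα c' Z Y hYη₁ hZge)).trans ?_
    have h1 : (∏ p ∈ Pr Z, (1 + rs p)) ^ 2 ≤ Real.exp (4 * (E + 1)) := by
      have h2 : 0 ≤ ∏ p ∈ Pr Z, (1 + rs p) := Finset.prod_nonneg fun p _ => by
        have := rs_nonneg p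
        linarith
      refine (pow_le_pow_left₀ h2 (prod_Pr_le Z) 2).trans ?_
      rw [← Real.exp_nat_mul, Real.exp_le_exp]
      push_cast
      linarith
    have h3 : ∑ t ∈ Icc 1 Y, 1 / (t : ℝ) ≤ 1 + Lq := harm_le Y hq1.le (by exact_mod_cast hYq.le)
    have h4 : Real.exp 4 * (1 + Lq) ≤ Real.exp E := by
      refine le_trans ?_ a7
      have h5 : Real.exp 4 ≤ 81 := by
        have h6 : Real.exp 1 ≤ 3 := by linarith [Real.exp_one_lt_d9]
        have h7 : Real.exp 4 = Real.exp 1 ^ 4 := by rw [← Real.exp_nat_mul]; norm_num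
        rw [h7]
        calc Real.exp 1 ^ 4 ≤ 3 ^ 4 := pow_le_pow_left₀ (Real.exp_pos _).le h6 4
          _ = 81 := by norm_num
      have h8 : Real.exp 4 * (1 + Lq) ≤ 81 * (1 + Lq) := mul_le_mul_of_nonneg_right h5 (by linarith)
      have h9 : 81 * (1 + Lq) ≤ Lq ^ 3 := by
        nlinarith [mul_self_nonneg (Lq - 10), mul_nonneg (show 0 ≤ Lq - 10 by linarith) (show 0 ≤ Lq by linarith)]
      linarith
    calc (∏ p ∈ Pr Z, (1 + rs p)) ^ 2 * ((∑ t ∈ Icc 1 Y, 1 / (t : ℝ)) * Real.exp (3 * E)) ≤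
          Real.exp (4 * (E + 1)) * ((1 + Lq) * Real.exp (3 * E)) := by
          apply mul_le_mul h1 _ (by positivity) (Real.exp_pos _).le
          exact mul_le_mul_of_nonneg_right h3 (Real.exp_pos _).le
      _ = (Real.exp 4 * (1 + Lq)) * (Real.exp (4 * E) * Real.exp (3 * E)) := by
          rw [show 4 * (E + 1) = 4 + 4 * E by ring, Real.exp_add]; ring
      _ ≤ Real.exp E * (Real.exp (4 * E) * Real.exp (3 * E)) :=
          mul_le_mul_of_nonneg_right h4 (by positivity)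
      _ = (Real.exp (4 * E)) ^ 2 := by
          rw [← Real.exp_add, ← Real.exp_add, ← Real.exp_nat_mul]
          congr 1; push_cast; ring
  have ht : Real.exp (-(Lq ^ τ)) * Real.exp (4 * E) ≤ 1 / 4 := by
    rw [← Real.exp_add]
    have h1 : 6 * E ≤ Lq ^ τ := by
      have h2 : Lq ^ τ = Lq ^ (τ - τ₁) * E := by
        rw [hEdef, ← Real.rpow_add (by linarith)]; congr 1; ring
      rw [h2]
      exact mul_le_mul_of_nonneg_right a4 (by linarith)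
    have h3 : Real.exp (-(Lq ^ τ) + 4 * E) ≤ Real.exp (-2) := Real.exp_le_exp.2 (by linarith)
    refine h3.trans ?_
    have h4 : (4 : ℝ) ≤ Real.exp 2 := by
      have h5 : (2 : ℝ) ≤ Real.exp 1 := by have := Real.add_one_le_exp (1 : ℝ); linarith
      have h6 : Real.exp 2 = Real.exp 1 ^ 2 := by rw [← Real.exp_nat_mul]; norm_num
      rw [h6]
      nlinarith
    rw [Real.exp_neg, one_div]
    exact inv_anti₀ (by norm_num) h4
  have hmain := count_SS2 H χ₀ Y hY1 hYq _ _ (Real.exp_pos _).le (Real.exp_pos _).le ht hM2 hE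
  rw [Nat.card_eq_fintype_card] at hH
  have hqβ : 0 < (q : ℝ) ^ β := Real.rpow_pos_of_pos hq0 _
  have h1 : (c * (q : ℝ) ^ β) ^ 2 ≤ (Fintype.card H : ℝ) ^ 2 := pow_le_pow_left₀ (by positivity) hH 2
  have h2 : 64 * (Y : ℝ) * (q * (1 + Lq)) ≤ c ^ 2 * (q : ℝ) ^ (1 + ε) := by
    have h3 : 64 * (1 + Lq) ≤ c ^ 2 * (q : ℝ) ^ (ε / 2) := by
      have h4 : 64 / c ^ 2 * (1 + 1 * Lq) ≤ C * (1 + C * Lq) := by
        apply mul_le_mul (le_max_left _ _) _ (by positivity) hC0.le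
        have := mul_le_mul_of_nonneg_right (show (1 : ℝ) ≤ C from le_max_right _ _) hlq
        linarith
      have h5 := h4.trans a6
      rw [one_mul, div_mul_eq_mul_div, div_le_iff₀ (by positivity)] at h5
      linarith
    have h6 : (q : ℝ) ^ (1 + ε) = (q : ℝ) ^ (ε / 2) * q * (q : ℝ) ^ (ε / 2) := by
      rw [show 1 + ε = ε / 2 + 1 + ε / 2 by ring, Real.rpow_add hq0, Real.rpow_add hq0, Real.rpow_one]
    have h7 : (Y : ℝ) ≤ (q : ℝ) ^ (ε / 2) := hYle.trans (Real.rpow_le_rpow_of_exponent_le hq1.le hηε)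
    calc 64 * (Y : ℝ) * (q * (1 + Lq)) = (64 * (1 + Lq)) * q * Y := by ring
      _ ≤ (c ^ 2 * (q : ℝ) ^ (ε / 2)) * q * (q : ℝ) ^ (ε / 2) := by
          apply mul_le_mul _ h7 (Nat.cast_nonneg _) (by positivity)
          exact mul_le_mul_of_nonneg_right h3 hq0.le
      _ = _ := by rw [h6]; ring
  set S : ℝ := ((SS H χ₀ (Real.exp (-(Lq ^ τ)))).card : ℝ) with hS
  have hS0 : 0 ≤ S := Nat.cast_nonneg _
  have h3 : (c * (q : ℝ) ^ β) ^ 2 ≤ c ^ 2 * (q : ℝ) ^ (1 + ε) * S :=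
    h1.trans (hmain.trans (mul_le_mul_of_nonneg_right h2 hS0))
  have h4 : (c * (q : ℝ) ^ β) ^ 2 = c ^ 2 * (q : ℝ) ^ (1 + ε) * (q : ℝ) ^ (2 * β - 1 - ε) := by
    rw [mul_pow, ← Real.rpow_natCast ((q : ℝ) ^ β) 2, ← Real.rpow_mul hq0.le, mul_assoc, ← Real.rpow_add hq0]
    congr 2
    push_cast
    ring
  rw [h4] at h3
  exact le_of_mul_le_mul_left h3 (by positivity)

end Pool.Agent.K4H2.EC
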