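import Mathlib
import Pool.Agent.K4H2.EC.E3

/-! The relations between integers without small prime factors, for subgroups of order at most
`q ^ (2/5)`. -/

set_option autoImplicit false

namespace Pool.Agent.K4H2.EC
open Finset Pool.Agent.R311.RES Pool.Agent.K4H49.AC Filter Topology
open scoped Classical

variable {q : ℕ} [Fact q.Prime]

/-- one cell -/
theorem cell25 (G : Subgroup (ZMod q)ˣ) (c : (ZMod q)ˣ) (α τ κ : ℝ) (hα0 : 0 ≤ α) (hα : α ≤ 2 / 5) (hτ : 1 / 2 < τ)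
    (hκ0 : 0 < κ) (hκ : α + 1 / (2 * τ) + κ ≤ 1) (hG : (Fintype.card G : ℝ) ≤ (q : ℝ) ^ α)
    (L₀ : ℕ) (hL3 : 4 ≤ L₀) (hLκ : 2 / κ ≤ L₀) (Λ : ℝ) (hΛ : Λ = Real.log (Real.log q)) (hΛ1 : 1 ≤ Λ)
    (hΛκ : Real.log 2 / Λ ≤ κ / 2)
    (Z Y : ℕ) (hZ : Real.log q ^ (2 * τ) ≤ Z) (i j : ℕ) (hij : 1 ≤ i + j)
    (hXL : (2 ^ (i + j + 2)) ^ L₀ ≤ q - 1) :
    ∑ w ∈ (RP G c Z Y).filter (fun w => Nat.log 2 w.1 = i ∧ Nat.log 2 w.2 = j), rs w.1 * rs w.2 ≤
      2 * Real.exp (2 * Real.log q ^ τ) := by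
  have hq : q.Prime := Fact.out
  have hq0 : (0 : ℝ) < q := by exact_mod_cast hq.pos
  have hq2 := hq.two_le
  set Lq : ℝ := Real.log q with hLq
  have hLq1 : 1 ≤ Lq := by
    by_contra hcon
    push Not at hcon
    have h1 : 0 < Lq := Real.log_pos (by exact_mod_cast hq.one_lt)
    have h2 : Λ < 0 := by rw [hΛ]; exact Real.log_neg h1 hcon
    linarith
  have hLq0 : 0 < Lq := by linarith
  have hτ0 : 0 < τ := by linarith
  have hΛ0 : 0 < Λ := by linarith
  have hLqΛ : Lq = Real.exp Λ := by rw [hΛ, Real.exp_log hLq0]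
  have hrp : ∀ r : ℝ, Lq ^ r = Real.exp (r * Λ) := by
    intro r
    rw [Real.rpow_def_of_pos hLq0, ← hΛ, mul_comm]
  have hlogZ : 2 * τ * Λ ≤ Real.log Z := by
    have h1 := Real.log_le_log (Real.rpow_pos_of_pos hLq0 _) hZ
    rwa [hrp, Real.log_exp] at h1
  have hlogZ0 : 0 < Real.log Z := lt_of_lt_of_le (by positivity) hlogZ
  set X : ℕ := 2 ^ (i + j + 2) with hX
  have hX8 : 8 ≤ X := by
    have : 2 ^ 3 ≤ 2 ^ (i + j + 2) := Nat.pow_le_pow_right (by norm_num) (by omega)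
    simpa using this
  set l : ℕ := Nat.log X (q - 1) with hl
  have hlL : L₀ ≤ l := Nat.le_log_of_pow_le (by omega) hXL
  have hl1 : 1 ≤ l := by omega
  have hlr : (0 : ℝ) < l := by exact_mod_cast hl1
  have hXl : X ^ l < q := by
    have := Nat.pow_log_le_self X (show q - 1 ≠ 0 by omega)
    rw [← hl] at this
    omega
  have hXl1 : q ≤ X ^ (l + 1) := by
    have h9 := Nat.lt_pow_succ_log_self (show 1 < X by omega) (q - 1)
    rw [← hl] at h9
    have h10 : q - 1 < X ^ (l + 1) := h9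
    omega
  set LX : ℝ := Real.log X with hLX
  have hLXe : LX = (i + j + 2 : ℕ) * Real.log 2 := by
    rw [hLX, hX]; push_cast; rw [Real.log_pow]; push_cast; ring
  have hLX1 : 1 ≤ LX := by
    rw [hLXe]
    have h3 : (0.6 : ℝ) ≤ Real.log 2 := by linarith [Real.log_two_gt_d9]
    have h4 : (3 : ℝ) ≤ ((i + j + 2 : ℕ) : ℝ) := by exact_mod_cast (by omega : 3 ≤ i + j + 2)
    nlinarith
  have hLX0 : 0 < LX := by linarith
  have f1 : l * LX ≤ Lq := by
    have h1 : ((X ^ l : ℕ) : ℝ) ≤ q := by exact_mod_cast hXl.le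
    push_cast at h1
    have h2 := Real.log_le_log (by positivity) h1
    rwa [Real.log_pow] at h2
  have f2 : Lq ≤ (l + 1) * LX := by
    have h1 : (q : ℝ) ≤ ((X ^ (l + 1) : ℕ) : ℝ) := by exact_mod_cast hXl1
    push_cast at h1
    have h2 := Real.log_le_log hq0 h1
    rw [Real.log_pow] at h2
    push_cast at h2
    exact h2
  have h2l : 1 ≤ 2 * (l : ℝ) := by
    have : (1 : ℝ) ≤ l := by exact_mod_cast hl1
    linarith
  have hlog2l : 0 ≤ Real.log (2 * l) := Real.log_nonneg h2l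
  set M : ℝ := Real.exp (Real.log 2 - LX / 2 + LX * Real.log (2 * l) / Real.log Z) with hM
  have hmain := rel_sum2 G c ((RP G c Z Y).filter (fun w => Nat.log 2 w.1 = i ∧ Nat.log 2 w.2 = j))
    (fun w => rs w.1 * rs w.2) (fun w _ => mul_nonneg (rs_nonneg _) (rs_nonneg _))
    (fun w hw => by
      rw [mem_filter, mem_RP] at hw
      exact ⟨hw.1.1.1.1, hw.1.1.2.1⟩)
    (fun w hw => by
      rw [mem_filter, mem_RP] at hw
      exact hw.1.2.1)
    (fun w hw => by
      rw [mem_filter, mem_RP] at hw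
      exact hw.1.2.2.2)
    (2 ^ (i + 1)) (2 ^ (j + 1)) l hl1
    (fun w hw => by
      rw [mem_filter] at hw
      constructor
      · rw [← hw.2.1]; exact (Nat.lt_pow_succ_log_self (by norm_num) _).le
      · rw [← hw.2.2]; exact (Nat.lt_pow_succ_log_self (by norm_num) _).le)
    (by
      rw [← mul_pow, ← pow_add]
      have : i + 1 + (j + 1) = i + j + 2 := by ring
      rw [this]
      exact hXl) M (Real.exp_pos _).le
    (fun w hw => by
      rw [mem_filter, mem_RP] at hw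
      obtain ⟨⟨⟨⟨w1, _⟩, ⟨w2, _⟩⟩, _, hrough, _⟩, hi, hj⟩ := hw
      have hi' : 2 ^ i ≤ w.1 := by rw [← hi]; exact Nat.pow_log_le_self 2 (by omega)
      have hj' : 2 ^ j ≤ w.2 := by rw [← hj]; exact Nat.pow_log_le_self 2 (by omega)
      have hi'' : w.1 < 2 ^ (i + 1) := by rw [← hi]; exact Nat.lt_pow_succ_log_self (by norm_num) _
      have hj'' : w.2 < 2 ^ (j + 1) := by rw [← hj]; exact Nat.lt_pow_succ_log_self (by norm_num) _
      have e1 : rs w.1 * rs w.2 ≤ Real.exp (Real.log 2 - LX / 2) := by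
        have e2 : rs w.1 * rs w.2 ≤ rs (2 ^ (i + j)) := by
          rw [← rs_mul]
          apply rs_anti (by positivity)
          rw [pow_add]
          exact Nat.mul_le_mul hi' hj'
        refine e2.trans (le_of_eq ?_)
        have e3 : Real.exp (Real.log 2 - LX / 2) = Real.exp (-((i + j : ℕ) * Real.log 2) / 2) := by
          congr 1
          rw [hLXe]; push_cast; ring
        have e4 : (((2 ^ (i + j) : ℕ)) : ℝ) = Real.exp ((i + j : ℕ) * Real.log 2) := by
          rw [← Real.log_pow, Real.exp_log (by positivity)]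
          push_cast; rfl
        rw [e3]
        unfold rs
        rw [e4, Real.sqrt_eq_rpow, ← Real.exp_mul, ← Real.exp_neg]
        congr 1
        ring
      have e5 : (2 * (l : ℝ)) ^ (ArithmeticFunction.cardFactors w.1 + ArithmeticFunction.cardFactors w.2) ≤
          Real.exp (LX * Real.log (2 * l) / Real.log Z) := by
        rw [← ArithmeticFunction.cardFactors_mul (by omega) (by omega)]
        set s := ArithmeticFunction.cardFactors (w.1 * w.2) with hs
        have e6 := pow_Omega_le (Nat.mul_pos w1 w2) hrough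
        rw [← hs] at e6
        have e7 : ((Z ^ s : ℕ) : ℝ) ≤ (X : ℝ) := by
          have : Z ^ s ≤ X := by
            refine e6.trans ?_
            calc w.1 * w.2 ≤ 2 ^ (i + 1) * 2 ^ (j + 1) := Nat.mul_le_mul hi''.le hj''.le
              _ = X := by rw [hX, ← pow_add]; congr 1; ring
          exact_mod_cast this
        push_cast at e7
        have hZ0 : (0 : ℝ) < Z := by
          by_contra hcon
          have : (Z : ℝ) = 0 := le_antisymm (not_lt.1 hcon) (Nat.cast_nonneg _)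
          rw [this, Real.log_zero] at hlogZ0
          exact lt_irrefl _ hlogZ0
        have e8 := Real.log_le_log (by positivity) e7
        rw [Real.log_pow] at e8
        have e9 : (2 * (l : ℝ)) ^ s = Real.exp (s * Real.log (2 * l)) := by
          rw [← Real.log_pow, Real.exp_log (by positivity)]
        rw [e9, Real.exp_le_exp, le_div_iff₀ hlogZ0]
        calc (s : ℝ) * Real.log (2 * l) * Real.log Z = (s * Real.log Z) * Real.log (2 * l) := by ring
          _ ≤ LX * Real.log (2 * l) := mul_le_mul_of_nonneg_right e8 hlog2l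
      rw [hM, Real.exp_add]
      exact mul_le_mul e1 e5 (by positivity) (Real.exp_pos _).le)
  set S := ∑ w ∈ (RP G c Z Y).filter (fun w => Nat.log 2 w.1 = i ∧ Nat.log 2 w.2 = j), rs w.1 * rs w.2 with hS
  have g1 : S ≤ Real.exp (α * Lq / l) * M := by
    have g2 : S ^ l ≤ (Real.exp (α * Lq / l) * M) ^ l := by
      refine hmain.trans ?_
      have e0 : Real.exp (α * Lq / l) ^ l = (q : ℝ) ^ α := by
        rw [← Real.exp_nat_mul, Real.rpow_def_of_pos hq0]
        congr 1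
        rw [← hLq]
        field_simp
      rw [mul_pow, e0]
      exact mul_le_mul_of_nonneg_right hG (pow_nonneg (Real.exp_pos _).le l)
    exact le_of_pow_le_pow_left₀ (by omega) (by positivity) g2
  refine g1.trans ?_
  rw [hM, ← Real.exp_add]
  have g3 : (2 : ℝ) = Real.exp (Real.log 2) := (Real.exp_log (by norm_num)).symm
  nth_rewrite 4 [g3]
  rw [← Real.exp_add, Real.exp_le_exp]
  -- the exponent
  have hLr : (0 : ℝ) < L₀ := by exact_mod_cast (by omega : 0 < L₀)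
  have k1 : α * Lq / l ≤ α * (1 + 1 / L₀) * LX := by
    rw [div_le_iff₀ hlr]
    have k2 : Lq ≤ (1 + 1 / L₀) * LX * l := by
      refine f2.trans ?_
      have k3 : 1 ≤ (1 / (L₀ : ℝ)) * l := by
        rw [one_div, inv_mul_eq_div, le_div_iff₀ hLr, one_mul]
        exact_mod_cast hlL
      have : ((l : ℝ) + 1) ≤ (1 + 1 / L₀) * l := by linarith
      calc ((l : ℝ) + 1) * LX ≤ ((1 + 1 / L₀) * l) * LX := mul_le_mul_of_nonneg_right this hLX0.le
        _ = _ := by ring
    calc α * Lq ≤ α * ((1 + 1 / L₀) * LX * l) := mul_le_mul_of_nonneg_left k2 hα0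
      _ = _ := by ring
  have k4 : α * (1 + 1 / L₀) ≤ α + κ / 2 := by
    have k5 : 1 / (L₀ : ℝ) ≤ κ / 2 := by
      rw [div_le_iff₀ hκ0] at hLκ
      rw [div_le_iff₀ hLr]
      linarith
    have : α * (1 / (L₀ : ℝ)) ≤ 1 * (κ / 2) := mul_le_mul (by linarith) k5 (by positivity) (by norm_num)
    linarith
  have k6 : α * (1 + 1 / L₀) ≤ 1 / 2 := by
    have k7 : 1 / (L₀ : ℝ) ≤ 1 / 4 := one_div_le_one_div_of_le (by norm_num) (by exact_mod_cast hL3)
    have : α * (1 / (L₀ : ℝ)) ≤ 2 / 5 * (1 / 4) := mul_le_mul hα k7 (by positivity) (by norm_num)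
    linarith
  have k8 : LX * Real.log (2 * l) / Real.log Z ≤ LX * (Real.log 2 + Λ - Real.log LX) / (2 * τ * Λ) := by
    have k9 : Real.log (2 * l) ≤ Real.log 2 + Λ - Real.log LX := by
      have k10 : (l : ℝ) ≤ Lq / LX := by rw [le_div_iff₀ hLX0]; exact f1
      have k11 := Real.log_le_log hlr k10
      rw [Real.log_div hLq0.ne' hLX0.ne', ← hΛ] at k11
      rw [Real.log_mul (by norm_num) hlr.ne']
      linarith
    calc LX * Real.log (2 * l) / Real.log Z ≤ LX * Real.log (2 * l) / (2 * τ * Λ) :=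
          div_le_div_of_nonneg_left (by positivity) (by positivity) hlogZ
      _ ≤ _ := by
          apply div_le_div_of_nonneg_right _ (by positivity)
          exact mul_le_mul_of_nonneg_left k9 hLX0.le
  have hpos : 0 < Lq ^ τ := Real.rpow_pos_of_pos hLq0 _
  rcases le_or_gt (Lq ^ τ) LX with hA | hB
  · have m1 : τ * Λ ≤ Real.log LX := by
      have := Real.log_le_log hpos hA
      rwa [hrp, Real.log_exp] at this
    have m2 : LX * (Real.log 2 + Λ - Real.log LX) / (2 * τ * Λ) ≤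
        LX * ((1 / (2 * τ) - 1 / 2) + κ / 2) := by
      rw [mul_div_assoc]
      apply mul_le_mul_of_nonneg_left _ hLX0.le
      rw [div_le_iff₀ (by positivity)]
      have m3 : Real.log 2 ≤ κ / 2 * Λ := by rwa [div_le_iff₀ hΛ0] at hΛκ
      have m4 : (1 / (2 * τ) - 1 / 2 + κ / 2) * (2 * τ * Λ) = (Λ - τ * Λ) + (κ / 2 * Λ) * (2 * τ) := by
        field_simp
      rw [m4]
      have m5 : κ / 2 * Λ ≤ (κ / 2 * Λ) * (2 * τ) := by
        have : 0 ≤ κ / 2 * Λ := by positivity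
        nlinarith
      linarith
    have m6 : α * (1 + 1 / L₀) * LX ≤ (α + κ / 2) * LX := mul_le_mul_of_nonneg_right k4 hLX0.le
    have m7 : (α + κ / 2) * LX - LX / 2 + LX * ((1 / (2 * τ) - 1 / 2) + κ / 2) =
        (α + 1 / (2 * τ) + κ - 1) * LX := by ring
    have m8 : (α + 1 / (2 * τ) + κ - 1) * LX ≤ 0 := mul_nonpos_of_nonpos_of_nonneg (by linarith) hLX0.le
    linarith
  · have m1 : 0 ≤ Real.log LX := Real.log_nonneg hLX1
    have m2 : LX * (Real.log 2 + Λ - Real.log LX) / (2 * τ * Λ) ≤ 2 * LX := by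
      rw [div_le_iff₀ (by positivity)]
      have m3 : Real.log 2 ≤ Λ := by
        have : Real.log 2 ≤ 1 := by linarith [Real.log_two_lt_d9]
        linarith
      have m4 : Real.log 2 + Λ - Real.log LX ≤ 2 * Λ := by linarith
      have m5 : 2 * Λ ≤ 2 * (2 * τ * Λ) := by nlinarith
      calc LX * (Real.log 2 + Λ - Real.log LX) ≤ LX * (2 * (2 * τ * Λ)) :=
            mul_le_mul_of_nonneg_left (m4.trans m5) hLX0.le
        _ = _ := by ring
    have m6 : α * (1 + 1 / L₀) * LX ≤ 1 / 2 * LX := mul_le_mul_of_nonneg_right k6 hLX0.le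
    linarith

/-- **The relations without small prime factors.** -/
theorem R_bound5 (α τ κ : ℝ) (hα0 : 0 ≤ α) (hα : α ≤ 2 / 5) (hτ : 1 / 2 < τ) (hκ0 : 0 < κ)
    (hκ : α + 1 / (2 * τ) + κ ≤ 1) : ∃ η : ℝ, 0 < η ∧ η ≤ 1 / 12 ∧ ∃ q₀ : ℕ, ∀ (q : ℕ) [Fact q.Prime], q₀ ≤ q →
      ∀ (G : Subgroup (ZMod q)ˣ), (Fintype.card G : ℝ) ≤ (q : ℝ) ^ α → ∀ (c : (ZMod q)ˣ) (Z Y : ℕ),
        (Y : ℝ) ≤ (q : ℝ) ^ η → Real.log q ^ (2 * τ) ≤ Z →
        ∑ w ∈ RP G c Z Y, rs w.1 * rs w.2 ≤ Real.exp (3 * Real.log q ^ τ) := by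
  set L₀ : ℕ := max 4 ⌈2 / κ⌉₊ with hL₀
  have hL3 : 4 ≤ L₀ := le_max_left _ _
  have hLκ : 2 / κ ≤ L₀ := (Nat.le_ceil _).trans (by exact_mod_cast le_max_right _ _)
  have hLr : (3 : ℝ) ≤ L₀ := by exact_mod_cast (by omega : 3 ≤ L₀)
  have tl : Tendsto (fun q : ℕ => Real.log (q : ℝ)) atTop atTop :=
    Real.tendsto_log_atTop.comp tendsto_natCast_atTop_atTop
  have tll : Tendsto (fun q : ℕ => Real.log (Real.log (q : ℝ))) atTop atTop :=
    Real.tendsto_log_atTop.comp tl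
  have t1 : ∀ᶠ q : ℕ in atTop, (4 : ℝ) ^ L₀ * 2 ≤ (q : ℝ) ^ (1 / 4 : ℝ) :=
    ((tendsto_rpow_atTop (by norm_num : (0 : ℝ) < 1 / 4)).comp tendsto_natCast_atTop_atTop).eventually_ge_atTop _
  obtain ⟨q₀, hq₀⟩ := eventually_atTop.1 (t1.and ((tll.eventually_ge_atTop (max 1 (2 * Real.log 2 / κ))).and
    ((tl.eventually (ev_poly_exp τ (by linarith) 3)).and (tl.eventually_ge_atTop 32))))
  refine ⟨1 / (8 * L₀), by positivity, ?_, q₀, ?_⟩
  · apply one_div_le_one_div_of_le (by norm_num)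
    linarith
  intro q _ hqq G hG c Z Y hY hZ
  have hq : q.Prime := Fact.out
  have hq0 : (0 : ℝ) < q := by exact_mod_cast hq.pos
  have hq1 : (1 : ℝ) ≤ q := by exact_mod_cast hq.one_lt.le
  obtain ⟨a1, a2, a3, a4⟩ := hq₀ q hqq
  have hΛ1 : 1 ≤ Real.log (Real.log q) := (le_max_left _ _).trans a2
  have hΛκ : Real.log 2 / Real.log (Real.log q) ≤ κ / 2 := by
    have h1 := (le_max_right _ _).trans a2
    rw [div_le_iff₀ hκ0] at h1
    rw [div_le_iff₀ (by linarith)]
    linarith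
  set E : ℝ := 2 * Real.exp (2 * Real.log q ^ τ) with hE
  have hτq : 0 ≤ Real.log q ^ τ := Real.rpow_nonneg (by linarith) _
  have hE1 : 1 ≤ E := by
    have : 1 ≤ Real.exp (2 * Real.log q ^ τ) := Real.one_le_exp (by positivity)
    rw [hE]; linarith
  have hmaps : ∀ w ∈ RP G c Z Y, (Nat.log 2 w.1, Nat.log 2 w.2) ∈
      (range (Nat.log 2 Y + 1)) ×ˢ (range (Nat.log 2 Y + 1)) := by
    intro w hw
    rw [mem_RP] at hw
    rw [mem_product, mem_range, mem_range, Nat.lt_succ_iff, Nat.lt_succ_iff]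
    constructor
    · show Nat.log 2 w.1 ≤ Nat.log 2 Y
      exact Nat.log_mono_right hw.1.1.2
    · show Nat.log 2 w.2 ≤ Nat.log 2 Y
      exact Nat.log_mono_right hw.1.2.2
  rw [← Finset.sum_fiberwise_of_maps_to hmaps]
  have hone : ∀ ij ∈ (range (Nat.log 2 Y + 1)) ×ˢ (range (Nat.log 2 Y + 1)),
      ∑ w ∈ (RP G c Z Y).filter (fun w => (Nat.log 2 w.1, Nat.log 2 w.2) = ij), rs w.1 * rs w.2 ≤ E := by
    rintro ⟨i, j⟩ hij
    have hset : (RP G c Z Y).filter (fun w => (Nat.log 2 w.1, Nat.log 2 w.2) = (i, j)) =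
        (RP G c Z Y).filter (fun w => Nat.log 2 w.1 = i ∧ Nat.log 2 w.2 = j) := by
      apply Finset.filter_congr
      intro w _
      rw [Prod.mk.injEq]
    rw [hset]
    rw [mem_product, mem_range, mem_range, Nat.lt_succ_iff, Nat.lt_succ_iff] at hij
    rcases Nat.eq_zero_or_pos (i + j) with h0 | h1
    · have hi0 : i = 0 := by omega
      have hj0 : j = 0 := by omega
      subst hi0 hj0
      have hsub : (RP G c Z Y).filter (fun w => Nat.log 2 w.1 = 0 ∧ Nat.log 2 w.2 = 0) ⊆ {(1, 1)} := by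
        intro w hw
        rw [mem_filter, mem_RP] at hw
        have e1 : w.1 < 2 ^ (0 + 1) := by rw [← hw.2.1]; exact Nat.lt_pow_succ_log_self (by norm_num) _
        have e2 : w.2 < 2 ^ (0 + 1) := by rw [← hw.2.2]; exact Nat.lt_pow_succ_log_self (by norm_num) _
        have e3 := hw.1.1.1.1
        have e4 := hw.1.1.2.1
        rw [mem_singleton]
        exact Prod.ext (by simp only; omega) (by simp only; omega)
      refine (Finset.sum_le_sum_of_subset_of_nonneg hsub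
        (fun w _ _ => mul_nonneg (rs_nonneg _) (rs_nonneg _))).trans ?_
      rw [Finset.sum_singleton]
      have := mul_le_mul (rs_le_one 1) (rs_le_one 1) (rs_nonneg _) zero_le_one
      linarith
    · rcases Nat.eq_zero_or_pos Y with hY0 | hY0
      · have : RP G c Z Y = ∅ := by
          rw [Finset.eq_empty_iff_forall_notMem]
          intro w hw
          rw [mem_RP] at hw
          omega
        rw [this, Finset.filter_empty, Finset.sum_empty]
        linarith
      refine cell25 G c α τ κ hα0 hα hτ hκ0 hκ hG L₀ hL3 hLκ _ rfl hΛ1 hΛκ Z Y hZ i j h1 ?_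
      have hi : 2 ^ i ≤ Y := (Nat.pow_le_pow_right (by norm_num) hij.1).trans (Nat.pow_log_le_self 2 hY0.ne')
      have hj : 2 ^ j ≤ Y := (Nat.pow_le_pow_right (by norm_num) hij.2).trans (Nat.pow_log_le_self 2 hY0.ne')
      have hX : 2 ^ (i + j + 2) ≤ 4 * (Y * Y) := by
        rw [pow_add, pow_add]
        calc 2 ^ i * 2 ^ j * 2 ^ 2 ≤ Y * Y * 2 ^ 2 := Nat.mul_le_mul_right _ (Nat.mul_le_mul hi hj)
          _ = _ := by ring
      have hreal : (((2 ^ (i + j + 2)) ^ L₀ : ℕ) : ℝ) ≤ ((q : ℝ)) / 2 := by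
        have h2 : ((2 ^ (i + j + 2) : ℕ) : ℝ) ≤ 4 * ((q : ℝ) ^ (1 / (8 * L₀) : ℝ)) ^ 2 := by
          have h3 : ((2 ^ (i + j + 2) : ℕ) : ℝ) ≤ 4 * ((Y : ℝ) * Y) := by exact_mod_cast hX
          have h4 : (Y : ℝ) * Y ≤ ((q : ℝ) ^ (1 / (8 * L₀) : ℝ)) ^ 2 := by
            rw [sq]
            exact mul_le_mul hY hY (Nat.cast_nonneg _) (by positivity)
          linarith
        rw [Nat.cast_pow]
        refine (pow_le_pow_left₀ (Nat.cast_nonneg _) h2 L₀).trans ?_
        rw [mul_pow, ← pow_mul, ← Real.rpow_natCast ((q : ℝ) ^ (1 / (8 * L₀) : ℝ)) (2 * L₀), ← Real.rpow_mul hq0.le]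
        have e1 : 1 / (8 * (L₀ : ℝ)) * ((2 * L₀ : ℕ) : ℝ) = 1 / 4 := by
          push_cast
          field_simp
          norm_num
        rw [e1]
        have hq4 : 0 < (q : ℝ) ^ (1 / 4 : ℝ) := Real.rpow_pos_of_pos hq0 _
        have e2 : (q : ℝ) ^ (1 / 4 : ℝ) * (q : ℝ) ^ (1 / 4 : ℝ) ≤ q := by
          rw [← Real.rpow_add hq0]
          calc (q : ℝ) ^ (1 / 4 + 1 / 4 : ℝ) ≤ (q : ℝ) ^ (1 : ℝ) :=
                Real.rpow_le_rpow_of_exponent_le hq1 (by norm_num)
            _ = q := Real.rpow_one _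
        have e3 : (4 : ℝ) ^ L₀ * 2 * (q : ℝ) ^ (1 / 4 : ℝ) ≤ (q : ℝ) ^ (1 / 4 : ℝ) * (q : ℝ) ^ (1 / 4 : ℝ) :=
          mul_le_mul_of_nonneg_right a1 hq4.le
        linarith
      have h5 : 2 * ((2 ^ (i + j + 2)) ^ L₀) ≤ q := by
        have : (2 : ℝ) * (((2 ^ (i + j + 2)) ^ L₀ : ℕ) : ℝ) ≤ q := by linarith
        exact_mod_cast this
      have h6 : 1 ≤ (2 ^ (i + j + 2)) ^ L₀ := Nat.one_le_pow _ _ (by positivity)
      omega
  refine (Finset.sum_le_sum hone).trans ?_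
  rw [Finset.sum_const, card_product, card_range, nsmul_eq_mul]
  have hlogY : ((Nat.log 2 Y + 1 : ℕ) : ℝ) ≤ 3 * Real.log q := by
    rcases Nat.eq_zero_or_pos Y with hY0 | hY0
    · rw [hY0]; simp; linarith
    have h1 : (2 : ℝ) ^ (Nat.log 2 Y) ≤ q := by
      have h2 : ((2 ^ (Nat.log 2 Y) : ℕ) : ℝ) ≤ Y := by exact_mod_cast Nat.pow_log_le_self 2 hY0.ne'
      have h3 : (q : ℝ) ^ (1 / (8 * L₀) : ℝ) ≤ q := by
        calc (q : ℝ) ^ (1 / (8 * L₀) : ℝ) ≤ (q : ℝ) ^ (1 : ℝ) := by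
              apply Real.rpow_le_rpow_of_exponent_le hq1
              rw [div_le_one (by positivity)]
              linarith
          _ = q := Real.rpow_one _
      push_cast at h2
      linarith
    have h2 := Real.log_le_log (by positivity) h1
    rw [Real.log_pow] at h2
    have h3 : (0.5 : ℝ) ≤ Real.log 2 := by linarith [Real.log_two_gt_d9]
    have h4 : (0 : ℝ) ≤ Nat.log 2 Y := Nat.cast_nonneg _
    push_cast
    nlinarith
  push_cast at hlogY ⊢
  have e4 : (((Nat.log 2 Y : ℝ) + 1) * ((Nat.log 2 Y : ℝ) + 1)) * 2 ≤ Real.exp (Real.log q ^ τ) := by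
    refine le_trans ?_ a3
    have h4 : (0 : ℝ) ≤ Nat.log 2 Y := Nat.cast_nonneg _
    have h5 : ((Nat.log 2 Y : ℝ) + 1) * ((Nat.log 2 Y : ℝ) + 1) ≤ (3 * Real.log q) * (3 * Real.log q) :=
      mul_le_mul hlogY hlogY (by linarith) (by linarith)
    have h6 : (3 * Real.log q) * (3 * Real.log q) * 2 ≤ Real.log q ^ 3 := by
      have : 18 ≤ Real.log q := by linarith
      have h7 : 0 ≤ Real.log q ^ 2 := by positivity
      nlinarith
    linarith
  calc ((Nat.log 2 Y : ℝ) + 1) * ((Nat.log 2 Y : ℝ) + 1) * E =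
        ((((Nat.log 2 Y : ℝ) + 1) * ((Nat.log 2 Y : ℝ) + 1)) * 2) * Real.exp (2 * Real.log q ^ τ) := by
        rw [hE]; ring
    _ ≤ Real.exp (Real.log q ^ τ) * Real.exp (2 * Real.log q ^ τ) :=
        mul_le_mul_of_nonneg_right e4 (Real.exp_pos _).le
    _ = _ := by rw [← Real.exp_add]; congr 1; ring

end Pool.Agent.K4H2.EC
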