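import Mathlib
import Pool.Agent.K4H2.EC.B

/-! Pairs of small integers with a quotient in a subgroup of the residue classes. -/

set_option autoImplicit false

namespace Pool.Agent.K4H2.EC
open Finset Pool.Agent.R311.RES Pool.Agent.K4H49.AC Filter Topology
open scoped Classical

variable {q : ℕ} [Fact q.Prime]

/-- the pairs up to `X` with quotient in `G` -/
noncomputable def PX (G : Subgroup (ZMod q)ˣ) (X : ℕ) : Finset (ℕ × ℕ) :=
  ((Icc 1 X) ×ˢ (Icc 1 X)).filter (fun w => un q w.1 * (un q w.2)⁻¹ ∈ G)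

/-- the coprime ones -/
noncomputable def WX (G : Subgroup (ZMod q)ˣ) (X : ℕ) : Finset (ℕ × ℕ) :=
  (PX G X).filter (fun w => Nat.Coprime w.1 w.2)

lemma mem_PX {G : Subgroup (ZMod q)ˣ} {X : ℕ} {w : ℕ × ℕ} : w ∈ PX G X ↔
    ((1 ≤ w.1 ∧ w.1 ≤ X) ∧ (1 ≤ w.2 ∧ w.2 ≤ X)) ∧ un q w.1 * (un q w.2)⁻¹ ∈ G := by
  unfold PX
  rw [mem_filter, mem_product, mem_Icc, mem_Icc]

lemma mem_WX {G : Subgroup (ZMod q)ˣ} {X : ℕ} {w : ℕ × ℕ} : w ∈ WX G X ↔
    (((1 ≤ w.1 ∧ w.1 ≤ X) ∧ (1 ≤ w.2 ∧ w.2 ≤ X)) ∧ un q w.1 * (un q w.2)⁻¹ ∈ G) ∧ Nat.Coprime w.1 w.2 := by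
  unfold WX
  rw [mem_filter, mem_PX]

lemma sep_aux {a b a' b' L Q : ℕ} (ha : 0 < a) (ha' : 0 < a') (hL : a ≤ L) (hL' : a' ≤ L) (hQ : 0 < Q)
    (h : a * b' + Q ≤ a' * b) : (b * L ^ 2) / (a * Q) ≠ (b' * L ^ 2) / (a' * Q) := by
  intro hk
  set k := (b * L ^ 2) / (a * Q) with hkd
  have h1 : b * L ^ 2 < (a * Q) * (k + 1) := Nat.lt_mul_div_succ _ (Nat.mul_pos ha hQ)
  have h2 : k * (a' * Q) ≤ b' * L ^ 2 := by
    rw [hk]; exact Nat.div_mul_le_self _ _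
  have h3 : a' * (b * L ^ 2) < a' * ((a * Q) * (k + 1)) := Nat.mul_lt_mul_of_pos_left h1 ha'
  have h4 : a * (k * (a' * Q)) ≤ a * (b' * L ^ 2) := Nat.mul_le_mul_left a h2
  have h5 : (a * b' + Q) * L ^ 2 ≤ (a' * b) * L ^ 2 := Nat.mul_le_mul_right _ h
  have h6 : a * a' ≤ L ^ 2 := by rw [sq]; exact Nat.mul_le_mul hL hL'
  have h7 : Q * (a * a') ≤ Q * L ^ 2 := Nat.mul_le_mul_left Q h6
  have e1 : a' * ((a * Q) * (k + 1)) = a * (k * (a' * Q)) + Q * (a * a') := by ring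
  have e2 : (a * b' + Q) * L ^ 2 = a * (b' * L ^ 2) + Q * L ^ 2 := by ring
  have e3 : (a' * b) * L ^ 2 = a' * (b * L ^ 2) := by ring
  rw [e1] at h3
  rw [e2, e3] at h5
  omega

lemma cross {a b a' b' : ℕ} (ha : a.Coprime q) (hb : b.Coprime q) (ha' : a'.Coprime q) (hb' : b'.Coprime q)
    (h : un q a * (un q b)⁻¹ = un q a' * (un q b')⁻¹) : a * b' ≡ a' * b [MOD q] := by
  have h1 : un q a * un q b' = un q a' * un q b := by
    rw [mul_inv_eq_iff_eq_mul] at h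
    rw [h, mul_right_comm, inv_mul_cancel_right]
  have h2 := congrArg (fun u : (ZMod q)ˣ => (u : ZMod q)) h1
  simp only [Units.val_mul] at h2
  rw [un_val ha, un_val hb', un_val ha', un_val hb] at h2
  rw [← ZMod.natCast_eq_natCast_iff]
  push_cast
  exact h2

lemma eq_of_cross {a b a' b' : ℕ} (ha : 0 < a) (h : a * b' = a' * b) (h1 : Nat.Coprime a b)
    (h2 : Nat.Coprime a' b') : a = a' ∧ b = b' := by
  have d1 : a ∣ a' := h1.dvd_of_dvd_mul_right (by rw [← h]; exact dvd_mul_right _ _)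
  have d2 : a' ∣ a := h2.dvd_of_dvd_mul_right (by rw [h]; exact dvd_mul_right _ _)
  have e : a = a' := Nat.dvd_antisymm d1 d2
  subst e
  exact ⟨rfl, (Nat.eq_of_mul_eq_mul_left ha h).symm⟩

lemma WX_half (G : Subgroup (ZMod q)ˣ) (L : ℕ) (hL : L < q) :
    ((WX G L).filter (fun w => w.2 ≤ w.1)).card ≤ Fintype.card G * (L ^ 2 / q + 1) := by
  have hq : q.Prime := Fact.out
  have h1 : ((WX G L).filter (fun w => w.2 ≤ w.1)).card ≤
      ((univ.filter (fun g : (ZMod q)ˣ => g ∈ G)) ×ˢ (range (L ^ 2 / q + 1))).card := by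
    apply Finset.card_le_card_of_injOn (fun w => (un q w.1 * (un q w.2)⁻¹, (w.2 * L ^ 2) / (w.1 * q)))
    · intro w hw
      rw [mem_coe, mem_filter, mem_WX] at hw
      rw [mem_coe, mem_product, mem_filter, mem_range, Nat.lt_succ_iff]
      refine ⟨⟨mem_univ _, hw.1.1.2⟩, ?_⟩
      show (w.2 * L ^ 2) / (w.1 * q) ≤ L ^ 2 / q
      calc (w.2 * L ^ 2) / (w.1 * q) ≤ (w.1 * L ^ 2) / (w.1 * q) :=
            Nat.div_le_div_right (Nat.mul_le_mul_right _ hw.2)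
        _ = L ^ 2 / q := Nat.mul_div_mul_left _ _ hw.1.1.1.1.1
    · rintro ⟨a, b⟩ hw ⟨a', b'⟩ hw' h
      rw [mem_coe, mem_filter, mem_WX] at hw hw'
      obtain ⟨⟨⟨⟨⟨a1, a2⟩, ⟨b1, b2⟩⟩, _⟩, hc⟩, _⟩ := hw
      obtain ⟨⟨⟨⟨⟨a1', a2'⟩, ⟨b1', b2'⟩⟩, _⟩, hc'⟩, _⟩ := hw'
      simp only at a1 a2 b1 b2 a1' a2' b1' b2' hc hc'
      rw [Prod.mk.injEq] at h
      obtain ⟨h1, h2⟩ := h
      simp only at h1 h2
      have hx := cross (cop_of_lt a1 (by omega)) (cop_of_lt b1 (by omega)) (cop_of_lt a1' (by omega))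
        (cop_of_lt b1' (by omega)) h1
      have heq : a * b' = a' * b := by
        rcases lt_trichotomy (a * b') (a' * b) with h3 | h3 | h3
        · exfalso
          have h4 := (Nat.modEq_iff_dvd' h3.le).1 hx
          have h5 := Nat.le_of_dvd (by omega) h4
          exact sep_aux a1 a1' a2 a2' hq.pos (by omega) h2
        · exact h3
        · exfalso
          have h4 := (Nat.modEq_iff_dvd' h3.le).1 hx.symm
          have h5 := Nat.le_of_dvd (by omega) h4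
          exact sep_aux a1' a1 a2' a2 hq.pos (by omega) h2.symm
      obtain ⟨e1, e2⟩ := eq_of_cross a1 heq hc hc'
      rw [e1, e2]
  rwa [card_product, card_range, card_filter_univ_mem] at h1
where
  card_filter_univ_mem : (univ.filter (fun g : (ZMod q)ˣ => g ∈ G)).card = Fintype.card G := by
    rw [Fintype.card_subtype]

/-- **The coprime pairs.** -/
theorem WX_card (G : Subgroup (ZMod q)ˣ) (L : ℕ) (hL : L < q) :
    (WX G L).card ≤ 2 * (Fintype.card G * (L ^ 2 / q + 1)) := by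
  have h1 : WX G L ⊆ (WX G L).filter (fun w => w.2 ≤ w.1) ∪
      ((WX G L).filter (fun w => w.2 ≤ w.1)).image Prod.swap := by
    intro w hw
    rw [mem_union]
    rcases le_total w.2 w.1 with h | h
    · exact Or.inl (mem_filter.2 ⟨hw, h⟩)
    · right
      rw [mem_image]
      refine ⟨w.swap, ?_, Prod.swap_swap w⟩
      rw [mem_WX] at hw
      rw [mem_filter, mem_WX]
      refine ⟨⟨⟨⟨hw.1.1.2, hw.1.1.1⟩, ?_⟩, hw.2.symm⟩, h⟩
      have := G.inv_mem hw.1.2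
      rw [mul_inv_rev, inv_inv] at this
      exact this
  have h2 := WX_half G L hL
  calc (WX G L).card ≤ _ := card_le_card h1
    _ ≤ ((WX G L).filter (fun w => w.2 ≤ w.1)).card + (((WX G L).filter (fun w => w.2 ≤ w.1)).image Prod.swap).card :=
        card_union_le _ _
    _ ≤ ((WX G L).filter (fun w => w.2 ≤ w.1)).card + ((WX G L).filter (fun w => w.2 ≤ w.1)).card :=
        Nat.add_le_add_left card_image_le _
    _ ≤ _ := by omega

/-- **Products of two coprime pairs.** -/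
theorem WX_sq (G : Subgroup (ZMod q)ˣ) (L D : ℕ) (hL : L * L < q)
    (hD : ∀ m : ℕ, 0 < m → m ≤ L * L → m.divisors.card ≤ D) :
    (WX G L).card ^ 2 ≤ D ^ 2 * (PX G (L * L)).card := by
  have hmaps : ∀ z ∈ (WX G L) ×ˢ (WX G L), (z.1.1 * z.2.1, z.1.2 * z.2.2) ∈ PX G (L * L) := by
    rintro ⟨⟨a, b⟩, ⟨c, d⟩⟩ hz
    rw [mem_product, mem_WX, mem_WX] at hz
    obtain ⟨⟨⟨⟨⟨a1, a2⟩, ⟨b1, b2⟩⟩, g1⟩, _⟩, ⟨⟨⟨⟨c1, c2⟩, ⟨d1, d2⟩⟩, g2⟩, _⟩⟩ := hz
    simp only at a1 a2 b1 b2 c1 c2 d1 d2 g1 g2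
    rw [mem_PX]
    have hLL : L ≤ L * L := Nat.le_mul_self L
    refine ⟨⟨⟨Nat.mul_pos a1 c1, Nat.mul_le_mul a2 c2⟩, ⟨Nat.mul_pos b1 d1, Nat.mul_le_mul b2 d2⟩⟩, ?_⟩
    show un q (a * c) * (un q (b * d))⁻¹ ∈ G
    rw [un_mul (cop_of_lt a1 (by omega)) (cop_of_lt c1 (by omega)),
      un_mul (cop_of_lt b1 (by omega)) (cop_of_lt d1 (by omega))]
    have h3 := G.mul_mem g1 g2
    have e : un q a * un q c * (un q b * un q d)⁻¹ = (un q a * (un q b)⁻¹) * (un q c * (un q d)⁻¹) := by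
      rw [mul_inv]
      exact mul_mul_mul_comm _ _ _ _
    rw [e]; exact h3
  rw [sq, ← card_product, Finset.card_eq_sum_card_fiberwise hmaps]
  have h2 : ∀ y ∈ PX G (L * L), (((WX G L) ×ˢ (WX G L)).filter (fun z => (z.1.1 * z.2.1, z.1.2 * z.2.2) = y)).card ≤
      D ^ 2 := by
    rintro ⟨A, B⟩ hy
    rw [mem_PX] at hy
    obtain ⟨⟨⟨A1, A2⟩, ⟨B1, B2⟩⟩, _⟩ := hy
    simp only at A1 A2 B1 B2
    have h3 : (((WX G L) ×ˢ (WX G L)).filter (fun z => (z.1.1 * z.2.1, z.1.2 * z.2.2) = (A, B))).card ≤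
        (A.divisors ×ˢ B.divisors).card := by
      apply Finset.card_le_card_of_injOn (fun z => z.1)
      · rintro ⟨⟨a, b⟩, ⟨c, d⟩⟩ hz
        rw [mem_coe, mem_filter, Prod.mk.injEq] at hz
        rw [mem_coe, mem_product, Nat.mem_divisors, Nat.mem_divisors]
        exact ⟨⟨Dvd.intro _ hz.2.1, by omega⟩, ⟨Dvd.intro _ hz.2.2, by omega⟩⟩
      · rintro ⟨⟨a, b⟩, ⟨c, d⟩⟩ hz ⟨⟨a', b'⟩, ⟨c', d'⟩⟩ hz' h
        rw [mem_coe, mem_filter, Prod.mk.injEq, mem_product, mem_WX] at hz hz'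
        simp only [Prod.mk.injEq] at h hz hz'
        obtain ⟨rfl, rfl⟩ := h
        have e1 : c = c' := Nat.eq_of_mul_eq_mul_left hz.1.1.1.1.1.1 (hz.2.1.trans hz'.2.1.symm)
        have e2 : d = d' := Nat.eq_of_mul_eq_mul_left hz.1.1.1.1.2.1 (hz.2.2.trans hz'.2.2.symm)
        rw [e1, e2]
    refine h3.trans ?_
    rw [card_product, sq]
    exact Nat.mul_le_mul (hD A A1 A2) (hD B B1 B2)
  refine (Finset.sum_le_sum h2).trans (le_of_eq ?_)
  rw [Finset.sum_const, smul_eq_mul, mul_comm]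

/-- all the pairs from the coprime ones -/
theorem PX_le (G : Subgroup (ZMod q)ˣ) (X : ℕ) (hX : X < q) :
    (PX G X).card ≤ ∑ w ∈ WX G X, X / max w.1 w.2 := by
  have hmaps : ∀ z ∈ PX G X, (z.1 / Nat.gcd z.1 z.2, z.2 / Nat.gcd z.1 z.2) ∈ WX G X := by
    rintro ⟨a, b⟩ hz
    rw [mem_PX] at hz
    obtain ⟨⟨⟨a1, a2⟩, ⟨b1, b2⟩⟩, g1⟩ := hz
    simp only at a1 a2 b1 b2 g1
    have hg : 0 < Nat.gcd a b := Nat.gcd_pos_of_pos_left _ a1
    have ea : Nat.gcd a b * (a / Nat.gcd a b) = a := Nat.mul_div_cancel' (Nat.gcd_dvd_left a b)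
    have eb : Nat.gcd a b * (b / Nat.gcd a b) = b := Nat.mul_div_cancel' (Nat.gcd_dvd_right a b)
    have pa : 0 < a / Nat.gcd a b := Nat.div_pos (Nat.gcd_le_left _ a1) hg
    have pb : 0 < b / Nat.gcd a b := Nat.div_pos (Nat.gcd_le_right _ b1) hg
    have la : a / Nat.gcd a b ≤ a := Nat.div_le_self _ _
    have lb : b / Nat.gcd a b ≤ b := Nat.div_le_self _ _
    have lg : Nat.gcd a b ≤ a := Nat.gcd_le_left _ a1
    rw [mem_WX]
    refine ⟨⟨⟨⟨pa, la.trans a2⟩, ⟨pb, lb.trans b2⟩⟩, ?_⟩, Nat.coprime_div_gcd_div_gcd hg⟩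
    show un q (a / Nat.gcd a b) * (un q (b / Nat.gcd a b))⁻¹ ∈ G
    have h3 : un q a * (un q b)⁻¹ = un q (a / Nat.gcd a b) * (un q (b / Nat.gcd a b))⁻¹ := by
      nth_rewrite 1 [← ea]
      nth_rewrite 3 [← eb]
      rw [un_mul (cop_of_lt hg (by omega)) (cop_of_lt pa (by omega)),
        un_mul (cop_of_lt hg (by omega)) (cop_of_lt pb (by omega)), mul_inv, mul_mul_mul_comm, mul_inv_cancel, one_mul]
    rw [← h3]; exact g1
  rw [Finset.card_eq_sum_card_fiberwise hmaps]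
  apply Finset.sum_le_sum
  rintro ⟨a, b⟩ hw
  rw [mem_WX] at hw
  obtain ⟨⟨⟨⟨a1, a2⟩, ⟨b1, b2⟩⟩, _⟩, _⟩ := hw
  simp only at a1 a2 b1 b2
  have h3 : ((PX G X).filter (fun z => (z.1 / Nat.gcd z.1 z.2, z.2 / Nat.gcd z.1 z.2) = (a, b))).card ≤
      (Icc 1 (X / max a b)).card := by
    apply Finset.card_le_card_of_injOn (fun z => Nat.gcd z.1 z.2)
    · rintro ⟨c, d⟩ hz
      rw [mem_coe, mem_filter, mem_PX, Prod.mk.injEq] at hz
      obtain ⟨⟨⟨⟨c1, c2⟩, ⟨d1, d2⟩⟩, _⟩, e1, e2⟩ := hz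
      simp only at c1 c2 d1 d2 e1 e2
      have ec : Nat.gcd c d * (c / Nat.gcd c d) = c := Nat.mul_div_cancel' (Nat.gcd_dvd_left c d)
      have ed : Nat.gcd c d * (d / Nat.gcd c d) = d := Nat.mul_div_cancel' (Nat.gcd_dvd_right c d)
      rw [e1] at ec
      rw [e2] at ed
      rw [mem_coe, mem_Icc]
      refine ⟨Nat.gcd_pos_of_pos_left _ c1, ?_⟩
      rw [Nat.le_div_iff_mul_le (by positivity)]
      rcases le_total a b with h | h
      · rw [max_eq_right h, ed]; exact d2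
      · rw [max_eq_left h, ec]; exact c2
    · rintro ⟨c, d⟩ hz ⟨c', d'⟩ hz' h
      rw [mem_coe, mem_filter, Prod.mk.injEq] at hz hz'
      simp only at h hz hz'
      have ec : Nat.gcd c d * (c / Nat.gcd c d) = c := Nat.mul_div_cancel' (Nat.gcd_dvd_left c d)
      have ed : Nat.gcd c d * (d / Nat.gcd c d) = d := Nat.mul_div_cancel' (Nat.gcd_dvd_right c d)
      have ec' : Nat.gcd c' d' * (c' / Nat.gcd c' d') = c' := Nat.mul_div_cancel' (Nat.gcd_dvd_left c' d')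
      have ed' : Nat.gcd c' d' * (d' / Nat.gcd c' d') = d' := Nat.mul_div_cancel' (Nat.gcd_dvd_right c' d')
      rw [hz.2.1] at ec
      rw [hz.2.2] at ed
      rw [hz'.2.1] at ec'
      rw [hz'.2.2] at ed'
      rw [h] at ec ed
      have e1 : c = c' := ec.symm.trans ec'
      have e2 : d = d' := ed.symm.trans ed'
      rw [e1, e2]
  refine h3.trans (le_of_eq ?_)
  rw [Nat.card_Icc]
  simp

end Pool.Agent.K4H2.EC
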