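import Mathlib
import Pool.Agent.K4H2.EC.G3

/-! The number of pairs of small integers with a quotient in a subgroup. -/

set_option autoImplicit false

namespace Pool.Agent.K4H2.EC
open Finset Pool.Agent.R311.RES Pool.Agent.K4H49.AC Filter Topology
open scoped Classical

section
variable {q : ℕ} [Fact q.Prime]

/-- the sum over the coprime pairs, in dyadic blocks -/
theorem S_bound (G : Subgroup (ZMod q)ˣ) (X : ℕ) (hX1 : 1 ≤ X) (T : ℝ) 
    (hT : ∀ L : ℕ, 1 ≤ L → L ≤ X → ((WX G L).card : ℝ) ≤ T * L) :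
    ∑ w ∈ WX G X, (1 : ℝ) / (max w.1 w.2 : ℕ) ≤ 2 * (Nat.log 2 X + 1) * T := by
  have hmaps : ∀ w ∈ WX G X, Nat.log 2 (max w.1 w.2) ∈ range (Nat.log 2 X + 1) := by
    intro w hw
    rw [mem_WX] at hw
    rw [mem_range, Nat.lt_succ_iff]
    exact Nat.log_mono_right (max_le hw.1.1.1.2 hw.1.1.2.2)
  rw [← Finset.sum_fiberwise_of_maps_to hmaps]
  have hone : ∀ i ∈ range (Nat.log 2 X + 1),
      ∑ w ∈ (WX G X).filter (fun w => Nat.log 2 (max w.1 w.2) = i), (1 : ℝ) / (max w.1 w.2 : ℕ) ≤ 2 * T := by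
    intro i _
    set L : ℕ := min X (2 ^ (i + 1)) with hL
    have hL1 : 1 ≤ L := le_min hX1 (Nat.one_le_two_pow)
    have hLX : L ≤ X := min_le_left _ _
    have hL2 : L ≤ 2 * 2 ^ i := by
      refine (min_le_right _ _).trans (le_of_eq ?_)
      rw [pow_succ, mul_comm]
    have hsub : (WX G X).filter (fun w => Nat.log 2 (max w.1 w.2) = i) ⊆ WX G L := by
      intro w hw
      rw [mem_filter, mem_WX] at hw
      obtain ⟨⟨⟨⟨⟨a1, a2⟩, ⟨b1, b2⟩⟩, g⟩, c⟩, hi⟩ := hw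
      have hlt : max w.1 w.2 < 2 ^ (i + 1) := by
        rw [← hi]; exact Nat.lt_pow_succ_log_self (by norm_num) _
      rw [mem_WX]
      refine ⟨⟨⟨⟨a1, le_min a2 ((le_max_left _ _).trans hlt.le)⟩, ⟨b1, le_min b2 ((le_max_right _ _).trans hlt.le)⟩⟩, g⟩, c⟩
    have hterm : ∀ w ∈ (WX G X).filter (fun w => Nat.log 2 (max w.1 w.2) = i),
        (1 : ℝ) / (max w.1 w.2 : ℕ) ≤ 2 / L := by
      intro w hw
      rw [mem_filter, mem_WX] at hw
      obtain ⟨⟨⟨⟨⟨a1, a2⟩, ⟨b1, b2⟩⟩, g⟩, c⟩, hi⟩ := hw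
      have hm0 : max w.1 w.2 ≠ 0 := by
        have := le_max_left w.1 w.2
        omega
      have hge : 2 ^ i ≤ max w.1 w.2 := by
        rw [← hi]; exact Nat.pow_log_le_self 2 hm0
      have h1 : (L : ℝ) ≤ 2 * (max w.1 w.2 : ℕ) := by
        have : L ≤ 2 * max w.1 w.2 := by omega
        exact_mod_cast this
      have hL0 : (0 : ℝ) < L := by exact_mod_cast hL1
      have hm : (0 : ℝ) < (max w.1 w.2 : ℕ) := by exact_mod_cast Nat.pos_of_ne_zero hm0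
      rw [div_le_div_iff₀ hm hL0]
      linarith
    refine (Finset.sum_le_sum hterm).trans ?_
    rw [Finset.sum_const, nsmul_eq_mul]
    have hL0 : (0 : ℝ) < L := by exact_mod_cast hL1
    have hc : (((WX G X).filter (fun w => Nat.log 2 (max w.1 w.2) = i)).card : ℝ) ≤ T * L := by
      refine le_trans ?_ (hT L hL1 hLX)
      exact_mod_cast card_le_card hsub
    calc (((WX G X).filter (fun w => Nat.log 2 (max w.1 w.2) = i)).card : ℝ) * (2 / L) ≤ (T * L) * (2 / L) :=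
          mul_le_mul_of_nonneg_right hc (by positivity)
      _ = 2 * T := by field_simp
  refine (Finset.sum_le_sum hone).trans (le_of_eq ?_)
  rw [Finset.sum_const, card_range, nsmul_eq_mul]
  push_cast
  ring

/-- the pairs -/
theorem P_bound (G : Subgroup (ZMod q)ˣ) (X : ℕ) (hX1 : 1 ≤ X) (hX : X < q) (T : ℝ)
    (hT : ∀ L : ℕ, 1 ≤ L → L ≤ X → ((WX G L).card : ℝ) ≤ T * L) :
    ((PX G X).card : ℝ) ≤ X * (2 * (Nat.log 2 X + 1) * T) := by
  have h1 : ((PX G X).card : ℝ) ≤ ((∑ w ∈ WX G X, X / max w.1 w.2 : ℕ) : ℝ) := by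
    exact_mod_cast PX_le G X hX
  refine h1.trans ?_
  rw [Nat.cast_sum]
  have h2 : ∀ w ∈ WX G X, ((X / max w.1 w.2 : ℕ) : ℝ) ≤ X * ((1 : ℝ) / (max w.1 w.2 : ℕ)) := by
    intro w _
    refine Nat.cast_div_le.trans (le_of_eq ?_)
    rw [div_eq_mul_one_div]
  refine (Finset.sum_le_sum h2).trans ?_
  rw [← Finset.mul_sum]
  exact mul_le_mul_of_nonneg_left (S_bound G X hX1 T hT) (Nat.cast_nonneg _)

/-- the sup of the densities of the coprime pairs up to `√q` -/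
theorem T_bound (G : Subgroup (ZMod q)ˣ) (hq9 : 9 ≤ q) (hG : (Fintype.card G) ^ 2 ≤ q) (D : ℕ)
    (hD : ∀ m : ℕ, 0 < m → m ≤ q → m.divisors.card ≤ D) :
    ∃ T : ℝ, 0 ≤ T ∧ T ^ 4 ≤ 288 * (2 * (D : ℝ) ^ 2 * (Nat.log 2 q + 1)) ^ 4 * (1 + (Fintype.card G : ℝ) ^ 3 / q) ∧
      ∀ X : ℕ, 1 ≤ X → X < q → ((WX G X).card : ℝ) ≤ (T + 2 * Fintype.card G * (X / q) + 4) * X := by
  have hq : q.Prime := Fact.out
  have hq0 : (0 : ℝ) < q := by exact_mod_cast hq.pos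
  set g : ℝ := (Fintype.card G : ℝ) with hg
  have hg1 : 1 ≤ g := by
    have : 1 ≤ Fintype.card G := Fintype.card_pos
    rw [hg]; exact_mod_cast this
  set Q : ℕ := Nat.sqrt (q - 1) with hQ
  have hQQ : Q * Q ≤ q - 1 := Nat.sqrt_le _
  have hQ2 : q - 1 < (Q + 1) * (Q + 1) := Nat.lt_succ_sqrt _
  have hQ1 : 2 ≤ Q := by
    by_contra hcon
    have : Q + 1 ≤ 2 := by omega
    have h1 : (Q + 1) * (Q + 1) ≤ 2 * 2 := Nat.mul_le_mul this this
    omega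
  have hgQ : g ≤ 2 * Q := by
    have h1 : Fintype.card G ≤ 2 * Q := by
      by_contra hcon
      push Not at hcon
      have h2 : (2 * Q + 1) ^ 2 ≤ (Fintype.card G) ^ 2 := Nat.pow_le_pow_left (by omega) 2
      have h3 : (2 * Q + 1) ^ 2 ≤ q := h2.trans hG
      have h4 : (Q + 1) * (Q + 1) + 1 ≤ (2 * Q + 1) ^ 2 := by nlinarith
      omega
    rw [hg]
    exact_mod_cast h1
  have hQr : (2 : ℝ) ≤ Q := by exact_mod_cast hQ1
  obtain ⟨L, hL, hmax⟩ := Finset.exists_max_image (Icc 1 Q) (fun L => ((WX G L).card : ℝ) / L) ⟨1, by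
    rw [mem_Icc]; omega⟩
  rw [mem_Icc] at hL
  set T : ℝ := ((WX G L).card : ℝ) / L with hT
  have hT0 : 0 ≤ T := by positivity
  have hL0 : (0 : ℝ) < L := by exact_mod_cast hL.1
  have hqpos : 0 < q := hq.pos
  have hLq : L * L < q := by
    have : L * L ≤ Q * Q := Nat.mul_le_mul hL.2 hL.2
    omega
  -- all X
  have hall : ∀ X : ℕ, 1 ≤ X → X < q → ((WX G X).card : ℝ) ≤ (T + 2 * g * (X / q) + 4) * X := by
    intro X hX1 hXq
    have hX0 : (0 : ℝ) < X := by exact_mod_cast hX1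
    rcases le_or_gt X Q with h | h
    · have h1 := hmax X (mem_Icc.2 ⟨hX1, h⟩)
      rw [div_le_iff₀ hX0] at h1
      refine h1.trans ?_
      apply mul_le_mul_of_nonneg_right _ hX0.le
      have : 0 ≤ 2 * g * ((X : ℝ) / q) := by positivity
      linarith
    · have h1 : ((WX G X).card : ℝ) ≤ 2 * (g * (((X ^ 2 / q : ℕ) : ℝ) + 1)) := by
        rw [hg]
        exact_mod_cast WX_card G X hXq
      have h2 : ((X ^ 2 / q : ℕ) : ℝ) ≤ (X : ℝ) ^ 2 / q := by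
        refine Nat.cast_div_le.trans (le_of_eq ?_)
        push_cast; rfl
      have h3 : (Q : ℝ) ≤ X := by exact_mod_cast h.le
      have h4 : g * 1 ≤ 2 * X := by linarith
      calc ((WX G X).card : ℝ) ≤ 2 * (g * (((X ^ 2 / q : ℕ) : ℝ) + 1)) := h1
        _ ≤ 2 * (g * ((X : ℝ) ^ 2 / q + 1)) := by
            apply mul_le_mul_of_nonneg_left _ (by norm_num)
            apply mul_le_mul_of_nonneg_left _ (by linarith)
            linarith
        _ = 2 * g * (X / q) * X + 2 * (g * 1) := by ring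
        _ ≤ 2 * g * (X / q) * X + 2 * (2 * X) := by linarith
        _ ≤ (T + 2 * g * (X / q) + 4) * X := by
            have : 0 ≤ T * X := mul_nonneg hT0 hX0.le
            linarith
  refine ⟨T, hT0, ?_, hall⟩
  -- the two bounds at `L`
  have hLq' : L < q := lt_of_le_of_lt (Nat.le_mul_self L) hLq
  have b1 : T ≤ 2 * g / L := by
    have h1 : ((WX G L).card : ℝ) ≤ 2 * (g * (((L ^ 2 / q : ℕ) : ℝ) + 1)) := by
      rw [hg]
      exact_mod_cast WX_card G L hLq'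
    have h2 : L ^ 2 / q = 0 := by
      rw [sq]; exact Nat.div_eq_of_lt hLq
    rw [h2] at h1
    rw [hT]
    apply div_le_div_of_nonneg_right _ hL0.le
    push_cast at h1
    linarith
  set ℓ : ℝ := (Nat.log 2 q : ℝ) + 1 with hℓ
  have hℓ1 : 1 ≤ ℓ := by
    have : (0 : ℝ) ≤ (Nat.log 2 q : ℝ) := Nat.cast_nonneg _
    rw [hℓ]; linarith
  have hD1 : (1 : ℝ) ≤ D := by
    have := hD 1 Nat.one_pos hq.one_lt.le
    rw [Nat.divisors_one, card_singleton] at this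
    exact_mod_cast this
  set a : ℝ := 2 * (D : ℝ) ^ 2 * ℓ with ha
  have ha1 : 1 ≤ a := by
    have h1 : (1 : ℝ) ≤ (D : ℝ) ^ 2 := one_le_pow₀ hD1
    have h2 : (1 : ℝ) ≤ (D : ℝ) ^ 2 * ℓ := one_le_mul_of_one_le_of_one_le h1 hℓ1
    rw [ha]; nlinarith
  have b2 : T ^ 2 ≤ a * (T + 2 * g * ((L : ℝ) * L / q) + 4) := by
    have h1 : (((WX G L).card : ℝ)) ^ 2 ≤ (D : ℝ) ^ 2 * ((PX G (L * L)).card : ℝ) := by
      exact_mod_cast WX_sq G L D hLq (fun m hm hmL => hD m hm (hmL.trans hLq.le))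
    have hLL1 : 1 ≤ L * L := Nat.mul_pos hL.1 hL.1
    have h2 := P_bound G (L * L) hLL1 hLq (T + 2 * g * ((L * L : ℕ) / q) + 4) (by
      intro K hK1 hK2
      refine (hall K hK1 (lt_of_le_of_lt hK2 hLq)).trans ?_
      apply mul_le_mul_of_nonneg_right _ (Nat.cast_nonneg _)
      have h3 : (K : ℝ) / q ≤ ((L * L : ℕ) : ℝ) / q := by
        apply div_le_div_of_nonneg_right _ hq0.le
        exact_mod_cast hK2
      have h4 : 2 * g * ((K : ℝ) / q) ≤ 2 * g * (((L * L : ℕ) : ℝ) / q) :=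
        mul_le_mul_of_nonneg_left h3 (by linarith)
      linarith)
    set U : ℝ := T + 2 * g * (((L * L : ℕ) : ℝ) / q) + 4 with hU
    have hU0 : 0 ≤ U := by
      have : 0 ≤ 2 * g * (((L * L : ℕ) : ℝ) / q) := by positivity
      rw [hU]; linarith
    have h5 : (Nat.log 2 (L * L) : ℝ) + 1 ≤ ℓ := by
      have : Nat.log 2 (L * L) ≤ Nat.log 2 q := Nat.log_mono_right hLq.le
      rw [hℓ]
      have h6 : (Nat.log 2 (L * L) : ℝ) ≤ (Nat.log 2 q : ℝ) := by exact_mod_cast this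
      linarith
    have h7 : ((PX G (L * L)).card : ℝ) ≤ ((L : ℝ) ^ 2) * (2 * ℓ * U) := by
      refine h2.trans ?_
      push_cast
      rw [show (L : ℝ) * L = (L : ℝ) ^ 2 by ring]
      apply mul_le_mul_of_nonneg_left _ (by positivity)
      apply mul_le_mul_of_nonneg_right _ hU0
      linarith
    have h8 : T ^ 2 = (((WX G L).card : ℝ)) ^ 2 / (L : ℝ) ^ 2 := by rw [hT, div_pow]
    rw [h8, div_le_iff₀ (by positivity)]
    calc (((WX G L).card : ℝ)) ^ 2 ≤ (D : ℝ) ^ 2 * ((PX G (L * L)).card : ℝ) := h1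
      _ ≤ (D : ℝ) ^ 2 * (((L : ℝ) ^ 2) * (2 * ℓ * U)) := mul_le_mul_of_nonneg_left h7 (by positivity)
      _ = a * (T + 2 * g * ((L : ℝ) * L / q) + 4) * (L : ℝ) ^ 2 := by
          rw [ha, hU]; push_cast; ring
  -- the conclusion
  have hr : 0 ≤ g ^ 3 / q := by positivity
  have ha0 : 0 < a := by linarith
  have ha4 : 1 ≤ a ^ 4 := one_le_pow₀ ha1
  have key : T ^ 2 ≤ 3 * a * T ∨ T ^ 2 ≤ 12 * a ∨ T ^ 2 ≤ 6 * a * g * ((L : ℝ) * L / q) := by
    by_contra hcon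
    push Not at hcon
    obtain ⟨c1, c2, c3⟩ := hcon
    have e : a * (T + 2 * g * ((L : ℝ) * L / q) + 4) = a * T + 2 * a * g * ((L : ℝ) * L / q) + 4 * a := by ring
    rw [e] at b2
    linarith
  have hfin : T ^ 4 ≤ 288 * a ^ 4 * (1 + g ^ 3 / q) := by
    have h0 : 0 ≤ 288 * a ^ 4 * (g ^ 3 / q) := by positivity
    rcases key with h | h | h
    · have h1 : T ≤ 3 * a := by
        rcases eq_or_lt_of_le hT0 with h2 | h2
        · rw [← h2]; positivity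
        · have : T * T ≤ 3 * a * T := by rw [← sq]; exact h
          exact le_of_mul_le_mul_right this h2
      have h3 : T ^ 4 ≤ (3 * a) ^ 4 := pow_le_pow_left₀ hT0 h1 4
      have h4 : (3 * a) ^ 4 = 81 * a ^ 4 := by ring
      nlinarith
    · have h3 : T ^ 4 ≤ (12 * a) ^ 2 := by
        calc T ^ 4 = (T ^ 2) ^ 2 := by ring
          _ ≤ _ := pow_le_pow_left₀ (by positivity) h 2
      have h4 : (12 * a) ^ 2 = 144 * a ^ 2 := by ring
      have h5 : a ^ 2 ≤ a ^ 4 := pow_le_pow_right₀ ha1 (by norm_num)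
      nlinarith
    · have h1 : T ^ 2 ≤ (2 * g / L) ^ 2 := pow_le_pow_left₀ hT0 b1 2
      have h2 : T ^ 4 ≤ (6 * a * g * ((L : ℝ) * L / q)) * (2 * g / L) ^ 2 := by
        calc T ^ 4 = T ^ 2 * T ^ 2 := by ring
          _ ≤ _ := mul_le_mul h h1 (by positivity) (by positivity)
      have h3 : (6 * a * g * ((L : ℝ) * L / q)) * (2 * g / L) ^ 2 = 24 * a * (g ^ 3 / q) := by
        field_simp
        ring
      rw [h3] at h2
      have h4 : a ≤ a ^ 4 := by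
        calc a = a ^ 1 := (pow_one a).symm
          _ ≤ a ^ 4 := pow_le_pow_right₀ ha1 (by norm_num)
      have h5 : 24 * a * (g ^ 3 / q) ≤ 24 * a ^ 4 * (g ^ 3 / q) := by
        apply mul_le_mul_of_nonneg_right _ hr
        linarith
      nlinarith [mul_nonneg (pow_nonneg ha0.le 4) hr]
  exact hfin

end

/-- **The number of pairs with a quotient in a subgroup.** -/
theorem pair_bound (ε : ℝ) (hε : 0 < ε) : ∃ q₀ : ℕ, ∀ (q : ℕ) [Fact q.Prime], q₀ ≤ q →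
    ∀ (G : Subgroup (ZMod q)ˣ), (Fintype.card G : ℝ) ≤ (q : ℝ) ^ (15 / 41 : ℝ) → ∀ X : ℕ, X < q →
      ((PX G X).card : ℝ) ≤ (q : ℝ) ^ ε * (Fintype.card G * (X : ℝ) ^ 2 / q + X * (q : ℝ) ^ (1 / 41 : ℝ)) := by
  obtain ⟨C, hC0, hC⟩ := H353.divisor_bound_real (ε / 8) (by positivity)
  have t1 : ∀ᶠ q : ℕ in atTop, 100 * (C + 1) ^ 2 * (1 + 2 * Real.log (q : ℝ)) ^ 2 ≤ (q : ℝ) ^ (ε / 2) := by
    have h1 : ∀ᶠ q : ℕ in atTop, (10 * (C + 1) + 2) * (1 + (10 * (C + 1) + 2) * Real.log (q : ℝ)) ≤ (q : ℝ) ^ (ε / 4) :=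
      tendsto_natCast_atTop_atTop.eventually (ev_log_small _ (ε / 4) (by positivity))
    filter_upwards [h1, eventually_ge_atTop 3] with q hq hq3
    have hq1 : (1 : ℝ) < q := by exact_mod_cast (by omega : 1 < q)
    have hq0 : (0 : ℝ) < q := by linarith
    have hl : 0 ≤ Real.log (q : ℝ) := Real.log_nonneg hq1.le
    have h2 : 10 * (C + 1) * (1 + 2 * Real.log (q : ℝ)) ≤ (q : ℝ) ^ (ε / 4) := by
      refine le_trans ?_ hq
      apply mul_le_mul (by linarith) _ (by positivity) (by positivity)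
      nlinarith
    have h3 : (10 * (C + 1) * (1 + 2 * Real.log (q : ℝ))) ^ 2 ≤ ((q : ℝ) ^ (ε / 4)) ^ 2 :=
      pow_le_pow_left₀ (by positivity) h2 2
    have h4 : ((q : ℝ) ^ (ε / 4)) ^ 2 = (q : ℝ) ^ (ε / 2) := by
      rw [← Real.rpow_natCast, ← Real.rpow_mul hq0.le]; congr 1; push_cast; ring
    rw [h4] at h3
    refine le_trans (le_of_eq ?_) h3
    ring
  obtain ⟨q₀, hq₀⟩ := eventually_atTop.1 t1
  refine ⟨max q₀ 9, fun q _ hqq G hG X hX => ?_⟩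
  have hq : q.Prime := Fact.out
  have hq9 : 9 ≤ q := (le_max_right _ _).trans hqq
  have hq0 : (0 : ℝ) < q := by exact_mod_cast hq.pos
  have hq1 : (1 : ℝ) < q := by exact_mod_cast hq.one_lt
  have hbig := hq₀ q ((le_max_left _ _).trans hqq)
  set g : ℝ := (Fintype.card G : ℝ) with hg
  have hg0 : 0 ≤ g := Nat.cast_nonneg _
  rcases Nat.eq_zero_or_pos X with hX0 | hX1
  · subst hX0
    have : PX G 0 = ∅ := by
      rw [Finset.eq_empty_iff_forall_notMem]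
      intro w hw
      rw [mem_PX] at hw
      omega
    rw [this]; simp
  set Dr : ℝ := C * (q : ℝ) ^ (ε / 8) with hDr
  have hqe : 1 ≤ (q : ℝ) ^ (ε / 8) := Real.one_le_rpow hq1.le (by positivity)
  have hDr0 : 0 ≤ Dr := by positivity
  have hD : ∀ m : ℕ, 0 < m → m ≤ q → m.divisors.card ≤ ⌊Dr⌋₊ := by
    intro m hm hmq
    apply Nat.le_floor
    refine (hC m hm.ne').trans ?_
    apply mul_le_mul_of_nonneg_left _ hC0.le
    exact Real.rpow_le_rpow (Nat.cast_nonneg _) (by exact_mod_cast hmq) (by positivity)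
  have hG2 : (Fintype.card G) ^ 2 ≤ q := by
    have h1 : g ^ 2 ≤ q := by
      calc g ^ 2 ≤ ((q : ℝ) ^ (15 / 41 : ℝ)) ^ 2 := pow_le_pow_left₀ hg0 hG 2
        _ = (q : ℝ) ^ (30 / 41 : ℝ) := by
            rw [← Real.rpow_natCast, ← Real.rpow_mul hq0.le]; norm_num
        _ ≤ (q : ℝ) ^ (1 : ℝ) := Real.rpow_le_rpow_of_exponent_le hq1.le (by norm_num)
        _ = q := Real.rpow_one _
    rw [hg] at h1
    exact_mod_cast h1
  obtain ⟨T, hT0, hT4, hTall⟩ := T_bound G hq9 hG2 ⌊Dr⌋₊ hD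
  rw [← hg] at hT4 hTall
  set ℓ : ℝ := (Nat.log 2 q : ℝ) + 1 with hℓ
  have hℓ1 : 1 ≤ ℓ := by
    have : (0 : ℝ) ≤ (Nat.log 2 q : ℝ) := Nat.cast_nonneg _
    rw [hℓ]; linarith
  have hℓ2 : ℓ ≤ 1 + 2 * Real.log q := by
    rw [hℓ]
    have h1 : (2 : ℝ) ^ (Nat.log 2 q) ≤ q := by exact_mod_cast Nat.pow_log_le_self 2 hq.pos.ne'
    have h2 := Real.log_le_log (by positivity) h1
    rw [Real.log_pow] at h2
    have h3 : (0.5 : ℝ) ≤ Real.log 2 := by linarith [Real.log_two_gt_d9]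
    have h4 : (0 : ℝ) ≤ Nat.log 2 q := Nat.cast_nonneg _
    nlinarith
  set a : ℝ := 2 * ((⌊Dr⌋₊ : ℕ) : ℝ) ^ 2 * ℓ with ha
  have ha0 : 0 ≤ a := by positivity
  set r : ℝ := (q : ℝ) ^ (1 / 41 : ℝ) with hr
  have hr1 : 1 ≤ r := Real.one_le_rpow hq1.le (by norm_num)
  have hr4 : 1 + g ^ 3 / q ≤ 2 * r ^ 4 := by
    have h1 : g ^ 3 / q ≤ r ^ 4 := by
      rw [div_le_iff₀ hq0]
      calc g ^ 3 ≤ ((q : ℝ) ^ (15 / 41 : ℝ)) ^ 3 := pow_le_pow_left₀ hg0 hG 3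
        _ = (q : ℝ) ^ (45 / 41 : ℝ) := by
            rw [← Real.rpow_natCast, ← Real.rpow_mul hq0.le]; norm_num
        _ = r ^ 4 * q := by
            rw [hr, ← Real.rpow_natCast, ← Real.rpow_mul hq0.le]
            nth_rewrite 3 [← Real.rpow_one (q : ℝ)]
            rw [← Real.rpow_add hq0]; norm_num
    have h2 : 1 ≤ r ^ 4 := one_le_pow₀ hr1
    linarith
  have hTr : T ≤ 5 * a * r := by
    have h1 : T ^ 4 ≤ (5 * a * r) ^ 4 := by
      refine hT4.trans ?_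
      calc 288 * a ^ 4 * (1 + g ^ 3 / q) ≤ 288 * a ^ 4 * (2 * r ^ 4) := mul_le_mul_of_nonneg_left hr4 (by positivity)
        _ = 576 * (a ^ 4 * r ^ 4) := by ring
        _ ≤ 625 * (a ^ 4 * r ^ 4) := by
            have : 0 ≤ a ^ 4 * r ^ 4 := by positivity
            linarith
        _ = _ := by ring
    exact le_of_pow_le_pow_left₀ (by norm_num) (by positivity) h1
  have hX0 : (0 : ℝ) < X := by exact_mod_cast hX1
  have hP := P_bound G X hX1 hX (T + 2 * g * (X / q) + 4) (by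
    intro L hL1 hL2
    refine (hTall L hL1 (lt_of_le_of_lt hL2 hX)).trans ?_
    apply mul_le_mul_of_nonneg_right _ (Nat.cast_nonneg _)
    have h3 : (L : ℝ) / q ≤ (X : ℝ) / q := by
      apply div_le_div_of_nonneg_right _ hq0.le
      exact_mod_cast hL2
    have h4 : 2 * g * ((L : ℝ) / q) ≤ 2 * g * ((X : ℝ) / q) := mul_le_mul_of_nonneg_left h3 (by positivity)
    linarith)
  have hU0 : 0 ≤ T + 2 * g * ((X : ℝ) / q) + 4 := by positivity
  have hlogX : 2 * ((Nat.log 2 X : ℝ) + 1) ≤ 2 * ℓ := by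
    have h1 : Nat.log 2 X ≤ Nat.log 2 q := Nat.log_mono_right hX.le
    have h2 : (Nat.log 2 X : ℝ) ≤ (Nat.log 2 q : ℝ) := by exact_mod_cast h1
    rw [hℓ]; linarith
  have hP2 : ((PX G X).card : ℝ) ≤ X * (2 * ℓ * (5 * a * r + 2 * g * (X / q) + 4)) := by
    refine hP.trans ?_
    apply mul_le_mul_of_nonneg_left _ hX0.le
    apply mul_le_mul hlogX _ hU0 (by positivity)
    linarith
  refine hP2.trans ?_
  -- collecting
  have hDf : ((⌊Dr⌋₊ : ℕ) : ℝ) ≤ Dr := Nat.floor_le hDr0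
  have hDf0 : (0 : ℝ) ≤ ((⌊Dr⌋₊ : ℕ) : ℝ) := Nat.cast_nonneg _
  have haC : a ≤ 2 * (C ^ 2 * (q : ℝ) ^ (ε / 4)) * ℓ := by
    rw [ha]
    apply mul_le_mul_of_nonneg_right _ (by linarith)
    apply mul_le_mul_of_nonneg_left _ (by norm_num)
    calc ((⌊Dr⌋₊ : ℕ) : ℝ) ^ 2 ≤ Dr ^ 2 := pow_le_pow_left₀ hDf0 hDf 2
      _ = C ^ 2 * (q : ℝ) ^ (ε / 4) := by
          rw [hDr, mul_pow, ← Real.rpow_natCast ((q : ℝ) ^ (ε / 8)) 2, ← Real.rpow_mul hq0.le]
          congr 2; push_cast; ring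
  set s : ℝ := (q : ℝ) ^ (ε / 4) with hs
  have hs1 : 1 ≤ s := Real.one_le_rpow hq1.le (by positivity)
  have hs4 : (q : ℝ) ^ ε = (q : ℝ) ^ (ε / 2) * s * s := by
    rw [hs, ← Real.rpow_add hq0, ← Real.rpow_add hq0]; congr 1; ring
  set h : ℝ := (q : ℝ) ^ (ε / 2) with hh
  have hℓh : 100 * (C + 1) ^ 2 * ℓ ^ 2 ≤ h := by
    refine le_trans ?_ hbig
    apply mul_le_mul_of_nonneg_left _ (by positivity)
    exact pow_le_pow_left₀ (by linarith) hℓ2 2
  have hh1 : 1 ≤ h := Real.one_le_rpow hq1.le (by positivity)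
  have hC1 : 1 ≤ (C + 1) ^ 2 := one_le_pow₀ (by linarith)
  have hCC : C ^ 2 ≤ (C + 1) ^ 2 := pow_le_pow_left₀ hC0.le (by linarith) 2
  have hℓℓ : ℓ ≤ ℓ ^ 2 := by nlinarith
  have k1 : 2 * ℓ * (5 * a * r) ≤ 20 * (C + 1) ^ 2 * ℓ ^ 2 * s * r := by
    have h1 : a ≤ 2 * ((C + 1) ^ 2 * s) * ℓ := by
      refine haC.trans ?_
      apply mul_le_mul_of_nonneg_right _ (by linarith)
      apply mul_le_mul_of_nonneg_left _ (by norm_num)
      exact mul_le_mul_of_nonneg_right hCC (by linarith)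
    calc 2 * ℓ * (5 * a * r) = 10 * ℓ * r * a := by ring
      _ ≤ 10 * ℓ * r * (2 * ((C + 1) ^ 2 * s) * ℓ) := mul_le_mul_of_nonneg_left h1 (by positivity)
      _ = _ := by ring
  have k2 : 2 * ℓ * 4 ≤ 8 * (C + 1) ^ 2 * ℓ ^ 2 * s * r := by
    have h1 : 1 * ℓ ≤ (C + 1) ^ 2 * ℓ ^ 2 := mul_le_mul hC1 hℓℓ (by linarith) (by positivity)
    have h2 : 1 ≤ s * r := one_le_mul_of_one_le_of_one_le hs1 hr1
    have h3 : (1 * ℓ) * 1 ≤ ((C + 1) ^ 2 * ℓ ^ 2) * (s * r) := mul_le_mul h1 h2 (by norm_num) (by positivity)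
    nlinarith
  have k3 : 2 * ℓ * (2 * g * (X / q)) ≤ 4 * (C + 1) ^ 2 * ℓ ^ 2 * s * (g * (X / q)) := by
    have h1 : 1 * ℓ ≤ (C + 1) ^ 2 * ℓ ^ 2 := mul_le_mul hC1 hℓℓ (by linarith) (by positivity)
    have h3 : (1 * ℓ) * 1 ≤ ((C + 1) ^ 2 * ℓ ^ 2) * s := mul_le_mul h1 hs1 (by norm_num) (by positivity)
    have h4 : 0 ≤ g * ((X : ℝ) / q) := by positivity
    nlinarith [mul_le_mul_of_nonneg_right h3 h4]
  have hgX : 0 ≤ g * ((X : ℝ) / q) := by positivity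
  have k4 : 2 * ℓ * (5 * a * r + 2 * g * (X / q) + 4) ≤ (100 * (C + 1) ^ 2 * ℓ ^ 2) * s * (r + g * (X / q)) := by
    have e : 2 * ℓ * (5 * a * r + 2 * g * (X / q) + 4) = 2 * ℓ * (5 * a * r) + 2 * ℓ * (2 * g * (X / q)) + 2 * ℓ * 4 := by
      ring
    rw [e]
    have p1 : 0 ≤ (C + 1) ^ 2 * ℓ ^ 2 * s * r := by positivity
    have p2 : 0 ≤ (C + 1) ^ 2 * ℓ ^ 2 * s * (g * (X / q)) := by positivity
    nlinarith
  calc (X : ℝ) * (2 * ℓ * (5 * a * r + 2 * g * (X / q) + 4)) ≤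
        X * ((100 * (C + 1) ^ 2 * ℓ ^ 2) * s * (r + g * (X / q))) := mul_le_mul_of_nonneg_left k4 hX0.le
    _ ≤ X * ((h * s) * s * (r + g * (X / q))) := by
        apply mul_le_mul_of_nonneg_left _ hX0.le
        apply mul_le_mul_of_nonneg_right _ (by positivity)
        apply mul_le_mul_of_nonneg_right _ (by linarith)
        have : h * 1 ≤ h * s := mul_le_mul_of_nonneg_left hs1 (by linarith)
        linarith
    _ = (q : ℝ) ^ ε * (g * (X : ℝ) ^ 2 / q + X * r) := by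
        rw [hs4]; ring

end Pool.Agent.K4H2.EC
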