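import Mathlib
import Pool.Agent.K4H2.EC.B

/-! The elements up to `q ^ (26/41 + μ)` of a subgroup of order at most `q ^ (15/41 - 2 μ)` have a small sum of
inverse square roots. -/

set_option autoImplicit false

namespace Pool.Agent.K4H2.EC
open Finset Pool.Agent.R311.RES Pool.Agent.K4H49.AC Filter Topology
open scoped Classical

variable {q : ℕ} [Fact q.Prime]

/-- the least exponent `k` with `q ^ 30 ≤ B ^ (41 k)` -/
lemma choose_k41 {q B : ℕ} (hq : 2 ≤ q) (hB : 2 ≤ B) : ∃ k : ℕ, 1 ≤ k ∧ q ^ 30 ≤ B ^ (41 * k) ∧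
    B ^ (41 * (k - 1)) < q ^ 30 := by
  have hex : ∃ k : ℕ, q ^ 30 ≤ B ^ (41 * k) := by
    refine ⟨q ^ 30, ?_⟩
    have h1 : q ^ 30 < B ^ (q ^ 30) := Nat.lt_pow_self (by omega)
    exact h1.le.trans (Nat.pow_le_pow_right (by omega) (by omega))
  have hs := Nat.find_spec hex
  have hm : ∀ m, m < Nat.find hex → ¬ q ^ 30 ≤ B ^ (41 * m) := fun m hm => Nat.find_min hex hm
  have h1 : 1 ≤ Nat.find hex := by
    rw [Nat.one_le_iff_ne_zero]
    intro h
    rw [h, Nat.mul_zero, pow_zero] at hs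
    have : 1 < q ^ 30 := Nat.one_lt_pow (by norm_num) (by omega)
    omega
  exact ⟨Nat.find hex, h1, hs, not_le.1 (hm _ (by omega))⟩

/-- the number of elements up to `B` against `√B` -/
theorem cell41 (G : Subgroup (ZMod q)ˣ) (μ : ℝ) (hμ : 0 < μ) (hG : (Fintype.card G : ℝ) ≤ (q : ℝ) ^ (15 / 41 - 2 * μ))
    (B k D : ℕ) (hB2 : 2 ≤ B) (hBq : (B : ℝ) ≤ 2 * (q : ℝ) ^ (26 / 41 + μ)) (hk : 1 ≤ k) (hk1 : q ^ 30 ≤ B ^ (41 * k))
    (hk2 : B ^ (41 * (k - 1)) < q ^ 30) (hD : ∀ m : ℕ, 0 < m → m ≤ B ^ k → m.divisors.card ≤ D) :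
    (((SG G B).card : ℝ) * rs B) ^ k ≤ 3 * (D : ℝ) ^ k * (q : ℝ) ^ (-μ) := by
  have hq : q.Prime := Fact.out
  have hq0 : (0 : ℝ) < q := by exact_mod_cast hq.pos
  have hq1 : (1 : ℝ) ≤ q := by exact_mod_cast hq.one_lt.le
  have hB0 : (0 : ℝ) < B := by exact_mod_cast (by omega : 0 < B)
  set c : ℝ := (q : ℝ) ^ (1 / 41 : ℝ) with hc
  have hc1 : 1 ≤ c := Real.one_le_rpow hq1 (by norm_num)
  have hc5 : c ^ 41 = q := by
    rw [hc, ← Real.rpow_natCast ((q : ℝ) ^ (1 / 41 : ℝ)) 41, ← Real.rpow_mul hq0.le]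
    norm_num
  set e : ℝ := (q : ℝ) ^ μ with he
  have he1 : 1 ≤ e := Real.one_le_rpow hq1 hμ.le
  have he0 : 0 < e := by linarith
  have hc3 : (q : ℝ) ^ (26 / 41 + μ) = c ^ 26 * e := by
    rw [Real.rpow_add hq0, he, hc, ← Real.rpow_natCast ((q : ℝ) ^ (1 / 41 : ℝ)) 26, ← Real.rpow_mul hq0.le]
    norm_num
  set s : ℝ := (Real.sqrt B) ^ k with hs
  have hs0 : 0 < s := by
    have := Real.sqrt_pos.2 hB0
    positivity
  have hs2 : s ^ 2 = (B : ℝ) ^ k := by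
    rw [hs, ← pow_mul, mul_comm, pow_mul, Real.sq_sqrt hB0.le]
  have hrs : rs B ^ k = s⁻¹ := by
    unfold rs
    rw [inv_pow]
  have hc0 : 0 < c := by linarith
  have hcs : c ^ 15 ≤ s := by
    have h1 : (c ^ 15) ^ 82 ≤ s ^ 82 := by
      have e1 : (c ^ 15) ^ 82 = (q : ℝ) ^ 30 := by rw [← hc5, ← pow_mul, ← pow_mul]
      have e2 : s ^ 82 = (B : ℝ) ^ (41 * k) := by
        calc s ^ 82 = (s ^ 2) ^ 41 := by ring
          _ = _ := by rw [hs2, ← pow_mul]; congr 1; ring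
      rw [e1, e2]
      exact_mod_cast hk1
    exact le_of_pow_le_pow_left₀ (by norm_num) hs0.le h1
  have hsc : s ≤ 2 * (c ^ 26 * e) := by
    have h1 : s ^ 2 ≤ (2 * (c ^ 26 * e)) ^ 2 := by
      rw [hs2]
      have hBc : (B : ℝ) ≤ 2 * (c ^ 26 * e) := by rw [← hc3]; exact hBq
      rcases Nat.lt_or_ge 2 k with h | h
      · have hr : (B : ℝ) ^ (k - 1) ≤ c ^ 30 := by
          have h2 : ((B : ℝ) ^ (k - 1)) ^ 41 ≤ (c ^ 30) ^ 41 := by
            have e1 : (c ^ 30) ^ 41 = (q : ℝ) ^ 30 := by rw [← hc5, ← pow_mul, ← pow_mul]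
            rw [e1, ← pow_mul, mul_comm (k - 1) 41]
            exact_mod_cast hk2.le
          exact le_of_pow_le_pow_left₀ (by norm_num) (by positivity) h2
        have hBr : (B : ℝ) ^ 2 ≤ (B : ℝ) ^ (k - 1) := by
          have : B ^ 2 ≤ B ^ (k - 1) := Nat.pow_le_pow_right (by omega) (by omega)
          exact_mod_cast this
        have hB2c : (B : ℝ) ≤ c ^ 15 := by
          have h3 : (B : ℝ) ^ 2 ≤ (c ^ 15) ^ 2 := (hBr.trans hr).trans (le_of_eq (by rw [← pow_mul]))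
          exact le_of_pow_le_pow_left₀ (by norm_num) (by positivity) h3
        have e2 : (B : ℝ) ^ k = (B : ℝ) ^ (k - 1) * B := by
          rw [← pow_succ]; congr 1; omega
        have h45 : c ^ 45 ≤ c ^ 52 := pow_le_pow_right₀ hc1 (by norm_num)
        have hee : 1 ≤ e ^ 2 := one_le_pow₀ he1
        have hc52 : 0 < c ^ 52 := by positivity
        rw [e2]
        calc (B : ℝ) ^ (k - 1) * B ≤ c ^ 30 * c ^ 15 := mul_le_mul hr hB2c hB0.le (by positivity)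
          _ = c ^ 45 := by rw [← pow_add]
          _ ≤ c ^ 52 := h45
          _ ≤ c ^ 52 * (4 * e ^ 2) := by nlinarith
          _ = (2 * (c ^ 26 * e)) ^ 2 := by ring
      · have hk' : (B : ℝ) ^ k ≤ (B : ℝ) ^ 2 := by
          have : B ^ k ≤ B ^ 2 := Nat.pow_le_pow_right (by omega) h
          exact_mod_cast this
        refine hk'.trans ?_
        exact pow_le_pow_left₀ hB0.le hBc 2
    exact le_of_pow_le_pow_left₀ (by norm_num) (by positivity) h1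
  have hcnt := cnt_pow G B k D hD
  have hcnt' : ((SG G B).card : ℝ) ^ k ≤ (Fintype.card G : ℝ) * (s ^ 2 / c ^ 41 + 1) * (D : ℝ) ^ k := by
    have h1 : ((SG G B).card : ℝ) ^ k ≤ (Fintype.card G : ℝ) * (((B ^ k / q : ℕ) : ℝ) + 1) * (D : ℝ) ^ k := by
      exact_mod_cast hcnt
    refine h1.trans ?_
    apply mul_le_mul_of_nonneg_right _ (by positivity)
    apply mul_le_mul_of_nonneg_left _ (Nat.cast_nonneg _)
    have h2 : ((B ^ k / q : ℕ) : ℝ) ≤ ((B ^ k : ℕ) : ℝ) / (q : ℝ) := Nat.cast_div_le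
    rw [hs2, hc5]
    push_cast at h2
    linarith
  rw [mul_pow, hrs]
  have h5 : (Fintype.card G : ℝ) ≤ c ^ 15 * ((q : ℝ) ^ (-μ) / e) := by
    refine hG.trans (le_of_eq ?_)
    have e1 : (q : ℝ) ^ (-μ) / e = (q : ℝ) ^ (-(2 * μ)) := by
      rw [he, ← Real.rpow_sub hq0]; congr 1; ring
    rw [e1, hc, ← Real.rpow_natCast ((q : ℝ) ^ (1 / 41 : ℝ)) 15, ← Real.rpow_mul hq0.le, ← Real.rpow_add hq0]
    congr 1
    push_cast
    ring
  have h6 : (s ^ 2 / c ^ 41 + 1) * s⁻¹ ≤ 3 * e / c ^ 15 := by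
    have e1 : (s ^ 2 / c ^ 41 + 1) * s⁻¹ = s / c ^ 41 + 1 / s := by
      field_simp
    rw [e1]
    have h7 : s / c ^ 41 ≤ 2 * e / c ^ 15 := by
      rw [div_le_div_iff₀ (by positivity) (by positivity)]
      calc s * c ^ 15 ≤ 2 * (c ^ 26 * e) * c ^ 15 := mul_le_mul_of_nonneg_right hsc (by positivity)
        _ = 2 * e * (c ^ 26 * c ^ 15) := by ring
        _ = 2 * e * c ^ 41 := by rw [← pow_add]
    have h8 : 1 / s ≤ 1 / c ^ 15 := one_div_le_one_div_of_le (by positivity) hcs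
    have h9 : 1 / c ^ 15 ≤ e / c ^ 15 := div_le_div_of_nonneg_right he1 (by positivity)
    calc s / c ^ 41 + 1 / s ≤ 2 * e / c ^ 15 + e / c ^ 15 := add_le_add h7 (h8.trans h9)
      _ = 3 * e / c ^ 15 := by ring
  have hD0 : (0 : ℝ) ≤ (D : ℝ) ^ k := by positivity
  have hqm : 0 < (q : ℝ) ^ (-μ) := Real.rpow_pos_of_pos hq0 _
  calc ((SG G B).card : ℝ) ^ k * s⁻¹ ≤ ((Fintype.card G : ℝ) * (s ^ 2 / c ^ 41 + 1) * (D : ℝ) ^ k) * s⁻¹ :=
        mul_le_mul_of_nonneg_right hcnt' (by positivity)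
    _ = (Fintype.card G : ℝ) * (D : ℝ) ^ k * ((s ^ 2 / c ^ 41 + 1) * s⁻¹) := by ring
    _ ≤ (c ^ 15 * ((q : ℝ) ^ (-μ) / e)) * (D : ℝ) ^ k * (3 * e / c ^ 15) := by
        apply mul_le_mul _ h6 (by positivity) (by positivity)
        exact mul_le_mul_of_nonneg_right h5 hD0
    _ = 3 * (D : ℝ) ^ k * (q : ℝ) ^ (-μ) := by field_simp

/-- **The elements up to `q ^ (26/41 + μ)` of a subgroup of order at most `q ^ (15/41 - 2 μ)`.** -/
theorem few_G41 (μ δ : ℝ) (hμ : 0 < μ) (hδ : 0 < δ) : ∃ ε₁ : ℝ, 0 < ε₁ ∧ ε₁ ≤ μ / 2 ∧ ∃ q₀ : ℕ, ∀ (q : ℕ) [Fact q.Prime],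
    q₀ ≤ q → ∀ (G : Subgroup (ZMod q)ˣ), (Fintype.card G : ℝ) ≤ (q : ℝ) ^ (15 / 41 - 2 * μ) → ∀ (Y N : ℕ),
      (q : ℝ) ^ δ / 2 ≤ Y → (N : ℝ) ≤ (q : ℝ) ^ (26 / 41 + μ) →
      ∑ u ∈ univ.filter (fun u : (ZMod q)ˣ => u ∈ G ∧ Y < (u : ZMod q).val ∧ (u : ZMod q).val ≤ N),
        ((u : ZMod q).val.divisors.card : ℝ) * rs (u : ZMod q).val ≤ (q : ℝ) ^ (-ε₁) := by
  set K : ℕ := ⌈4 / δ⌉₊ + 1 with hK
  have hK1 : 1 ≤ K := by omega
  have hKr : (0 : ℝ) < K := by exact_mod_cast (by omega : 0 < K)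
  have hK1r : (1 : ℝ) ≤ K := by exact_mod_cast hK1
  obtain ⟨C, hC0, hC⟩ := H353.divisor_bound_real (μ / (16 * K ^ 2)) (by positivity)
  set C' : ℝ := max (6 * C ^ 2) 2 with hC'
  have hC'0 : 0 < C' := lt_max_of_lt_right (by norm_num)
  have hev : ∀ᶠ q : ℕ in atTop, C' * (1 + C' * Real.log (q : ℝ)) ≤ (q : ℝ) ^ (μ / (4 * K)) :=
    tendsto_natCast_atTop_atTop.eventually (ev_log_small C' (μ / (4 * K)) (by positivity))
  have hev2 : ∀ᶠ q : ℕ in atTop, (2 : ℝ) ≤ (q : ℝ) ^ (δ / 2) :=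
    ((tendsto_rpow_atTop (by positivity : 0 < δ / 2)).comp tendsto_natCast_atTop_atTop).eventually_ge_atTop _
  have hev3 : ∀ᶠ q : ℕ in atTop, (3 : ℝ) ≤ (q : ℝ) ^ μ :=
    ((tendsto_rpow_atTop hμ).comp tendsto_natCast_atTop_atTop).eventually_ge_atTop _
  obtain ⟨q₀, hq₀⟩ := eventually_atTop.1 ((hev.and hev2).and hev3)
  refine ⟨μ / (2 * K), by positivity, ?_, max q₀ 3, ?_⟩
  · apply div_le_div_of_nonneg_left hμ.le (by norm_num)
    linarith
  intro q _ hqq G hG Y N hY hN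
  have hq : q.Prime := Fact.out
  have : NeZero q := ⟨hq.pos.ne'⟩
  have hq3 : 3 ≤ q := le_trans (le_max_right _ _) hqq
  have hq0 : (0 : ℝ) < q := by exact_mod_cast hq.pos
  have hq1 : (1 : ℝ) < q := by exact_mod_cast hq.one_lt
  have hlq : 0 ≤ Real.log q := Real.log_nonneg hq1.le
  obtain ⟨⟨hbig, hbig2⟩, hbig3⟩ := hq₀ q (le_trans (le_max_left _ _) hqq)
  set J := univ.filter (fun u : (ZMod q)ˣ => u ∈ G ∧ Y < (u : ZMod q).val ∧ (u : ZMod q).val ≤ N) with hJ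
  set x : ℝ := 3 * (q : ℝ) ^ (-μ) with hx
  have hqμ : 0 < (q : ℝ) ^ μ := Real.rpow_pos_of_pos hq0 _
  have hx0 : 0 ≤ x := by positivity
  have hx1 : x ≤ 1 := by
    rw [hx, Real.rpow_neg hq0.le, ← div_eq_mul_inv, div_le_one hqμ]
    exact hbig3
  set Dr : ℝ := C * (q : ℝ) ^ (μ / (8 * K)) with hDr
  have hDr0 : 0 ≤ Dr := by positivity
  have hYq : (q : ℝ) ^ (δ / 2) ≤ Y := by
    refine le_trans ?_ hY
    have e : (q : ℝ) ^ δ = (q : ℝ) ^ (δ / 2) * (q : ℝ) ^ (δ / 2) := by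
      rw [← Real.rpow_add hq0]; congr 1; ring
    rw [e]
    have : 0 < (q : ℝ) ^ (δ / 2) := Real.rpow_pos_of_pos hq0 _
    nlinarith
  -- one cell
  have hdiv : ∀ m : ℕ, 0 < m → (m : ℝ) ≤ (q : ℝ) ^ (2 * K : ℝ) → (m.divisors.card : ℝ) ≤ Dr := by
    intro m hm0 hm
    refine (hC m hm0.ne').trans ?_
    rw [hDr]
    apply mul_le_mul_of_nonneg_left _ hC0.le
    refine (Real.rpow_le_rpow (Nat.cast_nonneg m) hm (by positivity)).trans ?_
    rw [← Real.rpow_mul hq0.le]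
    apply le_of_eq
    congr 1
    field_simp
    norm_num
  have hcell : ∀ i : ℕ, (∃ u ∈ J, Nat.log 2 (u : ZMod q).val = i) →
      ((SG G (2 ^ (i + 1))).card : ℝ) * rs (2 ^ (i + 1)) ≤ Dr * x ^ (1 / (K : ℝ)) := by
    rintro i ⟨u, hu, hui⟩
    rw [hJ, mem_filter] at hu
    have hv0 : (u : ZMod q).val ≠ 0 := (val_pos u).ne'
    have hvq : (u : ZMod q).val < q := ZMod.val_lt _
    have hlow : 2 ^ i ≤ (u : ZMod q).val := by
      rw [← hui]; exact Nat.pow_log_le_self 2 hv0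
    have hup : (u : ZMod q).val < 2 ^ (i + 1) := by
      rw [← hui]; exact Nat.lt_pow_succ_log_self (by norm_num) _
    set B : ℕ := 2 ^ (i + 1) with hB
    have hB2 : 2 ≤ B := by
      rw [hB, pow_succ]
      have : 1 ≤ 2 ^ i := Nat.one_le_two_pow
      omega
    have hBq : B ≤ 2 * q := by
      rw [hB, pow_succ]; omega
    have hBq' : (B : ℝ) ≤ 2 * (q : ℝ) ^ (26 / 41 + μ) := by
      have h1 : B ≤ 2 * N := by
        have := hu.2.2.2
        rw [hB, pow_succ]; omega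
      have h2 : (B : ℝ) ≤ 2 * (N : ℝ) := by exact_mod_cast h1
      linarith
    have hYB : Y < B := hu.2.2.1.trans hup
    obtain ⟨k, hk1, hk2, hk3⟩ := choose_k41 hq.two_le hB2
    have hkK : k ≤ K := by
      by_contra hcon
      have hk' : ⌈4 / δ⌉₊ + 1 ≤ k - 1 := by omega
      have h1 : ((q : ℝ) ^ (δ / 2)) ^ (41 * (k - 1)) < (q : ℝ) ^ 30 := by
        have h2 : ((q : ℝ) ^ (δ / 2)) ^ (41 * (k - 1)) ≤ (B : ℝ) ^ (41 * (k - 1)) := by
          apply pow_le_pow_left₀ (by positivity)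
          have : (Y : ℝ) ≤ B := by exact_mod_cast hYB.le
          linarith
        have h3 : (B : ℝ) ^ (41 * (k - 1)) < (q : ℝ) ^ 30 := by exact_mod_cast hk3
        linarith
      rw [← Real.rpow_natCast ((q : ℝ) ^ (δ / 2)) (41 * (k - 1)), ← Real.rpow_mul hq0.le,
        ← Real.rpow_natCast (q : ℝ) 30, Real.rpow_lt_rpow_left_iff hq1] at h1
      have h4 : 4 / δ ≤ (⌈4 / δ⌉₊ : ℝ) := Nat.le_ceil _
      have h5 : (⌈4 / δ⌉₊ : ℝ) + 1 ≤ ((k - 1 : ℕ) : ℝ) := by exact_mod_cast hk'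
      push_cast at h1
      rw [div_le_iff₀ hδ] at h4
      nlinarith
    have hBK : ((B ^ k : ℕ) : ℝ) ≤ (q : ℝ) ^ (2 * K : ℝ) := by
      have h1 : (B : ℝ) ≤ (q : ℝ) ^ 2 := by
        have : B ≤ q ^ 2 := by nlinarith
        exact_mod_cast this
      have h2 : (1 : ℝ) ≤ (q : ℝ) ^ 2 := by nlinarith
      push_cast
      calc (B : ℝ) ^ k ≤ ((q : ℝ) ^ 2) ^ k := pow_le_pow_left₀ (Nat.cast_nonneg _) h1 k
        _ ≤ ((q : ℝ) ^ 2) ^ K := pow_le_pow_right₀ h2 hkK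
        _ = (q : ℝ) ^ (2 * K : ℝ) := by
            rw [← pow_mul, ← Real.rpow_natCast]
            push_cast
            rfl
    have hDD : ∀ m : ℕ, 0 < m → m ≤ B ^ k → m.divisors.card ≤ ⌊Dr⌋₊ := by
      intro m hm0 hm
      apply Nat.le_floor
      apply hdiv m hm0
      refine le_trans ?_ hBK
      exact_mod_cast hm
    have h1 := cell41 G μ hμ hG B k ⌊Dr⌋₊ hB2 hBq' hk1 hk2 hk3 hDD
    have hD1 : 1 ≤ ⌊Dr⌋₊ := by
      have := hDD 1 Nat.one_pos (Nat.one_le_pow _ _ (by omega))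
      simpa using this
    have hD1r : (1 : ℝ) ≤ (⌊Dr⌋₊ : ℝ) := by exact_mod_cast hD1
    set y : ℝ := ((SG G B).card : ℝ) * rs B / (⌊Dr⌋₊ : ℝ) with hy
    have hy0 : 0 ≤ y := div_nonneg (mul_nonneg (Nat.cast_nonneg _) (rs_nonneg _)) (by linarith)
    have h2 : y ^ k ≤ x := by
      rw [hy, div_pow, div_le_iff₀ (by positivity)]
      refine h1.trans (le_of_eq ?_)
      rw [hx]; ring
    have h3 := root_bd hy0 hx1 hx0 hk1 hkK h2
    rw [hy, div_le_iff₀ (by linarith)] at h3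
    have h4 : 0 ≤ x ^ (1 / (K : ℝ)) := Real.rpow_nonneg hx0 _
    calc ((SG G B).card : ℝ) * rs B ≤ x ^ (1 / (K : ℝ)) * (⌊Dr⌋₊ : ℝ) := h3
      _ ≤ x ^ (1 / (K : ℝ)) * Dr := mul_le_mul_of_nonneg_left (Nat.floor_le hDr0) h4
      _ = _ := by ring
  -- all the cells
  have hmaps : ∀ u ∈ J, Nat.log 2 (u : ZMod q).val ∈ range (Nat.log 2 q + 1) := by
    intro u _
    rw [mem_range, Nat.lt_succ_iff]
    exact Nat.log_mono_right (ZMod.val_lt _).le
  rw [← Finset.sum_fiberwise_of_maps_to hmaps]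
  have hx2 : 0 ≤ x ^ (1 / (K : ℝ)) := Real.rpow_nonneg hx0 _
  have hone : ∀ i ∈ range (Nat.log 2 q + 1), ∑ u ∈ J.filter (fun u : (ZMod q)ˣ => Nat.log 2 (u : ZMod q).val = i),
      ((u : ZMod q).val.divisors.card : ℝ) * rs (u : ZMod q).val ≤ 2 * (Dr * (Dr * x ^ (1 / (K : ℝ)))) := by
    intro i _
    rcases (J.filter (fun u : (ZMod q)ˣ => Nat.log 2 (u : ZMod q).val = i)).eq_empty_or_nonempty with h0 | ⟨u₀, hu₀⟩
    · rw [h0, Finset.sum_empty]
      positivity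
    · rw [mem_filter] at hu₀
      have h1 := hcell i ⟨u₀, hu₀.1, hu₀.2⟩
      have h2 : ∀ u ∈ J.filter (fun u : (ZMod q)ˣ => Nat.log 2 (u : ZMod q).val = i),
          ((u : ZMod q).val.divisors.card : ℝ) * rs (u : ZMod q).val ≤ Dr * (2 * rs (2 ^ (i + 1))) := by
        intro u hu
        rw [mem_filter] at hu
        have hv0 : (u : ZMod q).val ≠ 0 := (val_pos u).ne'
        have hlow : 2 ^ i ≤ (u : ZMod q).val := by
          rw [← hu.2]; exact Nat.pow_log_le_self 2 hv0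
        apply mul_le_mul _ _ (rs_nonneg _) hDr0
        · apply hdiv _ (val_pos u)
          have h3 : ((u : ZMod q).val : ℝ) ≤ q := by exact_mod_cast (ZMod.val_lt (u : ZMod q)).le
          refine h3.trans ?_
          calc (q : ℝ) = (q : ℝ) ^ (1 : ℝ) := (Real.rpow_one _).symm
            _ ≤ (q : ℝ) ^ (2 * K : ℝ) := Real.rpow_le_rpow_of_exponent_le hq1.le (by linarith)
        · refine (rs_anti (by positivity) hlow).trans ?_
          have := rs_two_mul (2 ^ i)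
          rwa [← pow_succ'] at this
      refine (Finset.sum_le_sum h2).trans ?_
      rw [Finset.sum_const, nsmul_eq_mul]
      have h4 : ((J.filter (fun u : (ZMod q)ˣ => Nat.log 2 (u : ZMod q).val = i)).card : ℝ) ≤ (SG G (2 ^ (i + 1))).card := by
        have : (J.filter (fun u : (ZMod q)ˣ => Nat.log 2 (u : ZMod q).val = i)) ⊆ SG G (2 ^ (i + 1)) := by
          intro u hu
          rw [mem_filter, hJ, mem_filter] at hu
          rw [mem_SG]
          refine ⟨hu.1.2.1, ?_⟩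
          rw [← hu.2]
          exact (Nat.lt_pow_succ_log_self (by norm_num) _).le
        exact_mod_cast card_le_card this
      have h5 := rs_nonneg (2 ^ (i + 1))
      calc ((J.filter (fun u : (ZMod q)ˣ => Nat.log 2 (u : ZMod q).val = i)).card : ℝ) * (Dr * (2 * rs (2 ^ (i + 1)))) ≤
            (SG G (2 ^ (i + 1))).card * (Dr * (2 * rs (2 ^ (i + 1)))) :=
              mul_le_mul_of_nonneg_right h4 (by positivity)
        _ = 2 * (Dr * ((SG G (2 ^ (i + 1))).card * rs (2 ^ (i + 1)))) := by ring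
        _ ≤ _ := by
            apply mul_le_mul_of_nonneg_left _ (by norm_num)
            exact mul_le_mul_of_nonneg_left h1 hDr0
  refine (Finset.sum_le_sum hone).trans ?_
  rw [Finset.sum_const, card_range, nsmul_eq_mul]
  have hlog : ((Nat.log 2 q + 1 : ℕ) : ℝ) ≤ 1 + 2 * Real.log q := by
    push_cast
    have h1 : (2 : ℝ) ^ (Nat.log 2 q) ≤ q := by exact_mod_cast Nat.pow_log_le_self 2 hq.pos.ne'
    have h2 := Real.log_le_log (by positivity) h1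
    rw [Real.log_pow] at h2
    have h3 : (0.5 : ℝ) ≤ Real.log 2 := by linarith [Real.log_two_gt_d9]
    have h4 : (0 : ℝ) ≤ Nat.log 2 q := Nat.cast_nonneg _
    nlinarith
  have hxK : x ^ (1 / (K : ℝ)) ≤ 3 * (q : ℝ) ^ (-(μ / K)) := by
    rw [hx, Real.mul_rpow (by norm_num) (by positivity), ← Real.rpow_mul hq0.le]
    have e1 : -μ * (1 / (K : ℝ)) = -(μ / K) := by ring
    rw [e1]
    apply mul_le_mul_of_nonneg_right _ (by positivity)
    calc (3 : ℝ) ^ (1 / (K : ℝ)) ≤ (3 : ℝ) ^ (1 : ℝ) := by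
          apply Real.rpow_le_rpow_of_exponent_le (by norm_num)
          rw [div_le_one hKr]; exact hK1r
      _ = 3 := Real.rpow_one _
  have e2 : Dr * Dr = C ^ 2 * (q : ℝ) ^ (μ / (4 * K)) := by
    have : (q : ℝ) ^ (μ / (4 * K)) = (q : ℝ) ^ (μ / (8 * K)) * (q : ℝ) ^ (μ / (8 * K)) := by
      rw [← Real.rpow_add hq0]; congr 1; field_simp; norm_num
    rw [this, hDr]; ring
  have e3 : 6 * C ^ 2 * (1 + 2 * Real.log q) ≤ (q : ℝ) ^ (μ / (4 * K)) := by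
    refine le_trans ?_ hbig
    have h1 : 6 * C ^ 2 ≤ C' := le_max_left _ _
    have h2 : (2 : ℝ) ≤ C' := le_max_right _ _
    apply mul_le_mul h1 _ (by positivity) hC'0.le
    have := mul_le_mul_of_nonneg_right h2 hlq
    linarith
  have e4 : (q : ℝ) ^ (-(μ / (2 * K))) = (q : ℝ) ^ (μ / (4 * K)) * (q : ℝ) ^ (μ / (4 * K)) * (q : ℝ) ^ (-(μ / K)) := by
    rw [← Real.rpow_add hq0, ← Real.rpow_add hq0]
    congr 1
    field_simp
    ring
  rw [e4]
  have hqK : 0 < (q : ℝ) ^ (-(μ / K)) := Real.rpow_pos_of_pos hq0 _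
  have hq4 : 0 < (q : ℝ) ^ (μ / (4 * K)) := Real.rpow_pos_of_pos hq0 _
  calc ((Nat.log 2 q + 1 : ℕ) : ℝ) * (2 * (Dr * (Dr * x ^ (1 / (K : ℝ))))) =
      ((Nat.log 2 q + 1 : ℕ) : ℝ) * (2 * ((Dr * Dr) * x ^ (1 / (K : ℝ)))) := by ring
    _ ≤ (1 + 2 * Real.log q) * (2 * ((Dr * Dr) * (3 * (q : ℝ) ^ (-(μ / K))))) := by
        apply mul_le_mul hlog _ (by positivity) (by positivity)
        apply mul_le_mul_of_nonneg_left _ (by norm_num)
        exact mul_le_mul_of_nonneg_left hxK (by positivity)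
    _ = (6 * C ^ 2 * (1 + 2 * Real.log q)) * (q : ℝ) ^ (μ / (4 * K)) * (q : ℝ) ^ (-(μ / K)) := by
        rw [e2]; ring
    _ ≤ _ := by
        apply mul_le_mul_of_nonneg_right _ hqK.le
        exact mul_le_mul_of_nonneg_right e3 hq4.le

end Pool.Agent.K4H2.EC
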