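import Mathlib
import Pool.Agent.K4H2.EC.G5
import Pool.Agent.K4H2.EC.F

/-! The mollified first moment over a coset of characters, with the residues above `N` separated. -/

set_option autoImplicit false

namespace Pool.Agent.K4H2.EC
open Finset Pool.Agent.R311.RES Pool.Agent.K4H49.AC Filter Topology
open scoped Classical

variable {q : ℕ} [Fact q.Prime]

/-- the sum over the elements with a large residue -/
noncomputable def DS (G : Subgroup (ZMod q)ˣ) (χ : DirichletCharacter ℂ q) (t : (ZMod q)ˣ) (N : ℕ) : ℂ :=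
  ∑ g ∈ univ.filter (fun g : (ZMod q)ˣ => g ∈ G ∧ N < ((g * t : (ZMod q)ˣ) : ZMod q).val),
        χ (g : ZMod q) * (rs ((g * t : (ZMod q)ˣ) : ZMod q).val : ℂ)

/-- the short part -/
noncomputable def hS (N : ℕ) (g : (ZMod q)ˣ) : ℝ := if (g : ZMod q).val ≤ N then rs (g : ZMod q).val else 0

/-- the long part -/
noncomputable def hL (N : ℕ) (g : (ZMod q)ˣ) : ℝ := if N < (g : ZMod q).val then rs (g : ZMod q).val else 0

lemma hS_add (N : ℕ) (g : (ZMod q)ˣ) : hS N g + hL N g = rs (g : ZMod q).val := by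
  unfold hS hL
  by_cases h : (g : ZMod q).val ≤ N
  · rw [if_pos h, if_neg (not_lt.2 h), add_zero]
  · rw [if_neg h, if_pos (not_le.1 h), zero_add]

lemma hzv_split (N : ℕ) (g : (ZMod q)ˣ) : ‖hzv q g - ((hS N g + hL N g : ℝ) : ℂ)‖ ≤ 3 * rs q := by
  rw [hS_add]
  exact hzv_rs g

/-- the short coefficients -/
noncomputable def CN (Y N : ℕ) (u : (ZMod q)ˣ) : ℝ :=
  ∑ a ∈ AA ∅ Y, ((ArithmeticFunction.moebius a : ℤ) : ℝ) * rs a * hS N (u * (un q a)⁻¹)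

/-- the long coefficients -/
noncomputable def CL (Y N : ℕ) (u : (ZMod q)ˣ) : ℝ :=
  ∑ a ∈ AA ∅ Y, ((ArithmeticFunction.moebius a : ℤ) : ℝ) * rs a * hL N (u * (un q a)⁻¹)

lemma mu_abs (a : ℕ) : |((ArithmeticFunction.moebius a : ℤ) : ℝ)| ≤ 1 := by
  exact_mod_cast ArithmeticFunction.abs_moebius_le_one (n := a)

lemma AA_le (Y : ℕ) : ((AA ∅ Y).card : ℝ) ≤ Y := by
  have : (AA ∅ Y).card ≤ (Icc 1 Y).card := card_le_card (filter_subset _ _)
  rw [Nat.card_Icc] at this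
  exact_mod_cast this

lemma CC_split (Y N : ℕ) (u : (ZMod q)ˣ) :
    ‖CC q ∅ Y u - ((CN Y N u + CL Y N u : ℝ) : ℂ)‖ ≤ 3 * Y * rs q := by
  have hrq := rs_nonneg q
  unfold CC CN CL
  rw [← Finset.sum_add_distrib, Complex.ofReal_sum, ← Finset.sum_sub_distrib]
  refine (norm_sum_le _ _).trans ?_
  have e : ∀ a ∈ AA ∅ Y, ‖((((ArithmeticFunction.moebius a : ℤ) : ℝ) * rs a : ℝ) : ℂ) *
      hzv q (u * (un q a)⁻¹) - ((((ArithmeticFunction.moebius a : ℤ) : ℝ) * rs a * hS N (u * (un q a)⁻¹) +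
        ((ArithmeticFunction.moebius a : ℤ) : ℝ) * rs a * hL N (u * (un q a)⁻¹) : ℝ) : ℂ)‖ ≤ 3 * rs q := by
    intro a _
    rw [← mul_add, Complex.ofReal_mul (((ArithmeticFunction.moebius a : ℤ) : ℝ) * rs a), ← mul_sub,
      norm_mul, Complex.norm_real, Real.norm_eq_abs, abs_mul, abs_of_nonneg (rs_nonneg a)]
    have h1 := hzv_split N (u * (un q a)⁻¹)
    have h2 : |((ArithmeticFunction.moebius a : ℤ) : ℝ)| * rs a ≤ 1 := by
      have := mul_le_mul (mu_abs a) (rs_le_one a) (rs_nonneg a) zero_le_one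
      linarith
    calc _ ≤ 1 * (3 * rs q) := mul_le_mul h2 h1 (norm_nonneg _) zero_le_one
      _ = _ := one_mul _
  refine (Finset.sum_le_sum e).trans ?_
  rw [Finset.sum_const, nsmul_eq_mul]
  calc _ ≤ (Y : ℝ) * (3 * rs q) := mul_le_mul_of_nonneg_right (AA_le Y) (by positivity)
    _ = _ := by ring

lemma term_eq {Y N : ℕ} (hN : Y * N < q) (hYN : Y ≤ N) (u : (ZMod q)ˣ) {a : ℕ} (ha : 0 < a) (haY : a ≤ Y) :
    rs a * hS N (u * (un q a)⁻¹) =
      if a ∣ (u : ZMod q).val ∧ (u : ZMod q).val ≤ a * N then rs (u : ZMod q).val else 0 := by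
  have hN0 : 0 < N := by omega
  have hYq : a < q := by
    refine lt_of_le_of_lt haY (lt_of_le_of_lt ?_ hN)
    exact Nat.le_mul_of_pos_right _ hN0
  obtain ⟨h1, h2⟩ := div_val u ha hYq
  unfold hS
  by_cases hd : a ∣ (u : ZMod q).val
  · have h3 := h1 hd
    by_cases hw : ((u * (un q a)⁻¹ : (ZMod q)ˣ) : ZMod q).val ≤ N
    · rw [if_pos hw, if_pos ⟨hd, by rw [← h3]; exact Nat.mul_le_mul_left _ hw⟩, ← rs_mul, h3]
    · rw [if_neg hw, if_neg, mul_zero]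
      rintro ⟨-, h4⟩
      rw [← h3] at h4
      exact hw (Nat.le_of_mul_le_mul_left h4 ha)
  · have h3 := h2 hd
    have hw : ¬ ((u * (un q a)⁻¹ : (ZMod q)ˣ) : ZMod q).val ≤ N := by
      intro hw
      have := Nat.mul_le_mul haY hw
      omega
    rw [if_neg hw, if_neg (fun h => hd h.1), mul_zero]

lemma CN_eq {Y N : ℕ} (hN : Y * N < q) (hYN : Y ≤ N) (u : (ZMod q)ˣ) :
    CN Y N u = ∑ a ∈ (AA ∅ Y).filter (fun a => a ∣ (u : ZMod q).val ∧ (u : ZMod q).val ≤ a * N),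
      ((ArithmeticFunction.moebius a : ℤ) : ℝ) * rs (u : ZMod q).val := by
  unfold CN
  rw [Finset.sum_filter]
  apply Finset.sum_congr rfl
  intro a ha
  rw [AA, mem_filter, mem_Icc] at ha
  rw [mul_assoc, term_eq hN hYN u ha.1.1 ha.1.2]
  split_ifs
  · rfl
  · rw [mul_zero]

lemma CN_approx {Y N : ℕ} (hN : Y * N < q) (hYN : Y ≤ N) (u : (ZMod q)ˣ) :
    |CN Y N u - CS q ∅ Y u| ≤ if Y < (u : ZMod q).val ∧ (u : ZMod q).val ≤ Y * N then
      ((u : ZMod q).val.divisors.card : ℝ) * rs (u : ZMod q).val else 0 := by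
  set v := (u : ZMod q).val with hv
  have hv0 : 0 < v := val_pos u
  have hI : ∀ p ∈ (∅ : Finset ℕ), p.Prime := fun p hp => absurd hp (notMem_empty p)
  rw [CN_eq hN hYN, ← hv]
  by_cases hvY : v ≤ Y
  · rw [if_neg (by omega)]
    have e1 : (AA ∅ Y).filter (fun a => a ∣ v ∧ v ≤ a * N) = v.divisors.filter (fun a => ∀ p ∈ (∅ : Finset ℕ), ¬ p ∣ a) := by
      ext a
      simp only [AA, mem_filter, mem_Icc, Nat.mem_divisors]
      constructor
      · rintro ⟨⟨⟨a1, a2⟩, a3⟩, a4, a5⟩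
        exact ⟨⟨a4, hv0.ne'⟩, a3⟩
      · rintro ⟨⟨a1, a2⟩, a3⟩
        have := Nat.le_of_dvd hv0 a1
        have h0 := Nat.pos_of_dvd_of_pos a1 hv0
        have h1 : N ≤ a * N := Nat.le_mul_of_pos_left _ h0
        exact ⟨⟨⟨h0, by omega⟩, a3⟩, a1, by omega⟩
    have e2 := mu_sum ∅ hI hv0.ne'
    have e3 : ∑ a ∈ (AA ∅ Y).filter (fun a => a ∣ v ∧ v ≤ a * N),
        ((ArithmeticFunction.moebius a : ℤ) : ℝ) * rs v = (if v.primeFactors ⊆ ∅ then 1 else 0) * rs v := by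
      rw [e1, ← Finset.sum_mul]
      congr 1
      have : ((∑ a ∈ v.divisors.filter (fun a => ∀ p ∈ (∅ : Finset ℕ), ¬ p ∣ a), ArithmeticFunction.moebius a : ℤ) : ℝ) =
          ((if v.primeFactors ⊆ ∅ then 1 else 0 : ℤ) : ℝ) := by rw [e2]
      push_cast at this
      exact this
    rw [e3]
    unfold CS
    rw [← hv]
    by_cases hs : v.primeFactors ⊆ ∅
    · rw [if_pos hs, if_pos ⟨hvY, hs⟩]; simp
    · rw [if_neg hs, if_neg (fun h => hs h.2)]; simp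
  · have e1 : CS q ∅ Y u = 0 := by
      unfold CS
      rw [if_neg (fun h => hvY h.1)]
    rw [e1, sub_zero]
    by_cases hvN : v ≤ Y * N
    · rw [if_pos ⟨by omega, hvN⟩]
      refine (Finset.abs_sum_le_sum_abs _ _).trans ?_
      have e : ∀ a ∈ (AA ∅ Y).filter (fun a => a ∣ v ∧ v ≤ a * N),
          |((ArithmeticFunction.moebius a : ℤ) : ℝ) * rs v| ≤ rs v := by
        intro a _
        rw [abs_mul, abs_of_nonneg (rs_nonneg _)]
        calc _ ≤ 1 * rs v := mul_le_mul_of_nonneg_right (mu_abs a) (rs_nonneg _)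
          _ = _ := one_mul _
      refine (Finset.sum_le_sum e).trans ?_
      rw [Finset.sum_const, nsmul_eq_mul]
      apply mul_le_mul_of_nonneg_right _ (rs_nonneg _)
      have : ((AA ∅ Y).filter (fun a => a ∣ v ∧ v ≤ a * N)).card ≤ v.divisors.card := by
        apply card_le_card
        intro a ha
        rw [mem_filter] at ha
        exact Nat.mem_divisors.2 ⟨ha.2.1, hv0.ne'⟩
      exact_mod_cast this
    · rw [if_neg (fun h => hvN h.2)]
      have : (AA ∅ Y).filter (fun a => a ∣ v ∧ v ≤ a * N) = ∅ := by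
        rw [Finset.filter_eq_empty_iff]
        rintro a ha ⟨-, h⟩
        rw [AA, mem_filter, mem_Icc] at ha
        have := Nat.mul_le_mul_right N ha.1.2
        omega
      rw [this]
      simp

/-- the long part of a sum over the subgroup -/
lemma DS_eq (G : Subgroup (ZMod q)ˣ) (χ : DirichletCharacter ℂ q) (t : (ZMod q)ˣ) (N : ℕ) :
    DS G χ t N = ∑ g ∈ univ.filter (fun g : (ZMod q)ˣ => g ∈ G), ((hL N (g * t) : ℝ) : ℂ) * χ (g : ZMod q) := by
  unfold DS hL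
  rw [← Finset.filter_filter, Finset.sum_filter]
  apply Finset.sum_congr rfl
  intro g _
  split_ifs
  · ring
  · simp

lemma CL_sum (G : Subgroup (ZMod q)ˣ) (χ : DirichletCharacter ℂ q) (Y N : ℕ) :
    ∑ g ∈ univ.filter (fun g : (ZMod q)ˣ => g ∈ G), ((CL Y N g : ℝ) : ℂ) * χ (g : ZMod q) =
      ∑ a ∈ AA ∅ Y, ((((ArithmeticFunction.moebius a : ℤ) : ℝ) * rs a : ℝ) : ℂ) * DS G χ (un q a)⁻¹ N := by
  have h1 : ∀ a ∈ AA ∅ Y, ((((ArithmeticFunction.moebius a : ℤ) : ℝ) * rs a : ℝ) : ℂ) * DS G χ (un q a)⁻¹ N =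
      ∑ g ∈ univ.filter (fun g : (ZMod q)ˣ => g ∈ G), ((((ArithmeticFunction.moebius a : ℤ) : ℝ) * rs a : ℝ) : ℂ) *
        (((hL N (g * (un q a)⁻¹) : ℝ) : ℂ) * χ (g : ZMod q)) := by
    intro a _
    rw [DS_eq, Finset.mul_sum]
  rw [Finset.sum_congr rfl h1, Finset.sum_comm]
  apply Finset.sum_congr rfl
  intro g _
  unfold CL
  rw [Complex.ofReal_sum, Finset.sum_mul]
  apply Finset.sum_congr rfl
  intro a _
  rw [Complex.ofReal_mul (((ArithmeticFunction.moebius a : ℤ) : ℝ) * rs a)]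
  ring

/-- the error -/
noncomputable def Er3 (H : Subgroup (DirichletCharacter ℂ q)) (Y N : ℕ) (δ : ℝ) : ℝ :=
  ∑ u ∈ univ.filter (fun u : (ZMod q)ˣ => u ∈ ann H ∧ Y < (u : ZMod q).val ∧ (u : ZMod q).val ≤ Y * N),
        ((u : ZMod q).val.divisors.card : ℝ) * rs (u : ZMod q).val + 2 * Real.sqrt Y * δ +
          3 * Y * rs q * Fintype.card (ann H)

/-- **The mollified first moment over a coset**, with the residues above `N` separated. -/
theorem moment_err3 (H : Subgroup (DirichletCharacter ℂ q)) (χ₀ : DirichletCharacter ℂ q) (Y N : ℕ) (hY : 1 ≤ Y)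
    (hYN : Y ≤ N) (hN : Y * N < q) (δ : ℝ)
    (hδ : ∀ a ∈ Icc 1 Y, ‖DS (ann H) χ₀ (un q a)⁻¹ N‖ ≤ δ) :
    ‖∑ ψ : H, DirichletCharacter.LFunction (χ₀ * (ψ : DirichletCharacter ℂ q)) (1 / 2) * MM q ∅ Y (χ₀ * ψ) - (Fintype.card H : ℂ)‖ ≤
      (Fintype.card H : ℝ) * Er3 H Y N δ := by
  have hδ0 : 0 ≤ δ := (norm_nonneg _).trans (hδ 1 (mem_Icc.2 ⟨le_rfl, hY⟩))
  have h1 : ∑ ψ : H, DirichletCharacter.LFunction (χ₀ * (ψ : DirichletCharacter ℂ q)) (1 / 2) * MM q ∅ Y (χ₀ * ψ) =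
      (Fintype.card H : ℂ) * ∑ g ∈ univ.filter (fun g : (ZMod q)ˣ => g ∈ ann H), CC q ∅ Y g * χ₀ (g : ZMod q) := by
    rw [← coset_G]
    apply Finset.sum_congr rfl
    intro ψ _
    exact LM_Wf Y _
  have h2 : (Fintype.card H : ℂ) = (Fintype.card H : ℂ) *
      ∑ g ∈ univ.filter (fun g : (ZMod q)ˣ => g ∈ ann H), ((CS q ∅ Y g : ℝ) : ℂ) * χ₀ (g : ZMod q) := by
    rw [Finset.sum_eq_single (1 : (ZMod q)ˣ)]
    · rw [CS_empty Y hY, if_pos rfl, Units.val_one, map_one]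
      push_cast
      ring
    · intro b _ hb
      rw [CS_empty Y hY, if_neg hb]
      push_cast
      ring
    · intro h
      exact absurd (mem_filter.2 ⟨mem_univ _, (ann H).one_mem⟩) h
  rw [h1]
  nth_rewrite 2 [h2]
  rw [← mul_sub, norm_mul, Complex.norm_natCast]
  apply mul_le_mul_of_nonneg_left _ (Nat.cast_nonneg _)
  set F := univ.filter (fun g : (ZMod q)ˣ => g ∈ ann H) with hF
  have hdec : ∑ g ∈ F, CC q ∅ Y g * χ₀ (g : ZMod q) - ∑ g ∈ F, ((CS q ∅ Y g : ℝ) : ℂ) * χ₀ (g : ZMod q) =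
      ∑ g ∈ F, (CC q ∅ Y g - ((CN Y N g + CL Y N g : ℝ) : ℂ)) * χ₀ (g : ZMod q) +
      ∑ g ∈ F, ((CN Y N g - CS q ∅ Y g : ℝ) : ℂ) * χ₀ (g : ZMod q) +
      ∑ g ∈ F, ((CL Y N g : ℝ) : ℂ) * χ₀ (g : ZMod q) := by
    rw [← Finset.sum_sub_distrib, ← Finset.sum_add_distrib, ← Finset.sum_add_distrib]
    apply Finset.sum_congr rfl
    intro g _
    push_cast
    ring
  have b1 : ‖∑ g ∈ F, (CC q ∅ Y g - ((CN Y N g + CL Y N g : ℝ) : ℂ)) * χ₀ (g : ZMod q)‖ ≤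
      3 * Y * rs q * Fintype.card (ann H) := by
    refine (norm_sum_le _ _).trans ?_
    have h3 : ∀ g ∈ F, ‖(CC q ∅ Y g - ((CN Y N g + CL Y N g : ℝ) : ℂ)) * χ₀ (g : ZMod q)‖ ≤ 3 * Y * rs q := by
      intro g _
      rw [norm_mul]
      refine le_trans ?_ (CC_split Y N g)
      calc _ ≤ ‖CC q ∅ Y g - ((CN Y N g + CL Y N g : ℝ) : ℂ)‖ * 1 :=
            mul_le_mul_of_nonneg_left (DirichletCharacter.norm_le_one χ₀ _) (norm_nonneg _)
        _ = _ := mul_one _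
    refine (Finset.sum_le_sum h3).trans (le_of_eq ?_)
    rw [Finset.sum_const, nsmul_eq_mul, hF, card_filter_G]
    ring
  have b2 : ‖∑ g ∈ F, ((CN Y N g - CS q ∅ Y g : ℝ) : ℂ) * χ₀ (g : ZMod q)‖ ≤
      ∑ u ∈ univ.filter (fun u : (ZMod q)ˣ => u ∈ ann H ∧ Y < (u : ZMod q).val ∧ (u : ZMod q).val ≤ Y * N),
        ((u : ZMod q).val.divisors.card : ℝ) * rs (u : ZMod q).val := by
    refine (norm_sum_le _ _).trans ?_
    have h3 : ∀ g ∈ F, ‖((CN Y N g - CS q ∅ Y g : ℝ) : ℂ) * χ₀ (g : ZMod q)‖ ≤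
        if Y < (g : ZMod q).val ∧ (g : ZMod q).val ≤ Y * N then
          ((g : ZMod q).val.divisors.card : ℝ) * rs (g : ZMod q).val else 0 := by
      intro g _
      rw [norm_mul, Complex.norm_real, Real.norm_eq_abs]
      refine le_trans ?_ (CN_approx hN hYN g)
      calc _ ≤ |CN Y N g - CS q ∅ Y g| * 1 :=
            mul_le_mul_of_nonneg_left (DirichletCharacter.norm_le_one χ₀ _) (abs_nonneg _)
        _ = _ := mul_one _
    refine (Finset.sum_le_sum h3).trans (le_of_eq ?_)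
    rw [← Finset.sum_filter, hF, Finset.filter_filter]
  have b3 : ‖∑ g ∈ F, ((CL Y N g : ℝ) : ℂ) * χ₀ (g : ZMod q)‖ ≤ 2 * Real.sqrt Y * δ := by
    rw [hF, CL_sum]
    refine (norm_sum_le _ _).trans ?_
    have h3 : ∀ a ∈ AA ∅ Y, ‖((((ArithmeticFunction.moebius a : ℤ) : ℝ) * rs a : ℝ) : ℂ) *
        DS (ann H) χ₀ (un q a)⁻¹ N‖ ≤ rs a * δ := by
      intro a ha
      rw [AA, mem_filter] at ha
      rw [norm_mul, Complex.norm_real, Real.norm_eq_abs, abs_mul, abs_of_nonneg (rs_nonneg a)]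
      have h4 : |((ArithmeticFunction.moebius a : ℤ) : ℝ)| * rs a ≤ rs a := by
        calc _ ≤ 1 * rs a := mul_le_mul_of_nonneg_right (mu_abs a) (rs_nonneg a)
          _ = _ := one_mul _
      exact mul_le_mul h4 (hδ a ha.1) (norm_nonneg _) (rs_nonneg a)
    refine (Finset.sum_le_sum h3).trans ?_
    rw [← Finset.sum_mul]
    apply mul_le_mul_of_nonneg_right _ hδ0
    refine le_trans ?_ (sum_rs Y)
    exact Finset.sum_le_sum_of_subset_of_nonneg (filter_subset _ _) (fun _ _ _ => rs_nonneg _)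
  rw [hdec]
  refine (norm_add_le _ _).trans ?_
  have h5 := norm_add_le (∑ g ∈ F, (CC q ∅ Y g - ((CN Y N g + CL Y N g : ℝ) : ℂ)) * χ₀ (g : ZMod q))
    (∑ g ∈ F, ((CN Y N g - CS q ∅ Y g : ℝ) : ℂ) * χ₀ (g : ZMod q))
  unfold Er3
  linarith

/-- **Many values in the coset are not small**, in terms of the error of the first moment and of the second moment of
the mollifier. -/
theorem count_SS3 (H : Subgroup (DirichletCharacter ℂ q)) (χ₀ : DirichletCharacter ℂ q) (Y : ℕ)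
    (t V : ℝ) (ht0 : 0 ≤ t) (hV : 0 ≤ V) (ht : t * V ≤ 1 / 4)
    (hM2 : ∑ ψ : H, ‖MM q ∅ Y (χ₀ * (ψ : DirichletCharacter ℂ q))‖ ^ 2 ≤ (Fintype.card H : ℝ) * V ^ 2)
    (hE : ‖∑ ψ : H, DirichletCharacter.LFunction (χ₀ * (ψ : DirichletCharacter ℂ q)) (1 / 2) * MM q ∅ Y (χ₀ * ψ) -
      (Fintype.card H : ℂ)‖ ≤ (Fintype.card H : ℝ) * (1 / 4)) :
    (Fintype.card H : ℝ) ^ 2 ≤ 64 * Y * (q * (1 + Real.log q)) * (SS H χ₀ t).card := by
  have hq : q.Prime := Fact.out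
  have hq1 : (1 : ℝ) ≤ q := by exact_mod_cast hq.one_lt.le
  have hlq : 0 ≤ Real.log q := Real.log_nonneg hq1
  have hH0 : (0 : ℝ) < Fintype.card H := by
    have : 0 < Fintype.card H := Fintype.card_pos
    exact_mod_cast this
  have hY0 : (0 : ℝ) ≤ Y := Nat.cast_nonneg _
  set L : H → ℂ := fun ψ => DirichletCharacter.LFunction (χ₀ * (ψ : DirichletCharacter ℂ q)) (1 / 2) with hL
  set M : H → ℂ := fun ψ => MM q ∅ Y (χ₀ * (ψ : DirichletCharacter ℂ q)) with hM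
  have hMn : ∀ ψ, ‖M ψ‖ ≤ 2 * Real.sqrt Y := fun ψ => MM_norm Y _
  have hMsum : ∑ ψ : H, ‖M ψ‖ ≤ (Fintype.card H : ℝ) * V := by
    have h1 : (∑ ψ : H, ‖M ψ‖) ^ 2 ≤ ((Fintype.card H : ℝ) * V) ^ 2 := by
      refine sq_sum_le_card_mul_sum_sq.trans ?_
      rw [card_univ, mul_pow, sq (Fintype.card H : ℝ), mul_assoc]
      exact mul_le_mul_of_nonneg_left hM2 hH0.le
    exact le_of_pow_le_pow_left₀ (by norm_num) (by positivity) h1
  have h1 : (3 / 4 : ℝ) * Fintype.card H ≤ ∑ ψ : H, ‖L ψ‖ * ‖M ψ‖ := by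
    have h3 : (Fintype.card H : ℝ) - ‖∑ ψ : H, L ψ * M ψ‖ ≤ (Fintype.card H : ℝ) * (1 / 4) := by
      have h4 : (Fintype.card H : ℝ) - ‖∑ ψ : H, L ψ * M ψ‖ ≤ ‖∑ ψ : H, L ψ * M ψ - (Fintype.card H : ℂ)‖ := by
        have := norm_sub_norm_le (Fintype.card H : ℂ) (∑ ψ : H, L ψ * M ψ)
        rw [Complex.norm_natCast, norm_sub_rev (Fintype.card H : ℂ)] at this
        exact this
      exact h4.trans hE
    have h5 : ‖∑ ψ : H, L ψ * M ψ‖ ≤ ∑ ψ : H, ‖L ψ‖ * ‖M ψ‖ := by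
      refine (norm_sum_le _ _).trans (le_of_eq ?_)
      apply Finset.sum_congr rfl
      intro ψ _
      rw [norm_mul]
    linarith
  have h2 : ∑ ψ ∈ univ.filter (fun ψ : H => ¬ t ≤ ‖L ψ‖), ‖L ψ‖ * ‖M ψ‖ ≤ (1 / 4 : ℝ) * Fintype.card H := by
    have h3 : ∀ ψ ∈ univ.filter (fun ψ : H => ¬ t ≤ ‖L ψ‖), ‖L ψ‖ * ‖M ψ‖ ≤ t * ‖M ψ‖ := by
      intro ψ hψ
      rw [mem_filter, not_le] at hψ
      exact mul_le_mul_of_nonneg_right hψ.2.le (norm_nonneg _)
    refine (Finset.sum_le_sum h3).trans ?_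
    rw [← Finset.mul_sum]
    have h4 : ∑ ψ ∈ univ.filter (fun ψ : H => ¬ t ≤ ‖L ψ‖), ‖M ψ‖ ≤ ∑ ψ : H, ‖M ψ‖ :=
      Finset.sum_le_sum_of_subset_of_nonneg (filter_subset _ _) (fun _ _ _ => norm_nonneg _)
    calc t * ∑ ψ ∈ univ.filter (fun ψ : H => ¬ t ≤ ‖L ψ‖), ‖M ψ‖ ≤ t * ((Fintype.card H : ℝ) * V) :=
          mul_le_mul_of_nonneg_left (h4.trans hMsum) ht0
      _ = (t * V) * Fintype.card H := by ring
      _ ≤ _ := mul_le_mul_of_nonneg_right ht hH0.le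
  have h3 : (1 / 2 : ℝ) * Fintype.card H ≤ ∑ ψ ∈ SS H χ₀ t, ‖L ψ‖ * ‖M ψ‖ := by
    have h4 := Finset.sum_filter_add_sum_filter_not univ (fun ψ : H => t ≤ ‖L ψ‖) (fun ψ => ‖L ψ‖ * ‖M ψ‖)
    have h5 : SS H χ₀ t = univ.filter (fun ψ : H => t ≤ ‖L ψ‖) := rfl
    rw [h5]
    linarith
  have h4 : ∑ ψ ∈ SS H χ₀ t, ‖L ψ‖ * ‖M ψ‖ ≤ 2 * Real.sqrt Y * ∑ ψ ∈ SS H χ₀ t, ‖L ψ‖ := by
    rw [Finset.mul_sum]
    apply Finset.sum_le_sum
    intro ψ _
    rw [mul_comm]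
    exact mul_le_mul_of_nonneg_right (hMn ψ) (norm_nonneg _)
  have h5 : (∑ ψ ∈ SS H χ₀ t, ‖L ψ‖) ^ 2 ≤ (SS H χ₀ t).card * (4 * q * (1 + Real.log q)) := by
    refine sq_sum_le_card_mul_sum_sq.trans ?_
    apply mul_le_mul_of_nonneg_left _ (Nat.cast_nonneg _)
    refine le_trans ?_ L_second
    have h6 : ∑ ψ ∈ SS H χ₀ t, ‖L ψ‖ ^ 2 = ∑ χ ∈ (SS H χ₀ t).image (fun ψ : H => χ₀ * (ψ : DirichletCharacter ℂ q)),
        ‖DirichletCharacter.LFunction χ (1 / 2)‖ ^ 2 := by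
      rw [Finset.sum_image (fun u _ v _ huv => Subtype.ext (mul_left_cancel huv))]
    rw [h6]
    exact Finset.sum_le_sum_of_subset_of_nonneg (subset_univ _) (fun _ _ _ => by positivity)
  set A : ℝ := ∑ ψ ∈ SS H χ₀ t, ‖L ψ‖ with hA
  have hA0 : 0 ≤ A := Finset.sum_nonneg fun _ _ => norm_nonneg _
  have h7 : (1 / 2 : ℝ) * Fintype.card H ≤ 2 * Real.sqrt Y * A := h3.trans h4
  have h8 : ((1 / 2 : ℝ) * Fintype.card H) ^ 2 ≤ (2 * Real.sqrt Y * A) ^ 2 :=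
    pow_le_pow_left₀ (by positivity) h7 2
  have h9 : (2 * Real.sqrt Y * A) ^ 2 = 4 * Y * A ^ 2 := by
    rw [mul_pow, mul_pow, Real.sq_sqrt hY0]; ring
  rw [h9] at h8
  have h10 : 4 * Y * A ^ 2 ≤ 4 * Y * ((SS H χ₀ t).card * (4 * q * (1 + Real.log q))) :=
    mul_le_mul_of_nonneg_left h5 (by positivity)
  calc (Fintype.card H : ℝ) ^ 2 = 4 * ((1 / 2 : ℝ) * Fintype.card H) ^ 2 := by ring
    _ ≤ 4 * (4 * Y * ((SS H χ₀ t).card * (4 * q * (1 + Real.log q)))) := by linarith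
    _ = _ := by ring

/-- **The first moment over a coset**, with the residues above `N` separated. -/
theorem first_err3 (H : Subgroup (DirichletCharacter ℂ q)) (χ₀ : DirichletCharacter ℂ q) (M N : ℕ) (hM : M < q)
    (hMN : M ≤ N) :
    ‖(Fintype.card H : ℂ)⁻¹ * ∑ ψ : H, DirichletCharacter.LFunction (χ₀ * (ψ : DirichletCharacter ℂ q)) (1 / 2) -
      ∑ n ∈ (Icc 1 M).filter (fun n : ℕ => ∀ ψ ∈ H, ψ (n : ZMod q) = 1), χ₀ (n : ZMod q) / (Real.sqrt n : ℂ)‖ ≤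
      ∑ u ∈ univ.filter (fun u : (ZMod q)ˣ => u ∈ ann H ∧ M < (u : ZMod q).val ∧ (u : ZMod q).val ≤ N),
        ((u : ZMod q).val.divisors.card : ℝ) * rs (u : ZMod q).val + ‖DS (ann H) χ₀ 1 N‖ +
          3 * rs q * Fintype.card (ann H) := by
  have hq : q.Prime := Fact.out
  have : NeZero q := ⟨hq.pos.ne'⟩
  have hH0 : (Fintype.card H : ℂ) ≠ 0 := by
    have : 0 < Fintype.card H := Fintype.card_pos
    exact_mod_cast this.ne'
  set F := univ.filter (fun g : (ZMod q)ˣ => g ∈ ann H) with hF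
  have h1 : (Fintype.card H : ℂ)⁻¹ * ∑ ψ : H, DirichletCharacter.LFunction (χ₀ * (ψ : DirichletCharacter ℂ q)) (1 / 2) =
      ∑ g ∈ F, hzv q g * χ₀ (g : ZMod q) := by
    rw [Finset.sum_congr rfl (fun (ψ : H) _ => L_Wf (χ₀ * (ψ : DirichletCharacter ℂ q))), coset_G, ← mul_assoc,
      inv_mul_cancel₀ hH0, one_mul]
  have hcop : ∀ u : (ZMod q)ˣ, ((u : ZMod q).val).Coprime q := fun u => cop_of_lt (val_pos u) (ZMod.val_lt _)
  have h2 : ∑ n ∈ (Icc 1 M).filter (fun n : ℕ => ∀ ψ ∈ H, ψ (n : ZMod q) = 1), χ₀ (n : ZMod q) / (Real.sqrt n : ℂ) =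
      ∑ g ∈ F, ((hS M g : ℝ) : ℂ) * χ₀ (g : ZMod q) := by
    have e0 : ∑ g ∈ F, ((hS M g : ℝ) : ℂ) * χ₀ (g : ZMod q) = ∑ g ∈ F, (if (g : ZMod q).val ≤ M then
        ((rs (g : ZMod q).val : ℝ) : ℂ) * χ₀ (g : ZMod q) else 0) := by
      apply Finset.sum_congr rfl
      intro g _
      unfold hS
      split_ifs
      · rfl
      · simp
    rw [e0, ← Finset.sum_filter]
    symm
    refine Finset.sum_bij' (fun g _ => (g : ZMod q).val) (fun n _ => un q n) ?_ ?_ ?_ ?_ ?_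
    · intro g hg
      rw [mem_filter, hF, mem_filter] at hg
      rw [mem_filter, mem_Icc]
      refine ⟨⟨val_pos g, hg.2⟩, fun ψ hψ => ?_⟩
      rw [ZMod.natCast_zmod_val]
      exact hg.1.2 ψ hψ
    · intro n hn
      rw [mem_filter, mem_Icc] at hn
      have hc : n.Coprime q := cop_of_lt (by omega) (lt_of_le_of_lt hn.1.2 hM)
      rw [mem_filter, hF, mem_filter]
      refine ⟨⟨mem_univ _, fun ψ hψ => ?_⟩, ?_⟩
      · rw [un_val hc]
        exact hn.2 ψ hψ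
      · rw [un_val hc, ZMod.val_natCast, Nat.mod_eq_of_lt (lt_of_le_of_lt hn.1.2 hM)]
        exact hn.1.2
    · intro g _
      apply Units.ext
      rw [un_val (hcop g), ZMod.natCast_zmod_val]
    · intro n hn
      rw [mem_filter, mem_Icc] at hn
      have hc : n.Coprime q := cop_of_lt (by omega) (lt_of_le_of_lt hn.1.2 hM)
      rw [un_val hc, ZMod.val_natCast, Nat.mod_eq_of_lt (lt_of_le_of_lt hn.1.2 hM)]
    · intro g _
      rw [ZMod.natCast_zmod_val]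
      unfold rs
      push_cast
      ring
  have h3 : DS (ann H) χ₀ 1 N = ∑ g ∈ F, ((hL N g : ℝ) : ℂ) * χ₀ (g : ZMod q) := by
    rw [DS_eq]
    simp only [mul_one]
    rfl
  have hdec : ∑ g ∈ F, hzv q g * χ₀ (g : ZMod q) - ∑ g ∈ F, ((hS M g : ℝ) : ℂ) * χ₀ (g : ZMod q) =
      ∑ g ∈ F, (hzv q g - ((hS N g + hL N g : ℝ) : ℂ)) * χ₀ (g : ZMod q) +
      ∑ g ∈ F, ((hS N g - hS M g : ℝ) : ℂ) * χ₀ (g : ZMod q) + DS (ann H) χ₀ 1 N := by
    rw [h3, ← Finset.sum_sub_distrib, ← Finset.sum_add_distrib, ← Finset.sum_add_distrib]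
    apply Finset.sum_congr rfl
    intro g _
    push_cast
    ring
  have b1 : ‖∑ g ∈ F, (hzv q g - ((hS N g + hL N g : ℝ) : ℂ)) * χ₀ (g : ZMod q)‖ ≤
      3 * rs q * Fintype.card (ann H) := by
    refine (norm_sum_le _ _).trans ?_
    have h3 : ∀ g ∈ F, ‖(hzv q g - ((hS N g + hL N g : ℝ) : ℂ)) * χ₀ (g : ZMod q)‖ ≤ 3 * rs q := by
      intro g _
      rw [norm_mul]
      refine le_trans ?_ (hzv_split N g)
      calc _ ≤ ‖hzv q g - ((hS N g + hL N g : ℝ) : ℂ)‖ * 1 :=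
            mul_le_mul_of_nonneg_left (DirichletCharacter.norm_le_one χ₀ _) (norm_nonneg _)
        _ = _ := mul_one _
    refine (Finset.sum_le_sum h3).trans (le_of_eq ?_)
    rw [Finset.sum_const, nsmul_eq_mul, hF, card_filter_G]
    ring
  have b2 : ‖∑ g ∈ F, ((hS N g - hS M g : ℝ) : ℂ) * χ₀ (g : ZMod q)‖ ≤
      ∑ u ∈ univ.filter (fun u : (ZMod q)ˣ => u ∈ ann H ∧ M < (u : ZMod q).val ∧ (u : ZMod q).val ≤ N),
        ((u : ZMod q).val.divisors.card : ℝ) * rs (u : ZMod q).val := by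
    refine (norm_sum_le _ _).trans ?_
    have h3 : ∀ g ∈ F, ‖((hS N g - hS M g : ℝ) : ℂ) * χ₀ (g : ZMod q)‖ ≤
        if M < (g : ZMod q).val ∧ (g : ZMod q).val ≤ N then
          ((g : ZMod q).val.divisors.card : ℝ) * rs (g : ZMod q).val else 0 := by
      intro g _
      rw [norm_mul, Complex.norm_real, Real.norm_eq_abs]
      have hd : |hS N g - hS M g| ≤ if M < (g : ZMod q).val ∧ (g : ZMod q).val ≤ N then
          ((g : ZMod q).val.divisors.card : ℝ) * rs (g : ZMod q).val else 0 := by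
        unfold hS
        by_cases g1 : (g : ZMod q).val ≤ M
        · rw [if_pos g1, if_pos (g1.trans hMN), if_neg (by omega), sub_self, abs_zero]
        · by_cases g2 : (g : ZMod q).val ≤ N
          · rw [if_neg g1, if_pos g2, if_pos ⟨by omega, g2⟩, sub_zero, abs_of_nonneg (rs_nonneg _)]
            have h6 : (1 : ℝ) ≤ ((g : ZMod q).val.divisors.card : ℝ) := by
              have : 1 ≤ (g : ZMod q).val.divisors.card :=
                Finset.card_pos.2 ⟨1, Nat.one_mem_divisors.2 (val_pos g).ne'⟩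
              exact_mod_cast this
            have h7 := mul_le_mul_of_nonneg_right h6 (rs_nonneg (g : ZMod q).val)
            linarith
          · rw [if_neg g1, if_neg g2, if_neg (fun h => g2 h.2), sub_self, abs_zero]
      refine le_trans ?_ hd
      calc _ ≤ |hS N g - hS M g| * 1 :=
            mul_le_mul_of_nonneg_left (DirichletCharacter.norm_le_one χ₀ _) (abs_nonneg _)
        _ = _ := mul_one _
    refine (Finset.sum_le_sum h3).trans (le_of_eq ?_)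
    rw [← Finset.sum_filter, hF, Finset.filter_filter]
  rw [h1, h2, hdec]
  refine (norm_add_le _ _).trans ?_
  have h5 := norm_add_le (∑ g ∈ F, (hzv q g - ((hS N g + hL N g : ℝ) : ℂ)) * χ₀ (g : ZMod q))
    (∑ g ∈ F, ((hS N g - hS M g : ℝ) : ℂ) * χ₀ (g : ZMod q))
  linarith

end Pool.Agent.K4H2.EC
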