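import Mathlib
import Pool.Agent.K4H2.EC.G6
import Pool.Agent.K4H2.EC.G2
import Pool.Agent.K4H20.DU.Dual

/-! Nonvanishing in every coset of a subgroup with more than `q ^ (26/41 + δ)` characters, and the first moment. -/

set_option autoImplicit false

namespace Pool.Agent.K4H2.EC
open Finset Pool.Agent.R311.RES Pool.Agent.K4H49.AC Filter Topology
open scoped Classical

/-- the sums over the elements with a large residue are small -/
theorem dual_small (ν : ℝ) (hν : 0 < ν) : ∃ ε₁ : ℝ, 0 < ε₁ ∧ ∃ q₀ : ℕ, ∀ (q : ℕ) [Fact q.Prime], q₀ ≤ q →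
    ∀ (G : Subgroup (ZMod q)ˣ), (Fintype.card G : ℝ) ≤ (q : ℝ) ^ (15 / 41 - ν : ℝ) →
      ∀ (χ : DirichletCharacter ℂ q) (t : (ZMod q)ˣ) (N : ℕ), (q : ℝ) ^ (26 / 41 : ℝ) ≤ N →
        ‖DS G χ t N‖ ≤ (q : ℝ) ^ (-ε₁) :=
  Pool.Agent.K4H20.DU.dual ν hν

/-- **Nonvanishing in every coset, with the natural lower bound.** -/
theorem nonvanishing3 (β c ε τ : ℝ) (hβ : 26 / 41 < β) (hβ1 : β ≤ 1) (hc : 0 < c) (hε : 0 < ε)
    (hτ : 1 / (2 * β) < τ) : ∃ q₀ : ℕ,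
    ∀ (q : ℕ) [Fact q.Prime], q₀ ≤ q → ∀ (H : Subgroup (DirichletCharacter ℂ q)) (χ₀ : DirichletCharacter ℂ q),
      c * (q : ℝ) ^ β ≤ (Nat.card H : ℝ) →
      (q : ℝ) ^ (2 * β - 1 - ε) ≤ (SS H χ₀ (Real.exp (-(Real.log q ^ τ)))).card := by
  have hβ0 : 0 < β := by linarith
  have hb : 1 / 2 ≤ 1 / (2 * β) := one_div_le_one_div_of_le (by positivity) (by linarith)
  set τ₁ : ℝ := (τ + 1 / (2 * β)) / 2 with hτ₁
  have t1 : 1 / (2 * β) < τ₁ := by rw [hτ₁]; linarith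
  have t2 : τ₁ < τ := by rw [hτ₁]; linarith
  have t3 : 1 / 2 < τ₁ := by linarith
  have t4 : 1 / (2 * τ₁) < β := by
    rw [div_lt_iff₀ (by positivity)] at t1 ⊢
    linarith
  set κ₀ : ℝ := β - 1 / (2 * τ₁) with hκ₀
  have hκ₀0 : 0 < κ₀ := by rw [hκ₀]; linarith
  set μ : ℝ := (β - 26 / 41) / 4 with hμ
  have hμ0 : 0 < μ := by rw [hμ]; linarith
  have hμ1 : μ ≤ 1 / 10 := by rw [hμ]; linarith
  set ν : ℝ := min (κ₀ / 2) μ with hν
  have hν0 : 0 < ν := lt_min (by positivity) hμ0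
  have hνκ : ν ≤ κ₀ / 2 := min_le_left _ _
  have hνμ : ν ≤ μ := min_le_right _ _
  set α : ℝ := 1 - β + ν with hα
  have hα0 : 0 ≤ α := by rw [hα]; linarith
  have hαμ : α ≤ 15 / 41 - 2 * μ := by rw [hα]; linarith
  obtain ⟨εD, hεD, qD, hDual⟩ := dual_small (2 * μ) (by positivity)
  obtain ⟨η₁, hη₁, hη₂, q₁, hR⟩ := R_bound5 α τ₁ (κ₀ / 2) hα0 (by linarith) t3 (by positivity)
    (by rw [hα]; linarith)
  set η : ℝ := min (min η₁ (ε / 2)) (min (μ / 2) εD) with hη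
  have hη0 : 0 < η := lt_min (lt_min hη₁ (by positivity)) (lt_min (by positivity) hεD)
  have hηε : η ≤ ε / 2 := (min_le_left _ _).trans (min_le_right _ _)
  have hηη : η ≤ η₁ := (min_le_left _ _).trans (min_le_left _ _)
  have hημ : η ≤ μ / 2 := (min_le_right _ _).trans (min_le_left _ _)
  have hηD : η ≤ εD := (min_le_right _ _).trans (min_le_right _ _)
  have hη12 : η ≤ 1 / 12 := hηη.trans hη₂
  obtain ⟨ε₁, hε₁, -, q₂, hfew⟩ := few_G41 μ η hμ0 hη0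
  have e1 : ∀ a : ℝ, 0 < a → ∀ b : ℝ, ∀ᶠ q : ℕ in atTop, b ≤ (q : ℝ) ^ a := fun a ha b =>
    ((tendsto_rpow_atTop ha).comp tendsto_natCast_atTop_atTop).eventually_ge_atTop b
  have tl : Tendsto (fun q : ℕ => Real.log (q : ℝ)) atTop atTop :=
    Real.tendsto_log_atTop.comp tendsto_natCast_atTop_atTop
  have e2 : ∀ a : ℝ, 0 < a → ∀ b : ℝ, ∀ᶠ q : ℕ in atTop, b ≤ Real.log (q : ℝ) ^ a := fun a ha b =>
    ((tendsto_rpow_atTop ha).comp tl).eventually_ge_atTop b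
  set C : ℝ := max (64 / c ^ 2) 1 with hC
  have hC0 : 0 < C := lt_max_of_lt_right one_pos
  have e3 : ∀ᶠ q : ℕ in atTop, C * (1 + C * Real.log (q : ℝ)) ≤ (q : ℝ) ^ (ε / 2) :=
    tendsto_natCast_atTop_atTop.eventually (ev_log_small C (ε / 2) (by positivity))
  obtain ⟨q₃, hq₃⟩ := eventually_atTop.1 ((e1 ν hν0 (1 / c)).and ((e1 ε₁ hε₁ 16).and ((e1 (1 / 20) (by norm_num) 48).and
    ((e2 (τ - τ₁) (by linarith) 6).and ((e1 η hη0 2).and (e3.and ((tl.eventually (ev_poly_exp τ₁ (by linarith) 3)).and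
      ((tl.eventually_ge_atTop 10).and ((e1 (εD / 2) (by positivity) 32).and (e1 (μ / 2) (by positivity) 2))))))))))
  refine ⟨max (max (max 3 qD) q₁) (max q₂ q₃), fun q _ hqq H χ₀ hH => ?_⟩
  have hq : q.Prime := Fact.out
  have hqq1 : q₁ ≤ q := (le_max_right _ _).trans ((le_max_left _ _).trans hqq)
  have hqq2 : q₂ ≤ q := (le_max_left _ _).trans ((le_max_right _ _).trans hqq)
  have hqqD : qD ≤ q := (le_max_right _ _).trans ((le_max_left _ _).trans ((le_max_left _ _).trans hqq))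
  obtain ⟨a1, a2, a3, a4, a5, a6, a7, a8, a9, a10⟩ := hq₃ q ((le_max_right _ _).trans ((le_max_right _ _).trans hqq))
  have hq0 : (0 : ℝ) < q := by exact_mod_cast hq.pos
  have hq1 : (1 : ℝ) < q := by exact_mod_cast hq.one_lt
  set Lq : ℝ := Real.log q with hLq
  have hlq : 0 ≤ Lq := Real.log_nonneg hq1.le
  have hGα := ann_le2 H hc hH a1
  rw [← hα] at hGα
  have hG : (Fintype.card (ann H) : ℝ) ≤ (q : ℝ) ^ (15 / 41 - 2 * μ) :=
    hGα.trans (Real.rpow_le_rpow_of_exponent_le hq1.le hαμ)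
  have hqη : 0 < (q : ℝ) ^ η := Real.rpow_pos_of_pos hq0 _
  set Y : ℕ := ⌊(q : ℝ) ^ η⌋₊ with hY
  have hYle : (Y : ℝ) ≤ (q : ℝ) ^ η := Nat.floor_le hqη.le
  have hYge : (q : ℝ) ^ η / 2 ≤ Y := by
    have := Nat.lt_floor_add_one ((q : ℝ) ^ η)
    rw [← hY] at this
    linarith
  have hY1 : 1 ≤ Y := Nat.le_floor (by push_cast; linarith)
  have hYq : Y < q := by
    have : (Y : ℝ) < q := by
      refine lt_of_le_of_lt hYle ?_
      calc (q : ℝ) ^ η < (q : ℝ) ^ (1 : ℝ) := Real.rpow_lt_rpow_of_exponent_lt hq1 (by linarith)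
        _ = q := Real.rpow_one _
    exact_mod_cast this
  have hinv : ∀ {a b : ℝ}, 0 < b → b ≤ (q : ℝ) ^ a → (q : ℝ) ^ (-a) ≤ 1 / b := by
    intro a b hb h
    rw [Real.rpow_neg hq0.le, one_div]
    exact inv_anti₀ hb h
  set N : ℕ := ⌈(q : ℝ) ^ (26 / 41 : ℝ)⌉₊ with hN
  have hNge : (q : ℝ) ^ (26 / 41 : ℝ) ≤ N := Nat.le_ceil _
  have hNle : (N : ℝ) ≤ 2 * (q : ℝ) ^ (26 / 41 : ℝ) := by
    have h1 : (N : ℝ) < (q : ℝ) ^ (26 / 41 : ℝ) + 1 := Nat.ceil_lt_add_one (by positivity)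
    have h2 : 1 ≤ (q : ℝ) ^ (26 / 41 : ℝ) := Real.one_le_rpow hq1.le (by norm_num)
    linarith
  have hYNr : ((Y * N : ℕ) : ℝ) ≤ (q : ℝ) ^ (26 / 41 + μ) := by
    push_cast
    have h1 : (Y : ℝ) ≤ (q : ℝ) ^ (μ / 2) := hYle.trans (Real.rpow_le_rpow_of_exponent_le hq1.le hημ)
    calc (Y : ℝ) * N ≤ (q : ℝ) ^ (μ / 2) * (2 * (q : ℝ) ^ (26 / 41 : ℝ)) :=
          mul_le_mul h1 hNle (Nat.cast_nonneg _) (by positivity)
      _ ≤ (q : ℝ) ^ (μ / 2) * ((q : ℝ) ^ (μ / 2) * (q : ℝ) ^ (26 / 41 : ℝ)) := by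
          apply mul_le_mul_of_nonneg_left _ (by positivity)
          exact mul_le_mul_of_nonneg_right a10 (by positivity)
      _ = (q : ℝ) ^ (26 / 41 + μ) := by
          rw [← Real.rpow_add hq0, ← Real.rpow_add hq0]; congr 1; ring
  have hYN : Y * N < q := by
    have h1 : ((Y * N : ℕ) : ℝ) < q := by
      refine lt_of_le_of_lt hYNr ?_
      calc (q : ℝ) ^ (26 / 41 + μ) < (q : ℝ) ^ (1 : ℝ) := Real.rpow_lt_rpow_of_exponent_lt hq1 (by linarith)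
        _ = q := Real.rpow_one _
    exact_mod_cast h1
  have hYleN : Y ≤ N := by
    have h1 : (Y : ℝ) ≤ N := by
      refine hYle.trans (le_trans ?_ hNge)
      exact Real.rpow_le_rpow_of_exponent_le hq1.le (by linarith)
    exact_mod_cast h1
  have hE : Er3 H Y N ((q : ℝ) ^ (-εD)) ≤ 1 / 4 := by
    unfold Er3
    have h1 := hfew q hqq2 (ann H) hG Y (Y * N) hYge hYNr
    have h2 : (q : ℝ) ^ (-ε₁) ≤ 1 / 16 := hinv (by norm_num) a2
    have h4 : 2 * Real.sqrt Y * (q : ℝ) ^ (-εD) ≤ 1 / 16 := by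
      have h5 : Real.sqrt Y ≤ (q : ℝ) ^ (εD / 2) := by
        rw [Real.sqrt_le_left (by positivity)]
        refine hYle.trans ?_
        rw [← Real.rpow_natCast ((q : ℝ) ^ (εD / 2)) 2, ← Real.rpow_mul hq0.le]
        apply Real.rpow_le_rpow_of_exponent_le hq1.le
        push_cast
        linarith
      calc 2 * Real.sqrt Y * (q : ℝ) ^ (-εD) ≤ 2 * (q : ℝ) ^ (εD / 2) * (q : ℝ) ^ (-εD) := by
            apply mul_le_mul_of_nonneg_right _ (by positivity)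
            linarith
        _ = 2 * (q : ℝ) ^ (-(εD / 2)) := by
            rw [mul_assoc, ← Real.rpow_add hq0]; congr 2; ring
        _ ≤ 2 * (1 / 32) := by
            apply mul_le_mul_of_nonneg_left _ (by norm_num)
            exact hinv (by norm_num) a9
        _ = 1 / 16 := by norm_num
    have h3 : 3 * (Y : ℝ) * rs q * Fintype.card (ann H) ≤ 1 / 16 := by
      rw [rs_rpow]
      calc 3 * (Y : ℝ) * (q : ℝ) ^ (-(1 / 2 : ℝ)) * Fintype.card (ann H) ≤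
            3 * (q : ℝ) ^ η * (q : ℝ) ^ (-(1 / 2 : ℝ)) * (q : ℝ) ^ (15 / 41 - 2 * μ) := by
            apply mul_le_mul _ hG (Nat.cast_nonneg _) (by positivity)
            apply mul_le_mul_of_nonneg_right _ (by positivity)
            linarith
        _ = 3 * (q : ℝ) ^ (η + (-(1 / 2) + (15 / 41 - 2 * μ))) := by
            rw [mul_assoc, mul_assoc, ← Real.rpow_add hq0, ← Real.rpow_add hq0]
        _ ≤ 3 * (q : ℝ) ^ (-(1 / 20 : ℝ)) := by
            apply mul_le_mul_of_nonneg_left _ (by norm_num)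
            exact Real.rpow_le_rpow_of_exponent_le hq1.le (by linarith)
        _ ≤ 3 * (1 / 48) := by
            apply mul_le_mul_of_nonneg_left _ (by norm_num)
            exact hinv (by norm_num) a3
        _ = 1 / 16 := by norm_num
    linarith
  have hmom := (moment_err3 H χ₀ Y N hY1 hYleN hYN ((q : ℝ) ^ (-εD))
    (fun a _ => hDual q hqqD (ann H) hG χ₀ _ N hNge)).trans
    (mul_le_mul_of_nonneg_left hE (Nat.cast_nonneg _))
  -- the second moment of the mollifier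
  set E : ℝ := Lq ^ τ₁ with hEdef
  have hE1 : 1 ≤ E := Real.one_le_rpow (by linarith) (by linarith)
  set Z : ℕ := ⌈Lq ^ (2 * τ₁)⌉₊ with hZ
  have hZge : Lq ^ (2 * τ₁) ≤ Z := Nat.le_ceil _
  have hZsq : Real.sqrt Z ≤ E + 1 := by
    rw [Real.sqrt_le_left (by linarith)]
    have h1 : (Z : ℝ) < Lq ^ (2 * τ₁) + 1 := Nat.ceil_lt_add_one (Real.rpow_nonneg hlq _)
    have h2 : Lq ^ (2 * τ₁) = E ^ 2 := by
      rw [hEdef, ← Real.rpow_natCast (Lq ^ τ₁) 2, ← Real.rpow_mul hlq]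
      congr 1; push_cast; ring
    rw [h2] at h1
    nlinarith
  have hYη₁ : (Y : ℝ) ≤ (q : ℝ) ^ η₁ := hYle.trans (Real.rpow_le_rpow_of_exponent_le hq1.le hηη)
  have hM2 : ∑ ψ : H, ‖MM q ∅ Y (χ₀ * (ψ : DirichletCharacter ℂ q))‖ ^ 2 ≤
      (Fintype.card H : ℝ) * (Real.exp (4 * E)) ^ 2 := by
    refine (second_M H χ₀ Y).trans ?_
    apply mul_le_mul_of_nonneg_left _ (Nat.cast_nonneg _)
    refine (PP_bound (ann H) Z Y hYq (Real.exp (3 * E)) (fun c' => hR q hqq1 (ann H) hGα c' Z Y hYη₁ hZge)).trans ?_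
    have h1 : (∏ p ∈ Pr Z, (1 + rs p)) ^ 2 ≤ Real.exp (4 * (E + 1)) := by
      have h2 : 0 ≤ ∏ p ∈ Pr Z, (1 + rs p) := Finset.prod_nonneg fun p _ => by
        have := rs_nonneg p
        linarith
      refine (pow_le_pow_left₀ h2 (prod_Pr_le Z) 2).trans ?_
      rw [← Real.exp_nat_mul, Real.exp_le_exp]
      push_cast
      linarith
    have h3 : ∑ t ∈ Icc 1 Y, 1 / (t : ℝ) ≤ 1 + Lq := harm_le Y hq1.le (by exact_mod_cast hYq.le)
    have h4 : Real.exp 4 * (1 + Lq) ≤ Real.exp E := by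
      refine le_trans ?_ a7
      have h5 : Real.exp 4 ≤ 81 := by
        have h6 : Real.exp 1 ≤ 3 := by linarith [Real.exp_one_lt_d9]
        have h7 : Real.exp 4 = Real.exp 1 ^ 4 := by rw [← Real.exp_nat_mul]; norm_num
        rw [h7]
        calc Real.exp 1 ^ 4 ≤ 3 ^ 4 := pow_le_pow_left₀ (Real.exp_pos _).le h6 4
          _ = 81 := by norm_num
      have h8 : Real.exp 4 * (1 + Lq) ≤ 81 * (1 + Lq) := mul_le_mul_of_nonneg_right h5 (by linarith)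
      have h9 : 81 * (1 + Lq) ≤ Lq ^ 3 := by
        nlinarith [mul_self_nonneg (Lq - 10), mul_nonneg (show 0 ≤ Lq - 10 by linarith) (show 0 ≤ Lq by linarith)]
      linarith
    calc (∏ p ∈ Pr Z, (1 + rs p)) ^ 2 * ((∑ t ∈ Icc 1 Y, 1 / (t : ℝ)) * Real.exp (3 * E)) ≤
          Real.exp (4 * (E + 1)) * ((1 + Lq) * Real.exp (3 * E)) := by
          apply mul_le_mul h1 _ (by positivity) (Real.exp_pos _).le
          exact mul_le_mul_of_nonneg_right h3 (Real.exp_pos _).le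
      _ = (Real.exp 4 * (1 + Lq)) * (Real.exp (4 * E) * Real.exp (3 * E)) := by
          rw [show 4 * (E + 1) = 4 + 4 * E by ring, Real.exp_add]; ring
      _ ≤ Real.exp E * (Real.exp (4 * E) * Real.exp (3 * E)) :=
          mul_le_mul_of_nonneg_right h4 (by positivity)
      _ = (Real.exp (4 * E)) ^ 2 := by
          rw [← Real.exp_add, ← Real.exp_add, ← Real.exp_nat_mul]
          congr 1; push_cast; ring
  have ht : Real.exp (-(Lq ^ τ)) * Real.exp (4 * E) ≤ 1 / 4 := by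
    rw [← Real.exp_add]
    have h1 : 6 * E ≤ Lq ^ τ := by
      have h2 : Lq ^ τ = Lq ^ (τ - τ₁) * E := by
        rw [hEdef, ← Real.rpow_add (by linarith)]; congr 1; ring
      rw [h2]
      exact mul_le_mul_of_nonneg_right a4 (by linarith)
    have h3 : Real.exp (-(Lq ^ τ) + 4 * E) ≤ Real.exp (-2) := Real.exp_le_exp.2 (by linarith)
    refine h3.trans ?_
    have h4 : (4 : ℝ) ≤ Real.exp 2 := by
      have h5 : (2 : ℝ) ≤ Real.exp 1 := by have := Real.add_one_le_exp (1 : ℝ); linarith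
      have h6 : Real.exp 2 = Real.exp 1 ^ 2 := by rw [← Real.exp_nat_mul]; norm_num
      rw [h6]
      nlinarith
    rw [Real.exp_neg, one_div]
    exact inv_anti₀ (by norm_num) h4
  have hmain := count_SS3 H χ₀ Y _ _ (Real.exp_pos _).le (Real.exp_pos _).le ht hM2 hmom
  rw [Nat.card_eq_fintype_card] at hH
  have hqβ : 0 < (q : ℝ) ^ β := Real.rpow_pos_of_pos hq0 _
  have h1 : (c * (q : ℝ) ^ β) ^ 2 ≤ (Fintype.card H : ℝ) ^ 2 := pow_le_pow_left₀ (by positivity) hH 2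
  have h2 : 64 * (Y : ℝ) * (q * (1 + Lq)) ≤ c ^ 2 * (q : ℝ) ^ (1 + ε) := by
    have h3 : 64 * (1 + Lq) ≤ c ^ 2 * (q : ℝ) ^ (ε / 2) := by
      have h4 : 64 / c ^ 2 * (1 + 1 * Lq) ≤ C * (1 + C * Lq) := by
        apply mul_le_mul (le_max_left _ _) _ (by positivity) hC0.le
        have := mul_le_mul_of_nonneg_right (show (1 : ℝ) ≤ C from le_max_right _ _) hlq
        linarith
      have h5 := h4.trans a6
      rw [one_mul, div_mul_eq_mul_div, div_le_iff₀ (by positivity)] at h5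
      linarith
    have h6 : (q : ℝ) ^ (1 + ε) = (q : ℝ) ^ (ε / 2) * q * (q : ℝ) ^ (ε / 2) := by
      rw [show 1 + ε = ε / 2 + 1 + ε / 2 by ring, Real.rpow_add hq0, Real.rpow_add hq0, Real.rpow_one]
    have h7 : (Y : ℝ) ≤ (q : ℝ) ^ (ε / 2) := hYle.trans (Real.rpow_le_rpow_of_exponent_le hq1.le hηε)
    calc 64 * (Y : ℝ) * (q * (1 + Lq)) = (64 * (1 + Lq)) * q * Y := by ring
      _ ≤ (c ^ 2 * (q : ℝ) ^ (ε / 2)) * q * (q : ℝ) ^ (ε / 2) := by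
          apply mul_le_mul _ h7 (Nat.cast_nonneg _) (by positivity)
          exact mul_le_mul_of_nonneg_right h3 hq0.le
      _ = _ := by rw [h6]; ring
  set S : ℝ := ((SS H χ₀ (Real.exp (-(Lq ^ τ)))).card : ℝ) with hS
  have hS0 : 0 ≤ S := Nat.cast_nonneg _
  have h3 : (c * (q : ℝ) ^ β) ^ 2 ≤ c ^ 2 * (q : ℝ) ^ (1 + ε) * S :=
    h1.trans (hmain.trans (mul_le_mul_of_nonneg_right h2 hS0))
  have h4 : (c * (q : ℝ) ^ β) ^ 2 = c ^ 2 * (q : ℝ) ^ (1 + ε) * (q : ℝ) ^ (2 * β - 1 - ε) := by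
    rw [mul_pow, ← Real.rpow_natCast ((q : ℝ) ^ β) 2, ← Real.rpow_mul hq0.le, mul_assoc, ← Real.rpow_add hq0]
    congr 2
    push_cast
    ring
  rw [h4] at h3
  exact le_of_mul_le_mul_left h3 (by positivity)

/-- **The first moment over every coset.** -/
theorem first_moment3 (β c η : ℝ) (hβ : 26 / 41 < β) (hc : 0 < c) (hη : 0 < η) (hη1 : η < 1) :
    ∃ ε₁ : ℝ, 0 < ε₁ ∧ ∃ q₀ : ℕ, ∀ (q : ℕ) [Fact q.Prime], q₀ ≤ q →
      ∀ (H : Subgroup (DirichletCharacter ℂ q)) (χ₀ : DirichletCharacter ℂ q), c * (q : ℝ) ^ β ≤ (Nat.card H : ℝ) →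
      ‖(Fintype.card H : ℂ)⁻¹ * ∑ ψ : H, DirichletCharacter.LFunction (χ₀ * (ψ : DirichletCharacter ℂ q)) (1 / 2) -
        ∑ n ∈ (Icc 1 ⌊(q : ℝ) ^ η⌋₊).filter (fun n : ℕ => ∀ ψ ∈ H, ψ (n : ZMod q) = 1),
          χ₀ (n : ZMod q) / (Real.sqrt n : ℂ)‖ ≤ (q : ℝ) ^ (-ε₁) := by
  set μ : ℝ := (β - 26 / 41) / 4 with hμ
  have hμ0 : 0 < μ := by rw [hμ]; linarith
  obtain ⟨εD, hεD, qD, hDual⟩ := dual_small (2 * μ) (by positivity)
  obtain ⟨ε₁, hε₁, -, q₁, hfew⟩ := few_G41 μ η hμ0 hη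
  set ε₂ : ℝ := min (min ε₁ εD) (1 / 10) with hε₂
  have hε₂0 : 0 < ε₂ := lt_min (lt_min hε₁ hεD) (by norm_num)
  have hε₂1 : ε₂ ≤ ε₁ := (min_le_left _ _).trans (min_le_left _ _)
  have hε₂D : ε₂ ≤ εD := (min_le_left _ _).trans (min_le_right _ _)
  have hε₂10 : ε₂ ≤ 1 / 10 := min_le_right _ _
  have t1 : ∀ a : ℝ, 0 < a → ∀ b : ℝ, ∀ᶠ q : ℕ in atTop, b ≤ (q : ℝ) ^ a := fun a ha b =>
    ((tendsto_rpow_atTop ha).comp tendsto_natCast_atTop_atTop).eventually_ge_atTop b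
  obtain ⟨q₂, hq₂⟩ := eventually_atTop.1 ((t1 μ hμ0 (1 / c)).and ((t1 (ε₂ / 2) (by positivity) 5).and
    ((t1 η hη 2).and (t1 μ hμ0 2))))
  refine ⟨ε₂ / 2, by positivity, max (max 3 qD) (max q₁ q₂), fun q _ hqq H χ₀ hH => ?_⟩
  have hq : q.Prime := Fact.out
  have hqqD : qD ≤ q := (le_max_right _ _).trans ((le_max_left _ _).trans hqq)
  have hqq1 : q₁ ≤ q := (le_max_left _ _).trans ((le_max_right _ _).trans hqq)
  obtain ⟨a1, a2, a5, a6⟩ := hq₂ q ((le_max_right _ _).trans ((le_max_right _ _).trans hqq))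
  have hq0 : (0 : ℝ) < q := by exact_mod_cast hq.pos
  have hq1 : (1 : ℝ) < q := by exact_mod_cast hq.one_lt
  have hG0 := ann_le2 H hc hH a1
  have hG : (Fintype.card (ann H) : ℝ) ≤ (q : ℝ) ^ (15 / 41 - 2 * μ) :=
    hG0.trans (Real.rpow_le_rpow_of_exponent_le hq1.le (by linarith))
  have hqη : 0 < (q : ℝ) ^ η := Real.rpow_pos_of_pos hq0 _
  set M : ℕ := ⌊(q : ℝ) ^ η⌋₊ with hM
  have hMle : (M : ℝ) ≤ (q : ℝ) ^ η := Nat.floor_le hqη.le
  have hMge : (q : ℝ) ^ η / 2 ≤ M := by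
    have := Nat.lt_floor_add_one ((q : ℝ) ^ η)
    rw [← hM] at this
    linarith
  have hMq : M < q := by
    have : (M : ℝ) < q := by
      refine lt_of_le_of_lt hMle ?_
      calc (q : ℝ) ^ η < (q : ℝ) ^ (1 : ℝ) := Real.rpow_lt_rpow_of_exponent_lt hq1 (by linarith)
        _ = q := Real.rpow_one _
    exact_mod_cast this
  have hle : ∀ a : ℝ, ε₂ ≤ a → (q : ℝ) ^ (-a) ≤ (q : ℝ) ^ (-ε₂) := fun a ha =>
    Real.rpow_le_rpow_of_exponent_le hq1.le (by linarith)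
  have h0 : 0 ≤ (q : ℝ) ^ (-ε₂) := by positivity
  have hmain : ∃ N : ℕ, M ≤ N ∧ (q : ℝ) ^ (26 / 41 : ℝ) ≤ N ∧
      ∑ u ∈ univ.filter (fun u : (ZMod q)ˣ => u ∈ ann H ∧ M < (u : ZMod q).val ∧ (u : ZMod q).val ≤ N),
        ((u : ZMod q).val.divisors.card : ℝ) * rs (u : ZMod q).val ≤ (q : ℝ) ^ (-ε₂) := by
    rcases le_total M ⌈(q : ℝ) ^ (26 / 41 : ℝ)⌉₊ with h | h
    · refine ⟨⌈(q : ℝ) ^ (26 / 41 : ℝ)⌉₊, h, Nat.le_ceil _, ?_⟩
      refine (hfew q hqq1 (ann H) hG M _ hMge ?_).trans (hle ε₁ hε₂1)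
      have h1 : (⌈(q : ℝ) ^ (26 / 41 : ℝ)⌉₊ : ℝ) < (q : ℝ) ^ (26 / 41 : ℝ) + 1 := Nat.ceil_lt_add_one (by positivity)
      have h2 : 1 ≤ (q : ℝ) ^ (26 / 41 : ℝ) := Real.one_le_rpow hq1.le (by norm_num)
      have h3 : (q : ℝ) ^ (26 / 41 + μ) = (q : ℝ) ^ μ * (q : ℝ) ^ (26 / 41 : ℝ) := by
        rw [← Real.rpow_add hq0]; congr 1; ring
      have h4 : 2 * (q : ℝ) ^ (26 / 41 : ℝ) ≤ (q : ℝ) ^ μ * (q : ℝ) ^ (26 / 41 : ℝ) :=
        mul_le_mul_of_nonneg_right a6 (by positivity)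
      rw [h3]
      linarith
    · refine ⟨M, le_rfl, (Nat.le_ceil _).trans (by exact_mod_cast h), ?_⟩
      have h1 : univ.filter (fun u : (ZMod q)ˣ => u ∈ ann H ∧ M < (u : ZMod q).val ∧ (u : ZMod q).val ≤ M) = ∅ := by
        rw [Finset.filter_eq_empty_iff]
        rintro u - ⟨-, h2, h3⟩
        omega
      rw [h1, Finset.sum_empty]
      exact h0
  obtain ⟨N, hMN, hN, hfewN⟩ := hmain
  refine (first_err3 H χ₀ M N hMq hMN).trans ?_
  have h2 : ‖DS (ann H) χ₀ 1 N‖ ≤ (q : ℝ) ^ (-ε₂) :=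
    (hDual q hqqD (ann H) hG χ₀ 1 N hN).trans (hle εD hε₂D)
  have h3 : 3 * rs q * Fintype.card (ann H) ≤ 3 * (q : ℝ) ^ (-ε₂) := by
    rw [rs_rpow]
    calc 3 * (q : ℝ) ^ (-(1 / 2 : ℝ)) * Fintype.card (ann H) ≤
          3 * (q : ℝ) ^ (-(1 / 2 : ℝ)) * (q : ℝ) ^ (15 / 41 - 2 * μ) :=
          mul_le_mul_of_nonneg_left hG (by positivity)
      _ = 3 * (q : ℝ) ^ (-(1 / 2) + (15 / 41 - 2 * μ)) := by
          rw [mul_assoc, ← Real.rpow_add hq0]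
      _ ≤ 3 * (q : ℝ) ^ (-ε₂) := by
          apply mul_le_mul_of_nonneg_left _ (by norm_num)
          exact Real.rpow_le_rpow_of_exponent_le hq1.le (by linarith)
  have h4 : (q : ℝ) ^ (-(ε₂ / 2)) = (q : ℝ) ^ (ε₂ / 2) * (q : ℝ) ^ (-ε₂) := by
    rw [← Real.rpow_add hq0]; congr 1; ring
  rw [h4]
  calc _ ≤ (q : ℝ) ^ (-ε₂) + (q : ℝ) ^ (-ε₂) + 3 * (q : ℝ) ^ (-ε₂) := add_le_add (add_le_add hfewN h2) h3
    _ = 5 * (q : ℝ) ^ (-ε₂) := by ring
    _ ≤ _ := mul_le_mul_of_nonneg_right a2 h0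

end Pool.Agent.K4H2.EC
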